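import Pool.Agent.Helper56.SW.Defs

/-!
# HX: six-letter words modulo a prime (MP_e188f1_nt), definitions

A solution is a triple of points `P₁ = (h₁, k₂)`, `P₂ = (h₂, k₃)`, `P₃ = (h₃, k₁)` (written
`P_i = (x_i, z_i)`), pairwise parallel modulo `c`, with `x₁ + x₂ + x₃ + β x₁ x₂ z₃ ≡ 0` and
`z₁ + z₂ + z₃ + β x₃ z₁ z₂ ≡ 0 (mod c)`, `β = a b`.
-/

set_option autoImplicit false

namespace Pool.Agent.Helper89.HX

open Finset Pool.Agent.Helper56.SW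

noncomputable section

/-- the wedge `x y' - y x'` -/
def wd (P Q : ℤ × ℤ) : ℤ := P.1 * Q.2 - P.2 * Q.1

/-- the box `|x| ≤ A`, `|y| ≤ B` -/
def bo (A B : ℕ) : Finset (ℤ × ℤ) := (I A) ×ˢ (I B)

/-- triples of points -/
abbrev Tp : Type := (ℤ × ℤ) × (ℤ × ℤ) × (ℤ × ℤ)

/-- the relations -/
def Rl (c : ℕ) (β : ℤ) (T : Tp) : Prop :=
  (c : ℤ) ∣ wd T.1 T.2.1 ∧ (c : ℤ) ∣ wd T.1 T.2.2 ∧ (c : ℤ) ∣ wd T.2.1 T.2.2 ∧
    (c : ℤ) ∣ T.1.1 + T.2.1.1 + T.2.2.1 + β * T.1.1 * T.2.1.1 * T.2.2.2 ∧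
    (c : ℤ) ∣ T.1.2 + T.2.1.2 + T.2.2.2 + β * T.2.2.1 * T.1.2 * T.2.1.2

/-- the solutions in the box -/
def Sol (c : ℕ) (β : ℤ) (A B : ℕ) : Finset Tp := by
  classical
  exact ((bo A B) ×ˢ (bo A B) ×ˢ (bo A B)).filter fun T => Rl c β T

/-- all six letters are nonzero integers -/
def NZ (T : Tp) : Prop :=
  T.1.1 ≠ 0 ∧ T.1.2 ≠ 0 ∧ T.2.1.1 ≠ 0 ∧ T.2.1.2 ≠ 0 ∧ T.2.2.1 ≠ 0 ∧ T.2.2.2 ≠ 0

/-- `c ∣ 1 + β x₂ z₁` -/
def Dg (c : ℕ) (β : ℤ) (T : Tp) : Prop := (c : ℤ) ∣ 1 + β * T.2.1.1 * T.1.2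

/-- solutions with a zero letter -/
def SolZ (c : ℕ) (β : ℤ) (A B : ℕ) : Finset Tp := by
  classical
  exact (Sol c β A B).filter fun T => ¬ NZ T

/-- solutions without zero letter and with `c ∣ 1 + β x₂ z₁` -/
def SolD (c : ℕ) (β : ℤ) (A B : ℕ) : Finset Tp := by
  classical
  exact (Sol c β A B).filter fun T => NZ T ∧ Dg c β T

/-- solutions without zero letter, `c ∤ 1 + β x₂ z₁`, with `P₁`, `P₂` parallel over `ℤ` -/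
def SolP (c : ℕ) (β : ℤ) (A B : ℕ) : Finset Tp := by
  classical
  exact (Sol c β A B).filter fun T => NZ T ∧ ¬ Dg c β T ∧ wd T.1 T.2.1 = 0

/-- solutions without zero letter, `c ∤ 1 + β x₂ z₁`, with `P₁`, `P₂` not parallel over `ℤ` -/
def SolN (c : ℕ) (β : ℤ) (A B : ℕ) : Finset Tp := by
  classical
  exact (Sol c β A B).filter fun T => NZ T ∧ ¬ Dg c β T ∧ wd T.1 T.2.1 ≠ 0

/-- the points of the lattice `c ∣ y - lam x` in the box -/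
def La (c : ℕ) (lam : ℤ) (A B : ℕ) : Finset (ℤ × ℤ) :=
  (bo A B).filter fun P => (c : ℤ) ∣ P.2 - lam * P.1

/-- the lattice `c ∣ y - lam x` has two independent vectors in the box -/
def Two (c : ℕ) (lam : ℤ) (A B : ℕ) : Prop :=
  ∃ P ∈ La c lam A B, ∃ Q ∈ La c lam A B, wd P Q ≠ 0

/-- `(e, f)` is a reduced basis, of scale `2 ^ k`, of the lattice `c ∣ y - lam x` -/
structure Bs (c A B k : ℕ) (lam : ℤ) (e f : ℤ × ℤ) : Prop where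
  e_mem : (c : ℤ) ∣ e.2 - lam * e.1
  f_mem : (c : ℤ) ∣ f.2 - lam * f.1
  det : |wd e f| = c
  e1 : |e.1| ≤ A
  e2 : |e.2| ≤ B
  f1 : |f.1| ≤ A
  f2 : |f.2| ≤ B
  e1' : |e.1| * 2 ^ k ≤ 12 * A
  e2' : |e.2| * 2 ^ k ≤ 12 * B
  f1' : |f.1| * B ≤ 2 ^ k * c
  f2' : |f.2| * A ≤ 2 ^ k * c
  le : c * 2 ^ k ≤ 24 * A * B
  comb : ∀ P ∈ La c lam A B, ∃ m n : ℤ, P = (m * e.1 + n * f.1, m * e.2 + n * f.2) ∧
    |m| ≤ 2 ^ (k + 1) ∧ |n| ≤ 2 ^ (k + 1) ∧ |n| * (c * 2 ^ k) ≤ 24 * A * B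

/-- the triple lies in a lattice with a reduced basis of small scale -/
def Gd (c A B : ℕ) (T : Tp) : Prop :=
  ∃ (lam : ℤ) (k : ℕ) (e f : ℤ × ℤ), Bs c A B k lam e f ∧ 48 * 8 ^ k < c ∧
    (c : ℤ) ∣ T.1.2 - lam * T.1.1 ∧ (c : ℤ) ∣ T.2.1.2 - lam * T.2.1.1 ∧
    (c : ℤ) ∣ T.2.2.2 - lam * T.2.2.1

/-- the members of `SolN` in a lattice of small scale -/
def SolG (c : ℕ) (β : ℤ) (A B : ℕ) : Finset Tp := by
  classical
  exact (SolN c β A B).filter fun T => Gd c A B T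

/-- the sum of the three points -/
def sg (T : Tp) : ℤ × ℤ := (T.1.1 + T.2.1.1 + T.2.2.1, T.1.2 + T.2.1.2 + T.2.2.2)

/-- the product of the three first coordinates -/
def px (T : Tp) : ℤ := T.1.1 * T.2.1.1 * T.2.2.1

/-- pairs of solutions with the same sum and different product of the first coordinates -/
def Pr (c : ℕ) (β : ℤ) (A B : ℕ) : Finset (Tp × Tp) :=
  ((SolG c β A B) ×ˢ (SolG c β A B)).filter fun q => sg q.1 = sg q.2 ∧ px q.1 ≠ px q.2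

/-- number of six-letter words `u(h₁) l(k₁) u(h₂) l(k₂) u(h₃) l(k₃) = g`, `|h| ≤ A`, `|k| ≤ B` -/
def W {G : Type} [Group G] (u l : ℤ → G) (g : G) (A B : ℕ) : ℕ := by
  classical
  exact ((bo A B ×ˢ bo A B ×ˢ bo A B).filter fun T =>
    u T.1.1 * l T.1.2 * (u T.2.1.1 * l T.2.1.2) * (u T.2.2.1 * l T.2.2.2) = g).card

end

end Pool.Agent.Helper89.HX
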