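import Pool.Agent.Helper89.HX.St

/-!
# HX, module Bas: a lattice with two independent vectors in the box has a reduced basis
-/

set_option autoImplicit false

namespace Pool.Agent.Helper89.HX

open Finset Pool.Agent.Helper56.SW

theorem Bas_min {α : Type} (S : α → Prop) (g : α → ℕ) (h : ∃ a, S a) :
    ∃ a, S a ∧ ∀ b, S b → g a ≤ g b := by
  classical
  have h2 : ∃ n, ∃ a, S a ∧ g a = n := by
    obtain ⟨a, ha⟩ := h
    exact ⟨g a, a, ha, rfl⟩
  obtain ⟨a, ha, hga⟩ := Nat.find_spec h2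
  refine ⟨a, ha, fun b hb => ?_⟩
  rw [hga]
  exact Nat.find_min' h2 ⟨b, hb, rfl⟩

theorem Bas_core (p q r s : ℤ) (hq : 0 ≤ q) (hr : 0 ≤ r) (hqp : q ≤ p)
    (hpn : p ≤ max r |s|) (h : max r |s| ≤ max |r - p| |s - q|) :
    p * max r |s| ≤ |p * s - q * r| := by
  have hp : 0 ≤ p := hq.trans hqp
  rcases lt_or_ge r |s| with h1 | h1
  · rw [max_eq_right h1.le] at hpn h ⊢
    rcases le_total s 0 with hs | hs
    · rw [abs_of_nonpos hs] at *
      rw [abs_of_nonpos (by nlinarith [mul_nonneg hq hr, mul_nonneg hp (neg_nonneg.mpr hs)])]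
      nlinarith [mul_nonneg hq hr]
    · rw [abs_of_nonneg hs] at *
      rcases eq_or_lt_of_le hq with hq0 | hq0
      · rw [← hq0]
        simp only [zero_mul, sub_zero]
        exact le_abs_self _
      · rcases eq_or_lt_of_le hr with hr0 | hr0
        · rw [← hr0]
          simp only [mul_zero, sub_zero]
          exact le_abs_self _
        · exfalso
          rcases le_max_iff.mp h with h2 | h2
          · rcases abs_cases (r - p) with ⟨h3, _⟩ | ⟨h3, _⟩ <;> rw [h3] at h2 <;> linarith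
          · rcases abs_cases (s - q) with ⟨h3, _⟩ | ⟨h3, _⟩ <;> rw [h3] at h2 <;> linarith
  · rw [max_eq_left h1] at hpn h ⊢
    rcases eq_or_lt_of_le hp with hp0 | hp0
    · rw [← hp0]
      simp only [zero_mul]
      exact abs_nonneg _
    have hr0 : 0 < r := lt_of_lt_of_le hp0 hpn
    have h4 : r ≤ |s - q| := by
      rcases le_max_iff.mp h with h2 | h2
      · exfalso
        rcases abs_cases (r - p) with ⟨h3, _⟩ | ⟨h3, _⟩ <;> rw [h3] at h2 <;> linarith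
      · exact h2
    rcases le_total s 0 with hs | hs
    · rw [abs_of_nonpos (by linarith)] at h4
      rw [abs_of_nonpos (by nlinarith [mul_nonneg hq hr, mul_nonneg hp (neg_nonneg.mpr hs)])]
      nlinarith [mul_nonneg hq (sub_nonneg.mpr hpn), mul_le_mul_of_nonneg_left h4 hp]
    · rw [abs_of_nonneg hs] at h1
      rcases abs_cases (s - q) with ⟨h3, _⟩ | ⟨h3, _⟩
      · rw [h3] at h4
        have h5 : q = 0 := by linarith
        have h6 : s = r := by linarith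
        rw [h5, h6]
        simp only [zero_mul, sub_zero]
        exact le_abs_self _
      · rw [h3] at h4
        have h5 : s = 0 := by linarith
        have h6 : q = r := by linarith
        rw [h5, h6]
        have h7 : p * 0 - r * r = -(r * r) := by ring
        rw [h7, abs_neg, abs_of_nonneg (mul_nonneg hr hr)]
        have h8 : p = r := by linarith
        rw [h8]

theorem Bas_core2 (p q r s : ℤ) (hqp : |q| ≤ |p|) (hpn : |p| ≤ max |r| |s|)
    (h1 : max |r| |s| ≤ max |r - p| |s - q|) (h2 : max |r| |s| ≤ max |r + p| |s + q|) :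
    |p| * max |r| |s| ≤ |p * s - q * r| := by
  rcases le_total 0 p with hp | hp <;> rcases le_total 0 q with hq | hq <;>
    rcases le_total 0 r with hr | hr
  · rw [abs_of_nonneg hp] at hqp hpn ⊢
    rw [abs_of_nonneg hq] at hqp
    rw [abs_of_nonneg hr] at hpn h1 ⊢
    exact Bas_core p q r s hq hr hqp hpn h1
  · rw [abs_of_nonneg hp] at hqp hpn ⊢
    rw [abs_of_nonneg hq] at hqp
    rw [abs_of_nonpos hr] at hpn h2 ⊢
    have e1 : |r + p| = |-r - p| := by rw [← abs_neg]; congr 1; ring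
    have e2 : |s + q| = |-s - q| := by rw [← abs_neg]; congr 1; ring
    have e3 : |p * s - q * r| = |p * -s - q * -r| := by rw [← abs_neg]; congr 1; ring
    rw [e1, e2, ← abs_neg s] at h2
    rw [← abs_neg s] at hpn ⊢
    rw [e3]
    exact Bas_core p q (-r) (-s) hq (by linarith) hqp hpn h2
  · rw [abs_of_nonneg hp] at hqp hpn ⊢
    rw [abs_of_nonpos hq] at hqp
    rw [abs_of_nonneg hr] at hpn h1 ⊢
    have e2 : |s - q| = |-s - -q| := by rw [← abs_neg]; congr 1; ring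
    have e3 : |p * s - q * r| = |p * -s - -q * r| := by rw [← abs_neg]; congr 1; ring
    rw [e2, ← abs_neg s] at h1
    rw [← abs_neg s] at hpn ⊢
    rw [e3]
    exact Bas_core p (-q) r (-s) (by linarith) hr hqp hpn h1
  · rw [abs_of_nonneg hp] at hqp hpn ⊢
    rw [abs_of_nonpos hq] at hqp
    rw [abs_of_nonpos hr] at hpn h2 ⊢
    have e1 : |r + p| = |-r - p| := by rw [← abs_neg]; congr 1; ring
    have e2 : |s + q| = |s - -q| := by congr 1; ring
    have e3 : |p * s - q * r| = |p * s - -q * -r| := by congr 1; ring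
    rw [e1, e2] at h2
    rw [e3]
    exact Bas_core p (-q) (-r) s (by linarith) (by linarith) hqp hpn h2
  · rw [abs_of_nonpos hp] at hqp hpn ⊢
    rw [abs_of_nonneg hq] at hqp
    rw [abs_of_nonneg hr] at hpn h2 ⊢
    have e1 : |r + p| = |r - -p| := by congr 1; ring
    have e2 : |s + q| = |-s - q| := by rw [← abs_neg]; congr 1; ring
    have e3 : |p * s - q * r| = |-p * -s - q * r| := by congr 1; ring
    rw [e1, e2, ← abs_neg s] at h2
    rw [← abs_neg s] at hpn ⊢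
    rw [e3]
    exact Bas_core (-p) q r (-s) hq hr hqp hpn h2
  · rw [abs_of_nonpos hp] at hqp hpn ⊢
    rw [abs_of_nonneg hq] at hqp
    rw [abs_of_nonpos hr] at hpn h1 ⊢
    have e1 : |r - p| = |-r - -p| := by rw [← abs_neg]; congr 1; ring
    have e3 : |p * s - q * r| = |-p * s - q * -r| := by rw [← abs_neg]; congr 1; ring
    rw [e1] at h1
    rw [e3]
    exact Bas_core (-p) q (-r) s hq (by linarith) hqp hpn h1
  · rw [abs_of_nonpos hp] at hqp hpn ⊢
    rw [abs_of_nonpos hq] at hqp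
    rw [abs_of_nonneg hr] at hpn h2 ⊢
    have e1 : |r + p| = |r - -p| := by congr 1; ring
    have e2 : |s + q| = |s - -q| := by congr 1; ring
    have e3 : |p * s - q * r| = |-p * s - -q * r| := by rw [← abs_neg]; congr 1; ring
    rw [e1, e2] at h2
    rw [e3]
    exact Bas_core (-p) (-q) r s (by linarith) hr hqp hpn h2
  · rw [abs_of_nonpos hp] at hqp hpn ⊢
    rw [abs_of_nonpos hq] at hqp
    rw [abs_of_nonpos hr] at hpn h1 ⊢
    have e1 : |r - p| = |-r - -p| := by rw [← abs_neg]; congr 1; ring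
    have e2 : |s - q| = |-s - -q| := by rw [← abs_neg]; congr 1; ring
    have e3 : |p * s - q * r| = |-p * -s - -q * -r| := by congr 1; ring
    rw [e1, e2, ← abs_neg s] at h1
    rw [← abs_neg s] at hpn ⊢
    rw [e3]
    exact Bas_core (-p) (-q) (-r) (-s) (by linarith) (by linarith) hqp hpn h1

theorem Bas_core3 (p q r s : ℤ) (hn : max |p| |q| ≤ max |r| |s|)
    (h1 : max |r| |s| ≤ max |r - p| |s - q|) (h2 : max |r| |s| ≤ max |r + p| |s + q|) :
    max |p| |q| * max |r| |s| ≤ |p * s - q * r| := by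
  rcases le_total |q| |p| with h | h
  · rw [max_eq_left h] at hn ⊢
    exact Bas_core2 p q r s h hn h1 h2
  · rw [max_eq_right h] at hn ⊢
    rw [max_comm |r| |s|] at hn h1 h2 ⊢
    rw [max_comm |r - p|] at h1
    rw [max_comm |r + p|] at h2
    have e3 : |p * s - q * r| = |q * r - p * s| := abs_sub_comm _ _
    rw [e3]
    exact Bas_core2 q p s r h hn h1 h2

/-- the norm -/
def Bas_nn (A B : ℕ) (P : ℤ × ℤ) : ℤ := max |(B : ℤ) * P.1| |(A : ℤ) * P.2|

theorem Bas_nn_nonneg (A B : ℕ) (P : ℤ × ℤ) : 0 ≤ Bas_nn A B P :=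
  le_max_of_le_left (abs_nonneg _)

theorem Bas_nn_pos {A B : ℕ} (hA : 1 ≤ A) (hB : 1 ≤ B) {P : ℤ × ℤ} (hP : P ≠ 0) :
    0 < Bas_nn A B P := by
  have hA' : (0 : ℤ) < A := by exact_mod_cast hA
  have hB' : (0 : ℤ) < B := by exact_mod_cast hB
  unfold Bas_nn
  by_cases h : P.1 = 0
  · have h2 : P.2 ≠ 0 := by
      intro h2
      exact hP (Prod.ext h h2)
    apply lt_max_of_lt_right
    exact abs_pos.mpr (mul_ne_zero hA'.ne' h2)
  · apply lt_max_of_lt_left
    exact abs_pos.mpr (mul_ne_zero hB'.ne' h)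

theorem Bas_mul_nn (A B : ℕ) (w s t : ℤ) (P e f : ℤ × ℤ)
    (h1 : w * P.1 = s * e.1 + t * f.1) (h2 : w * P.2 = s * e.2 + t * f.2) :
    |w| * Bas_nn A B P ≤ |s| * Bas_nn A B e + |t| * Bas_nn A B f := by
  unfold Bas_nn
  rcases max_choice |(B : ℤ) * P.1| |(A : ℤ) * P.2| with h | h
  · rw [h, ← abs_mul]
    have e1 : w * ((B : ℤ) * P.1) = s * ((B : ℤ) * e.1) + t * ((B : ℤ) * f.1) := by
      have : w * ((B : ℤ) * P.1) = (B : ℤ) * (w * P.1) := by ring
      rw [this, h1]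
      ring
    rw [e1]
    refine (abs_add_le _ _).trans ?_
    rw [abs_mul, abs_mul t]
    exact add_le_add (mul_le_mul_of_nonneg_left (le_max_left _ _) (abs_nonneg _))
      (mul_le_mul_of_nonneg_left (le_max_left _ _) (abs_nonneg _))
  · rw [h, ← abs_mul]
    have e1 : w * ((A : ℤ) * P.2) = s * ((A : ℤ) * e.2) + t * ((A : ℤ) * f.2) := by
      have : w * ((A : ℤ) * P.2) = (A : ℤ) * (w * P.2) := by ring
      rw [this, h2]
      ring
    rw [e1]
    refine (abs_add_le _ _).trans ?_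
    rw [abs_mul, abs_mul t]
    exact add_le_add (mul_le_mul_of_nonneg_left (le_max_right _ _) (abs_nonneg _))
      (mul_le_mul_of_nonneg_left (le_max_right _ _) (abs_nonneg _))

theorem Bas_round (a w : ℤ) (hw : w ≠ 0) : ∃ m : ℤ, 2 * |a - m * w| ≤ |w| := by
  have hw' : 0 < |w| := abs_pos.mpr hw
  -- m0 = (2a + |w|) / (2|w|)
  obtain ⟨m0, hm0⟩ : ∃ m0 : ℤ, 2 * |a - m0 * (abs w)| ≤ |w| := by
    refine ⟨(2 * a + |w|) / (2 * |w|), ?_⟩
    have h1 := Int.emod_add_mul_ediv (2 * a + |w|) (2 * |w|)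
    have h2 := Int.emod_nonneg (2 * a + |w|) (by positivity : (2 * |w|) ≠ 0)
    have h3 := Int.emod_lt_of_pos (2 * a + |w|) (by positivity : 0 < 2 * |w|)
    set q := (2 * a + |w|) / (2 * |w|)
    set r := (2 * a + |w|) % (2 * |w|)
    have h4 : 2 * (a - q * |w|) = r - |w| := by nlinarith
    have h5 : 2 * |a - q * (abs w)| = |2 * (a - q * (abs w))| := by rw [abs_mul, abs_two]
    rw [h5, h4, abs_le]
    constructor <;> linarith
  rcases abs_choice w with h | h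
  · refine ⟨m0, ?_⟩
    have : a - m0 * w = a - m0 * (abs w) := by rw [h]
    rw [this]
    exact hm0
  · refine ⟨-m0, ?_⟩
    have : a - -m0 * w = a - m0 * (abs w) := by rw [h]; ring
    rw [this]
    exact hm0

theorem Bas_mem_La {c : ℕ} {lam : ℤ} {A B : ℕ} {P : ℤ × ℤ} :
    P ∈ La c lam A B ↔ (|P.1| ≤ A ∧ |P.2| ≤ B) ∧ (c : ℤ) ∣ P.2 - lam * P.1 := by
  unfold La bo I
  rw [mem_filter, mem_product, mem_Icc, mem_Icc, abs_le, abs_le]

theorem Bas_nn_le {A B : ℕ} {P : ℤ × ℤ} (h1 : |P.1| ≤ A) (h2 : |P.2| ≤ B) :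
    Bas_nn A B P ≤ (A : ℤ) * B := by
  unfold Bas_nn
  apply max_le
  · rw [abs_mul, abs_of_nonneg (by positivity : (0 : ℤ) ≤ B), mul_comm]
    exact mul_le_mul_of_nonneg_right h1 (by positivity)
  · rw [abs_mul, abs_of_nonneg (by positivity : (0 : ℤ) ≤ A)]
    exact mul_le_mul_of_nonneg_left h2 (by positivity)

theorem Bas_le_nn1 {A B : ℕ} (P : ℤ × ℤ) : |P.1| * B ≤ Bas_nn A B P := by
  unfold Bas_nn
  apply le_max_of_le_left
  rw [abs_mul, abs_of_nonneg (by positivity : (0 : ℤ) ≤ B), mul_comm]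

theorem Bas_le_nn2 {A B : ℕ} (P : ℤ × ℤ) : |P.2| * A ≤ Bas_nn A B P := by
  unfold Bas_nn
  apply le_max_of_le_right
  rw [abs_mul, abs_of_nonneg (by positivity : (0 : ℤ) ≤ A), mul_comm]

/-- the lattice is closed under integral combinations -/
theorem Bas_comb_mem {c : ℕ} {lam : ℤ} {e f : ℤ × ℤ} (he : (c : ℤ) ∣ e.2 - lam * e.1)
    (hf : (c : ℤ) ∣ f.2 - lam * f.1) (P : ℤ × ℤ) (hP : (c : ℤ) ∣ P.2 - lam * P.1) (m n : ℤ) :
    (c : ℤ) ∣ (P.2 - m * e.2 - n * f.2) - lam * (P.1 - m * e.1 - n * f.1) := by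
  have e1 : (P.2 - m * e.2 - n * f.2) - lam * (P.1 - m * e.1 - n * f.1) =
      (P.2 - lam * P.1) - m * (e.2 - lam * e.1) - n * (f.2 - lam * f.1) := by ring
  rw [e1]
  exact dvd_sub (dvd_sub hP (Dvd.dvd.mul_left he m)) (Dvd.dvd.mul_left hf n)

theorem Bas_wd_dvd {c : ℕ} {lam : ℤ} {e f : ℤ × ℤ} (he : (c : ℤ) ∣ e.2 - lam * e.1)
    (hf : (c : ℤ) ∣ f.2 - lam * f.1) : (c : ℤ) ∣ wd e f := by
  have e1 : wd e f = e.1 * (f.2 - lam * f.1) - f.1 * (e.2 - lam * e.1) := by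
    unfold wd; ring
  rw [e1]
  exact dvd_sub (Dvd.dvd.mul_left hf _) (Dvd.dvd.mul_left he _)

theorem Bas_red {c : ℕ} {lam : ℤ} {A B : ℕ} (hc : 1 ≤ c) (hA : 1 ≤ A) (hB : 1 ≤ B)
    (h2 : Two c lam A B) :
    ∃ e f : ℤ × ℤ, (c : ℤ) ∣ e.2 - lam * e.1 ∧ (c : ℤ) ∣ f.2 - lam * f.1 ∧ |wd e f| = c ∧
      Bas_nn A B e ≤ Bas_nn A B f ∧ Bas_nn A B f ≤ (A : ℤ) * B ∧
      Bas_nn A B e * Bas_nn A B f ≤ (c : ℤ) * (A * B) ∧
      ∀ P : ℤ × ℤ, (c : ℤ) ∣ P.2 - lam * P.1 → ∃ m n : ℤ,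
        P = (m * e.1 + n * f.1, m * e.2 + n * f.2) := by
  obtain ⟨P0, hP0, Q0, hQ0, hw0⟩ := h2
  rw [Bas_mem_La] at hP0 hQ0
  have hP0' : P0 ≠ 0 := by
    rintro rfl
    apply hw0
    simp [wd]
  have htn : ∀ P Q : ℤ × ℤ, (Bas_nn A B P).toNat ≤ (Bas_nn A B Q).toNat →
      Bas_nn A B P ≤ Bas_nn A B Q := by
    intro P Q h
    have h1 := Bas_nn_nonneg A B P
    have h2 := Bas_nn_nonneg A B Q
    omega
  obtain ⟨e, ⟨he, he0⟩, hemin⟩ := Bas_min (fun P : ℤ × ℤ => (c : ℤ) ∣ P.2 - lam * P.1 ∧ P ≠ 0)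
    (fun P => (Bas_nn A B P).toNat) ⟨P0, hP0.2, hP0'⟩
  have hemin' : ∀ P : ℤ × ℤ, (c : ℤ) ∣ P.2 - lam * P.1 → P ≠ 0 → Bas_nn A B e ≤ Bas_nn A B P :=
    fun P h1 h2 => htn _ _ (hemin P ⟨h1, h2⟩)
  -- a vector of the box not parallel to e
  obtain ⟨R, hR1, hR2, hR3⟩ : ∃ R : ℤ × ℤ, (c : ℤ) ∣ R.2 - lam * R.1 ∧ wd e R ≠ 0 ∧
      Bas_nn A B R ≤ (A : ℤ) * B := by
    by_cases h1 : wd e P0 = 0
    · by_cases h2 : wd e Q0 = 0
      · exfalso
        have e1 : e.1 * wd P0 Q0 = P0.1 * wd e Q0 - Q0.1 * wd e P0 := by unfold wd; ring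
        have e2 : e.2 * wd P0 Q0 = P0.2 * wd e Q0 - Q0.2 * wd e P0 := by unfold wd; ring
        rw [h1, h2] at e1 e2
        simp only [mul_zero, sub_zero] at e1 e2
        exact he0 (Prod.ext ((mul_eq_zero.mp e1).resolve_right hw0)
          ((mul_eq_zero.mp e2).resolve_right hw0))
      · exact ⟨Q0, hQ0.2, h2, Bas_nn_le hQ0.1.1 hQ0.1.2⟩
    · exact ⟨P0, hP0.2, h1, Bas_nn_le hP0.1.1 hP0.1.2⟩
  obtain ⟨g, ⟨hg, hg0⟩, hgmin⟩ := Bas_min (fun P : ℤ × ℤ => (c : ℤ) ∣ P.2 - lam * P.1 ∧ wd e P ≠ 0)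
    (fun P => (Bas_nn A B P).toNat) ⟨R, hR1, hR2⟩
  obtain ⟨f, ⟨hf, hf0, hfg⟩, hfmin⟩ := Bas_min
    (fun P : ℤ × ℤ => (c : ℤ) ∣ P.2 - lam * P.1 ∧ wd e P ≠ 0 ∧ Bas_nn A B P ≤ Bas_nn A B g)
    (fun P => (wd e P).natAbs) ⟨g, hg, hg0, le_refl _⟩
  have hgm : ∀ P : ℤ × ℤ, (c : ℤ) ∣ P.2 - lam * P.1 → wd e P ≠ 0 → Bas_nn A B f ≤ Bas_nn A B P :=
    fun P h1 h2 => hfg.trans (htn _ _ (hgmin P ⟨h1, h2⟩))
  have hfR : Bas_nn A B f ≤ (A : ℤ) * B := (hgm R hR1 hR2).trans hR3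
  have hf0' : f ≠ 0 := by
    rintro rfl
    apply hf0
    simp [wd]
  have hef : Bas_nn A B e ≤ Bas_nn A B f := hemin' f hf hf0'
  have hepos : 0 < Bas_nn A B e := Bas_nn_pos hA hB he0
  set w := wd e f with hw
  have hwpos : 0 < |w| := abs_pos.mpr hf0
  -- generation
  have hgen : ∀ P : ℤ × ℤ, (c : ℤ) ∣ P.2 - lam * P.1 → ∃ m n : ℤ,
      P = (m * e.1 + n * f.1, m * e.2 + n * f.2) := by
    intro P hP
    obtain ⟨m, hm⟩ := Bas_round (wd P f) w hf0
    obtain ⟨n, hn⟩ := Bas_round (wd e P) w hf0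
    set P' : ℤ × ℤ := (P.1 - m * e.1 - n * f.1, P.2 - m * e.2 - n * f.2) with hP'
    have hP'm : (c : ℤ) ∣ P'.2 - lam * P'.1 := Bas_comb_mem he hf P hP m n
    have c1 : w * P'.1 = (wd P f - m * w) * e.1 + (wd e P - n * w) * f.1 := by
      simp only [hw, hP', wd]; ring
    have c2 : w * P'.2 = (wd P f - m * w) * e.2 + (wd e P - n * w) * f.2 := by
      simp only [hw, hP', wd]; ring
    have c3 : wd e P' = wd e P - n * w := by
      simp only [hw, hP', wd]; ring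
    have c4 := Bas_mul_nn A B w _ _ P' e f c1 c2
    have c5 : Bas_nn A B P' ≤ Bas_nn A B f := by
      have t1 := mul_le_mul_of_nonneg_right hm (Bas_nn_nonneg A B e)
      have t2 := mul_le_mul_of_nonneg_right hn (Bas_nn_nonneg A B f)
      have t3 : |w| * (2 * Bas_nn A B P') ≤ |w| * (2 * Bas_nn A B f) := by
        have t4 := mul_le_mul_of_nonneg_left hef hwpos.le
        nlinarith
      have := le_of_mul_le_mul_left t3 hwpos
      linarith
    have c6 : wd e P' = 0 := by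
      by_contra h
      have h1 := hfmin P' ⟨hP'm, h, c5.trans hfg⟩
      have h1' : |w| ≤ |wd e P'| := by
        rw [Int.abs_eq_natAbs, Int.abs_eq_natAbs]
        exact_mod_cast h1
      rw [c3] at h1'
      linarith
    have c7 : P' = 0 := by
      by_contra h
      have h1 := hemin' P' hP'm h
      rw [c3] at c6
      rw [c6] at c4
      simp only [abs_zero, zero_mul, add_zero] at c4
      have t1 := mul_le_mul_of_nonneg_right hm (Bas_nn_nonneg A B e)
      have t2 := mul_le_mul_of_nonneg_left h1 hwpos.le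
      have t3 : 0 < |w| * Bas_nn A B e := mul_pos hwpos hepos
      nlinarith
    refine ⟨m, n, ?_⟩
    have d1 : P'.1 = 0 := by rw [c7]; rfl
    have d2 : P'.2 = 0 := by rw [c7]; rfl
    simp only [hP'] at d1 d2
    apply Prod.ext
    · show P.1 = m * e.1 + n * f.1
      linarith
    · show P.2 = m * e.2 + n * f.2
      linarith
  -- determinant
  have hdet : |w| = c := by
    have d1 : (c : ℤ) ∣ w := Bas_wd_dvd he hf
    obtain ⟨m1, n1, h1⟩ := hgen (1, lam) (by simp)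
    obtain ⟨m2, n2, h2⟩ := hgen (0, (c : ℤ)) (by simp)
    have d2 : w ∣ (c : ℤ) := by
      refine ⟨m1 * n2 - n1 * m2, ?_⟩
      have a1 : (1 : ℤ) = m1 * e.1 + n1 * f.1 := congrArg Prod.fst h1
      have a2 : lam = m1 * e.2 + n1 * f.2 := congrArg Prod.snd h1
      have a3 : (0 : ℤ) = m2 * e.1 + n2 * f.1 := congrArg Prod.fst h2
      have a4 : (c : ℤ) = m2 * e.2 + n2 * f.2 := congrArg Prod.snd h2
      have a5 : (c : ℤ) = 1 * c - lam * 0 := by ring
      rw [a5]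
      calc 1 * (c : ℤ) - lam * 0 = (m1 * e.1 + n1 * f.1) * (m2 * e.2 + n2 * f.2) -
            (m1 * e.2 + n1 * f.2) * (m2 * e.1 + n2 * f.1) := by rw [← a1, ← a2, ← a3, ← a4]
        _ = w * (m1 * n2 - n1 * m2) := by simp only [hw, wd]; ring
    have hc0 : (0 : ℤ) < c := by exact_mod_cast hc
    have d3 : |w| ∣ (c : ℤ) := (abs_dvd w _).mpr d2
    have d4 : (c : ℤ) ∣ |w| := (dvd_abs _ w).mpr d1
    exact Int.dvd_antisymm hwpos.le hc0.le d3 d4
  refine ⟨e, f, he, hf, hdet, hef, hfR, ?_, hgen⟩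
  -- Minkowski
  have k1 : Bas_nn A B f ≤ max |(B : ℤ) * f.1 - B * e.1| |(A : ℤ) * f.2 - A * e.2| := by
    have h1 := hgm (f.1 - 1 * f.1 * 0 - e.1, f.2 - e.2) ?_ ?_
    · unfold Bas_nn at h1 ⊢
      simp only [mul_zero, sub_zero] at h1
      rw [← mul_sub, ← mul_sub]
      exact h1
    · have := dvd_sub hf he
      have e1 : f.2 - lam * f.1 - (e.2 - lam * e.1) =
        ((f.1 - 1 * f.1 * 0 - e.1, f.2 - e.2) : ℤ × ℤ).2 -
          lam * ((f.1 - 1 * f.1 * 0 - e.1, f.2 - e.2) : ℤ × ℤ).1 := by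
        show _ = (f.2 - e.2) - lam * (f.1 - 1 * f.1 * 0 - e.1)
        ring
      rw [← e1]
      exact this
    · have e1 : wd e (f.1 - 1 * f.1 * 0 - e.1, f.2 - e.2) = w := by
        simp only [hw, wd]; ring
      rw [e1]
      exact hf0
  have k2 : Bas_nn A B f ≤ max |(B : ℤ) * f.1 + B * e.1| |(A : ℤ) * f.2 + A * e.2| := by
    have h1 := hgm (f.1 + e.1, f.2 + e.2) ?_ ?_
    · unfold Bas_nn at h1 ⊢
      rw [← mul_add, ← mul_add]
      exact h1
    · have := dvd_add hf he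
      have e1 : f.2 - lam * f.1 + (e.2 - lam * e.1) =
        ((f.1 + e.1, f.2 + e.2) : ℤ × ℤ).2 - lam * ((f.1 + e.1, f.2 + e.2) : ℤ × ℤ).1 := by
        show _ = (f.2 + e.2) - lam * (f.1 + e.1)
        ring
      rw [← e1]
      exact this
    · have e1 : wd e (f.1 + e.1, f.2 + e.2) = w := by
        simp only [hw, wd]; ring
      rw [e1]
      exact hf0
  have k3 := Bas_core3 ((B : ℤ) * e.1) ((A : ℤ) * e.2) ((B : ℤ) * f.1) ((A : ℤ) * f.2) hef k1 k2
  have k4 : (B : ℤ) * e.1 * ((A : ℤ) * f.2) - (A : ℤ) * e.2 * ((B : ℤ) * f.1) = (A * B) * w := by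
    simp only [hw, wd]; ring
  have k5 : |(A * B : ℤ) * w| = (A : ℤ) * B * c := by
    rw [abs_mul, hdet, abs_of_nonneg (by positivity : (0 : ℤ) ≤ (A : ℤ) * B)]
  rw [k4, k5] at k3
  calc Bas_nn A B e * Bas_nn A B f ≤ (A : ℤ) * B * c := k3
    _ = (c : ℤ) * (A * B) := by ring

/-- **Bas** -/
theorem hBas : StBas := by
  intro c lam A B hc hA hB h2
  obtain ⟨e, f, he, hf, hdet, hef, hfAB, hprod, hgen⟩ := Bas_red hc hA hB h2
  have hc0 : (0 : ℤ) < c := by exact_mod_cast hc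
  have hA0 : (0 : ℤ) < A := by exact_mod_cast hA
  have hB0 : (0 : ℤ) < B := by exact_mod_cast hB
  have hAB0 : (0 : ℤ) < (A : ℤ) * B := mul_pos hA0 hB0
  set n1 := Bas_nn A B e with hn1
  set n2 := Bas_nn A B f with hn2
  have hn1' : 0 ≤ n1 := Bas_nn_nonneg A B e
  have hn2' : 0 ≤ n2 := Bas_nn_nonneg A B f
  have be1 : |e.1| * B ≤ n1 := Bas_le_nn1 e
  have be2 : |e.2| * A ≤ n1 := Bas_le_nn2 e
  have bf1 : |f.1| * B ≤ n2 := Bas_le_nn1 f
  have bf2 : |f.2| * A ≤ n2 := Bas_le_nn2 f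
  -- wedge with box vectors
  have hwb : ∀ P Q : ℤ × ℤ, |P.1| ≤ A → |P.2| ≤ B → |wd P Q| ≤ 2 * Bas_nn A B Q := by
    intro P Q h1 h2
    have t1 : |wd P Q| ≤ |P.1| * |Q.2| + |P.2| * |Q.1| := by
      unfold wd
      refine (abs_sub _ _).trans ?_
      rw [abs_mul, abs_mul]
    have t2 := mul_le_mul_of_nonneg_right h1 (abs_nonneg Q.2)
    have t3 := mul_le_mul_of_nonneg_right h2 (abs_nonneg Q.1)
    have t4 := Bas_le_nn1 (A := A) (B := B) Q
    have t5 := Bas_le_nn2 (A := A) (B := B) Q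
    linarith
  have hexAB : |e.1| ≤ A := by
    have : |e.1| * B ≤ A * B := be1.trans (hef.trans hfAB)
    exact le_of_mul_le_mul_right this hB0
  have heyAB : |e.2| ≤ B := by
    have : |e.2| * A ≤ B * A := by
      have := be2.trans (hef.trans hfAB)
      linarith
    exact le_of_mul_le_mul_right this hA0
  have hfxAB : |f.1| ≤ A := by
    have : |f.1| * B ≤ A * B := bf1.trans hfAB
    exact le_of_mul_le_mul_right this hB0
  have hfyAB : |f.2| ≤ B := by
    have : |f.2| * A ≤ B * A := by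
      have := bf2.trans hfAB
      linarith
    exact le_of_mul_le_mul_right this hA0
  have hcn2 : (c : ℤ) ≤ 2 * n2 := by
    rw [← hdet]
    exact hwb e f hexAB heyAB
  -- the scale
  obtain ⟨k, hk1, hk2⟩ : ∃ k : ℕ, (c : ℤ) * 2 ^ k ≤ 2 * n2 ∧ 2 * n2 < (c : ℤ) * 2 ^ (k + 1) := by
    obtain ⟨N, hN⟩ := Int.eq_ofNat_of_zero_le (by linarith : 0 ≤ 2 * n2)
    rw [hN] at hcn2 ⊢
    have hcN : c ≤ N := by exact_mod_cast hcn2
    have h0 : N / c ≠ 0 := by
      have := (Nat.one_le_div_iff (by omega : 0 < c)).mpr hcN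
      omega
    refine ⟨Nat.log 2 (N / c), ?_, ?_⟩
    · have h1 := Nat.pow_log_le_self 2 h0
      have h3 : c * 2 ^ (Nat.log 2 (N / c)) ≤ N :=
        (Nat.mul_le_mul_left c h1).trans (Nat.mul_div_le N c)
      exact_mod_cast h3
    · have h1 := Nat.lt_pow_succ_log_self (by norm_num : 1 < 2) (N / c)
      have h3 : N < c * 2 ^ (Nat.log 2 (N / c) + 1) := by
        have := (Nat.div_lt_iff_lt_mul (by omega : 0 < c)).mp h1
        rw [mul_comm] at this
        exact this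
      exact_mod_cast h3
  have hk0 : (0 : ℤ) < 2 ^ k := by positivity
  have hk2' : n2 < (c : ℤ) * 2 ^ k := by
    rw [pow_succ] at hk2
    linarith
  have hn12 : n1 * ((c : ℤ) * 2 ^ k) ≤ (c : ℤ) * (2 * (A * B)) := by
    have := mul_le_mul_of_nonneg_left hk1 hn1'
    linarith
  have hn1k : n1 * 2 ^ k ≤ 2 * (A * B) := by
    have : (c : ℤ) * (n1 * 2 ^ k) ≤ (c : ℤ) * (2 * (A * B)) := by linarith
    exact le_of_mul_le_mul_left this hc0
  refine ⟨k, e, f, he, hf, hdet, hexAB, heyAB, hfxAB, hfyAB, ?_, ?_, ?_, ?_, ?_, ?_⟩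
  · have t1 := mul_le_mul_of_nonneg_right be1 hk0.le
    have t2 : (|e.1| * 2 ^ k) * B ≤ (12 * A) * B := by nlinarith
    exact le_of_mul_le_mul_right t2 hB0
  · have t1 := mul_le_mul_of_nonneg_right be2 hk0.le
    have t2 : (|e.2| * 2 ^ k) * A ≤ (12 * B) * A := by nlinarith
    exact le_of_mul_le_mul_right t2 hA0
  · linarith
  · linarith
  · have t1 : (c : ℤ) * 2 ^ k ≤ 24 * A * B := by nlinarith
    exact_mod_cast t1
  · intro P hP
    rw [Bas_mem_La] at hP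
    obtain ⟨⟨hP1, hP2⟩, hP3⟩ := hP
    obtain ⟨m, n, hmn⟩ := hgen P hP3
    refine ⟨m, n, hmn, ?_, ?_, ?_⟩
    · have h1 : wd P f = m * wd e f := by rw [hmn]; simp only [wd]; ring
      have h3 := hwb P f hP1 hP2
      rw [h1, abs_mul, hdet] at h3
      have h4 : (c : ℤ) * |m| ≤ (c : ℤ) * 2 ^ (k + 1) := by linarith
      exact le_of_mul_le_mul_left h4 hc0
    · have h1 : wd P e = n * -wd e f := by rw [hmn]; simp only [wd]; ring
      have h3 := hwb P e hP1 hP2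
      rw [h1, abs_mul, abs_neg, hdet] at h3
      have h4 : (c : ℤ) * |n| ≤ (c : ℤ) * 2 ^ (k + 1) := by linarith
      exact le_of_mul_le_mul_left h4 hc0
    · have h1 : wd P e = n * -wd e f := by rw [hmn]; simp only [wd]; ring
      have h3 := hwb P e hP1 hP2
      rw [h1, abs_mul, abs_neg, hdet] at h3
      have h5 : |n| * ((c : ℤ) * 2 ^ k) ≤ 2 * (n1 * 2 ^ k) := by
        have := mul_le_mul_of_nonneg_right h3 hk0.le
        linarith
      nlinarith

end Pool.Agent.Helper89.HX
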