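import Pool.Agent.Helper89.HX.St
import Pool.Agent.Helper56.SW.Basic

set_option autoImplicit false

namespace Pool.Agent.Helper89.HX

open Finset Pool.Agent.Helper56.SW

theorem hCnt (hBas : StBas) : StCnt := by
  intro c lam A B hc hA hB hT
  obtain ⟨k, e, f, h⟩ := hBas c lam A B hc hA hB hT
  classical
  have hpos : 0 < c * 2 ^ k := by positivity
  set Q : ℕ := 24 * A * B / (c * 2 ^ k) with hQ
  have h1 : (La c lam A B).card ≤ (I (2 ^ (k + 1)) ×ˢ I Q).card := by
    have hsub : La c lam A B ⊆ (I (2 ^ (k + 1)) ×ˢ I Q).image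
        (fun q => (q.1 * e.1 + q.2 * f.1, q.1 * e.2 + q.2 * f.2)) := by
      intro P hP
      obtain ⟨m, n, hPe, hm, -, hn⟩ := h.comb P hP
      rw [mem_image]
      refine ⟨(m, n), ?_, hPe.symm⟩
      rw [mem_product, mem_I, mem_I']
      refine ⟨by push_cast; exact hm, ?_⟩
      rw [hQ, Nat.le_div_iff_mul_le hpos]
      have h3 : ((n.natAbs * (c * 2 ^ k) : ℕ) : ℤ) ≤ ((24 * A * B : ℕ) : ℤ) := by
        push_cast
        exact hn
      exact_mod_cast h3
    exact (card_le_card hsub).trans card_image_le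
  rw [card_product, card_I, card_I] at h1
  have hc0 : (0 : ℝ) < c := by exact_mod_cast hc
  have h2k : (0 : ℝ) < 2 ^ k := by positivity
  have h2k1 : (1 : ℝ) ≤ 2 ^ k := one_le_pow₀ (by norm_num)
  have h2 : (Q : ℝ) ≤ 24 * A * B / (c * 2 ^ k) := by
    have := @Nat.cast_div_le ℝ _ _ _ (24 * A * B) (c * 2 ^ k)
    rw [hQ]
    refine this.trans (le_of_eq ?_)
    push_cast
    ring
  have h3 : (1 : ℝ) ≤ 24 * A * B / (c * 2 ^ k) := by
    rw [le_div_iff₀ (by positivity), one_mul]
    have := h.le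
    exact_mod_cast this
  have h4 : ((La c lam A B).card : ℝ) ≤ (2 * 2 ^ (k + 1) + 1) * (2 * Q + 1) := by
    exact_mod_cast h1
  calc ((La c lam A B).card : ℝ) ≤ (2 * 2 ^ (k + 1) + 1) * (2 * Q + 1) := h4
    _ ≤ (5 * 2 ^ k) * (3 * (24 * A * B / (c * 2 ^ k))) := by
        apply mul_le_mul _ _ (by positivity) (by positivity)
        · rw [pow_succ]; linarith
        · linarith
    _ = 360 * A * B / c := by
        field_simp
        ring

end Pool.Agent.Helper89.HX
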