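import Pool.Agent.Helper89.HX.St
import Pool.Agent.Helper56.SW.M_AP
import Pool.Agent.Helper56.SW.M_Fac

/-!
# HX, module D: the case `c ∣ 1 + β x₂ z₁`
-/

set_option autoImplicit false

namespace Pool.Agent.Helper89.HX

open Finset Pool.Agent.Helper56.SW

theorem D_unit {c : ℕ} (hc : c.Prime) {x y : ℤ} (h : (c : ℤ) ∣ x * y) (hx0 : x ≠ 0)
    (hx : |x| < c) (hy : |y| < c) : y = 0 := by
  rcases (Nat.prime_iff_prime_int.mp hc).dvd_or_dvd h with h | h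
  · exact absurd (Int.eq_zero_of_abs_lt_dvd h hx) hx0
  · exact Int.eq_zero_of_abs_lt_dvd h hy

theorem D_shape {c : ℕ} {β : ℤ} {A B : ℕ} (hc : c.Prime) (hAB : A ≤ B) (hB : 4 * B < c)
    (x₁ z₁ x₂ z₂ x₃ z₃ : ℤ) (hx₁ : |x₁| ≤ A) (hz₁ : |z₁| ≤ B) (hx₂ : |x₂| ≤ A) (hz₂ : |z₂| ≤ B)
    (h12 : (c : ℤ) ∣ x₁ * z₂ - z₁ * x₂) (h13 : (c : ℤ) ∣ x₁ * z₃ - z₁ * x₃)
    (hX : (c : ℤ) ∣ x₁ + x₂ + x₃ + β * x₁ * x₂ * z₃) (hx0 : x₁ ≠ 0)
    (hD : (c : ℤ) ∣ 1 + β * x₂ * z₁) :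
    x₂ = -x₁ ∧ z₂ = -z₁ ∧ (c : ℤ) ∣ β * (x₁ * z₁) - 1 := by
  have hAB' : (A : ℤ) ≤ B := by exact_mod_cast hAB
  have hB' : 4 * (B : ℤ) < c := by exact_mod_cast hB
  have hA0 : (0 : ℤ) ≤ A := by positivity
  rw [abs_le] at hx₁ hz₁ hx₂ hz₂
  have h1 : (c : ℤ) ∣ x₁ + x₂ := by
    have e1 : (c : ℤ) ∣ β * x₂ * (x₁ * z₃ - z₁ * x₃) := Dvd.dvd.mul_left h13 _
    have e2 : (c : ℤ) ∣ (1 + β * x₂ * z₁) * x₃ := Dvd.dvd.mul_right hD _
    have e3 := (dvd_sub (dvd_sub hX e1) e2)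
    have e4 : x₁ + x₂ + x₃ + β * x₁ * x₂ * z₃ - β * x₂ * (x₁ * z₃ - z₁ * x₃) -
        (1 + β * x₂ * z₁) * x₃ = x₁ + x₂ := by ring
    rwa [e4] at e3
  have h2 : x₁ + x₂ = 0 := by
    apply Int.eq_zero_of_abs_lt_dvd h1
    rw [abs_lt]
    constructor <;> linarith
  have h3 : x₂ = -x₁ := by linarith
  have h4 : (c : ℤ) ∣ x₁ * (z₁ + z₂) := by
    have : x₁ * (z₁ + z₂) = x₁ * z₂ - z₁ * x₂ := by rw [h3]; ring
    rw [this]; exact h12
  have h5 : z₁ + z₂ = 0 := by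
    apply D_unit hc h4 hx0
    · rw [abs_lt]
      constructor <;> linarith
    · rw [abs_lt]
      constructor <;> linarith
  refine ⟨h3, by linarith, ?_⟩
  have : β * (x₁ * z₁) - 1 = -(1 + β * x₂ * z₁) := by rw [h3]; ring
  rw [this, dvd_neg]
  exact hD

theorem hD : StD := by
  classical
  intro c β A B D hc hβ hA hAB hB hτ
  have hAB' : (A : ℤ) ≤ B := by exact_mod_cast hAB
  have hB' : 4 * (B : ℤ) < c := by exact_mod_cast hB
  have hc0 : 1 ≤ c := hc.one_lt.le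
  have hcR : (0 : ℝ) < c := by exact_mod_cast hc.pos
  let S : Finset ℤ := (I (A * B)).filter fun j => j ≠ 0 ∧ (c : ℤ) ∣ β * j - 1
  have hD1 : 1 ≤ D := by
    have h := hτ 1 le_rfl (Nat.mul_pos hA (le_trans hA hAB))
    have h1 : τ 1 = 1 := by simp [τ]
    linarith
  have hS1 : (S.card : ℝ) ≤ 2 * ((A * B : ℕ) : ℝ) / c + 1 := by
    apply stAP (A * B) c S hc0 (filter_subset _ _)
    intro x hx y hy
    rw [mem_filter] at hx hy
    have h1 : (c : ℤ) ∣ β * (x - y) := by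
      have := dvd_sub hx.2.2 hy.2.2
      have e : β * x - 1 - (β * y - 1) = β * (x - y) := by ring
      rwa [e] at this
    rcases (Nat.prime_iff_prime_int.mp hc).dvd_or_dvd h1 with h | h
    · exact absurd h hβ
    · exact h
  have hfac := (stFac A B D S (by
    intro j hj
    rw [mem_filter, mem_I] at hj
    refine ⟨hj.2.1, hτ _ ?_ ?_⟩
    · exact Int.natAbs_pos.mpr hj.2.1
    · have := hj.1
      have h2 : (j.natAbs : ℤ) ≤ (A * B : ℕ) := by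
        rw [Int.natCast_natAbs]; exact this
      exact_mod_cast h2)).1
  let Q : Finset (ℤ × ℤ) := ((I A) ×ˢ (I B)).filter fun p => p.1 * p.2 ∈ S
  have hinj : (SolD c β A B).card ≤ (Q ×ˢ (I A)).card := by
    apply card_le_card_of_injOn (fun T : Tp => (T.1, T.2.2.1))
    · rintro ⟨⟨x₁, z₁⟩, ⟨x₂, z₂⟩, ⟨x₃, z₃⟩⟩ hT
      have hT' := mem_coe.mp hT
      unfold SolD Sol at hT'
      rw [mem_filter, mem_filter, mem_product, mem_product] at hT'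
      obtain ⟨⟨⟨m1, m2, m3⟩, hR⟩, hN, hDg⟩ := hT'
      unfold bo at m1 m2 m3
      rw [mem_product, mem_I, mem_I] at m1 m2 m3
      obtain ⟨h12, h13, h23, hX, hZ'⟩ := hR
      obtain ⟨n1, n2, n3, n4, n5, n6⟩ := hN
      obtain ⟨s1, s2, s3⟩ := D_shape hc hAB hB x₁ z₁ x₂ z₂ x₃ z₃ m1.1 m1.2 m2.1 m2.2 h12 h13 hX
        n1 hDg
      rw [mem_coe, mem_product, mem_filter, mem_product, mem_I, mem_I, mem_I, mem_filter, mem_I]
      refine ⟨⟨⟨m1.1, m1.2⟩, ?_, mul_ne_zero n1 n2, s3⟩, m3.1⟩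
      rw [abs_mul]
      push_cast
      exact mul_le_mul m1.1 m1.2 (abs_nonneg _) (by positivity)
    · rintro ⟨⟨x₁, z₁⟩, ⟨x₂, z₂⟩, ⟨x₃, z₃⟩⟩ hT ⟨⟨y₁, w₁⟩, ⟨y₂, w₂⟩, ⟨y₃, w₃⟩⟩ hU heq
      have hT' := mem_coe.mp hT
      have hU' := mem_coe.mp hU
      unfold SolD Sol at hT' hU'
      rw [mem_filter, mem_filter, mem_product, mem_product] at hT' hU'
      obtain ⟨⟨⟨m1, m2, m3⟩, hR⟩, hN, hDg⟩ := hT'
      obtain ⟨⟨⟨p1, p2, p3⟩, hR'⟩, hN', hDg'⟩ := hU'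
      unfold bo at m1 m2 m3 p1 p2 p3
      rw [mem_product, mem_I, mem_I] at m1 m2 m3 p1 p2 p3
      obtain ⟨h12, h13, h23, hX, hZ'⟩ := hR
      obtain ⟨k12, k13, k23, kX, kZ'⟩ := hR'
      obtain ⟨n1, n2, n3, n4, n5, n6⟩ := hN
      obtain ⟨q1, q2, q3, q4, q5, q6⟩ := hN'
      simp only [Prod.mk.injEq] at heq
      obtain ⟨⟨e1, e2⟩, e3⟩ := heq
      subst e1 e2 e3
      obtain ⟨s1, s2, s3⟩ := D_shape hc hAB hB x₁ z₁ x₂ z₂ x₃ z₃ m1.1 m1.2 m2.1 m2.2 h12 h13 hX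
        n1 hDg
      obtain ⟨t1, t2, t3⟩ := D_shape hc hAB hB x₁ z₁ y₂ w₂ x₃ w₃ m1.1 m1.2 p2.1 p2.2 k12 k13 kX
        n1 hDg'
      have h1 : (c : ℤ) ∣ x₁ * (z₃ - w₃) := by
        have h13' : (c : ℤ) ∣ x₁ * z₃ - z₁ * x₃ := h13
        have k13' : (c : ℤ) ∣ x₁ * w₃ - z₁ * x₃ := k13
        have := dvd_sub h13' k13'
        have e : x₁ * z₃ - z₁ * x₃ - (x₁ * w₃ - z₁ * x₃) = x₁ * (z₃ - w₃) := by ring
        rwa [e] at this
      have h2 : z₃ - w₃ = 0 := by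
        have m11 := m1.1
        have m32 := m3.2
        have p32 := p3.2
        simp only at m11 m32 p32
        rw [abs_le] at m11 m32 p32
        apply D_unit hc h1 n1
        · rw [abs_lt]
          constructor <;> linarith
        · rw [abs_lt]
          constructor <;> linarith
      have h3 : z₃ = w₃ := by linarith
      rw [s1, s2, t1, t2, h3]
  rw [card_product, card_I] at hinj
  have h1 : ((SolD c β A B).card : ℝ) ≤ (Q.card : ℝ) * (2 * A + 1) := by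
    have : ((SolD c β A B).card : ℝ) ≤ ((Q.card * (2 * A + 1) : ℕ) : ℝ) := by exact_mod_cast hinj
    push_cast at this
    exact this
  have h2 : (Q.card : ℝ) ≤ S.card * (2 * D) := hfac
  have h3 : (S.card : ℝ) * (2 * D) ≤ (2 * ((A * B : ℕ) : ℝ) / c + 1) * (2 * D) :=
    mul_le_mul_of_nonneg_right hS1 (by linarith)
  have hA1 : (0 : ℝ) ≤ 2 * A + 1 := by positivity
  calc ((SolD c β A B).card : ℝ) ≤ (Q.card : ℝ) * (2 * A + 1) := h1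
    _ ≤ ((2 * ((A * B : ℕ) : ℝ) / c + 1) * (2 * D)) * (2 * A + 1) :=
        mul_le_mul_of_nonneg_right (h2.trans h3) hA1
    _ = 2 * D * (2 * A * B / c + 1) * (2 * A + 1) := by push_cast; ring

end Pool.Agent.Helper89.HX
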