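import Pool.Agent.Helper89.HX.St
import Pool.Agent.Helper56.SW.Final

/-! # HX: the final statement with its consequences (MP_e188f1_nt) -/

set_option autoImplicit false

namespace Pool.Agent.Helper89.HX

open Finset Pool.Agent.Helper56.SW

theorem Fin1_main (c H₁ H₂ : ℝ) (hc : 1 ≤ c) (h1 : 1 ≤ H₁) (h12 : H₁ ≤ H₂)
    (h : H₁ ^ 5 * H₂ ^ 3 ≤ c ^ 5) :
    √(H₂ / H₁) * (√c * ((H₁ * H₂) ^ 3 / c ^ 3)) ≤ H₂ ^ 2 := by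
  have hH1 : 0 < H₁ := by linarith
  have hH2 : 0 < H₂ := by linarith
  have hc0 : 0 < c := by linarith
  refine le_of_sq_le_sq ?_ (by positivity)
  rw [mul_pow, mul_pow, Real.sq_sqrt (by positivity), Real.sq_sqrt hc0.le]
  have e : H₂ / H₁ * (c * ((H₁ * H₂) ^ 3 / c ^ 3) ^ 2) = H₁ ^ 5 * H₂ ^ 3 * H₂ ^ 4 / c ^ 5 := by
    field_simp
  rw [e, div_le_iff₀ (by positivity)]
  calc H₁ ^ 5 * H₂ ^ 3 * H₂ ^ 4 ≤ c ^ 5 * H₂ ^ 4 := mul_le_mul_of_nonneg_right h (by positivity)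
    _ = (H₂ ^ 2) ^ 2 * c ^ 5 := by ring

theorem Fin1_rng (c H₁ H₂ : ℝ) (hc : 1 ≤ c) (h1 : 1 ≤ H₁) (h12 : H₁ ≤ H₂)
    (h : H₁ ^ 7 ≤ c ^ 4) : H₁ ^ 5 * H₂ ^ 3 ≤ c ^ 5 ∨ H₁ ^ 3 ≤ c * H₂ := by
  have hH1 : 0 < H₁ := by linarith
  have hH2 : 0 < H₂ := by linarith
  have hc0 : 0 < c := by linarith
  rcases le_or_gt (H₂ ^ 7) (c ^ 5) with h2 | h2
  · left
    refine le_of_pow_le_pow_left₀ (n := 7) (by norm_num) (by positivity) ?_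
    calc (H₁ ^ 5 * H₂ ^ 3) ^ 7 = (H₁ ^ 7) ^ 5 * (H₂ ^ 7) ^ 3 := by ring
      _ ≤ (c ^ 4) ^ 5 * (c ^ 5) ^ 3 := by gcongr
      _ = (c ^ 5) ^ 7 := by ring
  · right
    refine le_of_pow_le_pow_left₀ (n := 7) (by norm_num) (by positivity) ?_
    calc (H₁ ^ 3) ^ 7 = (H₁ ^ 7) ^ 3 := by ring
      _ ≤ (c ^ 4) ^ 3 := by gcongr
      _ = c ^ 7 * c ^ 5 := by ring
      _ ≤ c ^ 7 * H₂ ^ 7 := by gcongr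
      _ = (c * H₂) ^ 7 := by ring

/-- Six letters modulo a prime, all units. -/
theorem fin1 (hFinA : StFinA) (K ε : ℝ) (hK : 1 ≤ K) (hε : 0 < ε) :
    ∃ C : ℝ, 0 < C ∧ ∀ (c : ℕ) (a₁ a₂ : (ZMod c)ˣ) (H₁ H₂ : ℝ), c.Prime → 1 ≤ H₁ → H₁ ≤ H₂ →
      H₂ ≤ K * c →
      ((Nq 6 c a₁ a₂ H₁ H₂ : ℝ) ≤ C * (c : ℝ) ^ ε *
        (H₂ ^ 2 + √(H₂ / H₁) * (√(c : ℝ) * ((H₁ * H₂) ^ 3 / (c : ℝ) ^ 3)))) ∧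
      ((H₁ ^ 5 * H₂ ^ 3 ≤ (c : ℝ) ^ 5 ∨ H₁ ^ 7 ≤ (c : ℝ) ^ 4) →
        (Nq 6 c a₁ a₂ H₁ H₂ : ℝ) ≤ C * (c : ℝ) ^ ε *
          (H₂ ^ 2 + (H₁ * H₂) ^ 3 / (c : ℝ) ^ 3)) := by
  obtain ⟨C₁, hC₁, h₁⟩ := hFinA K ε hK hε
  obtain ⟨C₂, hC₂, h₂⟩ := fn_Q1 3 K ε 1 (by norm_num) hK hε one_pos
  refine ⟨2 * C₁ + C₂, by positivity, ?_⟩
  intro c a₁ a₂ H₁ H₂ hp h1 h12 h2K
  have hc : (1 : ℝ) ≤ c := by exact_mod_cast hp.one_lt.le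
  have hH1 : 0 < H₁ := by linarith
  have hH2 : 0 < H₂ := by linarith
  have hc0 : (0 : ℝ) < c := by linarith
  have hcε : 0 ≤ (c : ℝ) ^ ε := by positivity
  have hA := h₁ c a₁ a₂ H₁ H₂ hp h1 h12 h2K
  have key : H₁ ^ 5 * H₂ ^ 3 ≤ (c : ℝ) ^ 5 →
      (Nq 6 c a₁ a₂ H₁ H₂ : ℝ) ≤ (2 * C₁ + C₂) * (c : ℝ) ^ ε *
        (H₂ ^ 2 + (H₁ * H₂) ^ 3 / (c : ℝ) ^ 3) := by
    intro h
    refine hA.trans ?_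
    have h3 := Fin1_main c H₁ H₂ hc h1 h12 h
    have h4 : 0 ≤ (H₁ * H₂) ^ 3 / (c : ℝ) ^ 3 := by positivity
    have h5 : 0 ≤ H₂ ^ 2 := by positivity
    calc C₁ * (c : ℝ) ^ ε *
          (H₂ ^ 2 + √(H₂ / H₁) * (√(c : ℝ) * ((H₁ * H₂) ^ 3 / (c : ℝ) ^ 3)))
        ≤ C₁ * (c : ℝ) ^ ε * (H₂ ^ 2 + H₂ ^ 2) := by gcongr
      _ = 2 * C₁ * (c : ℝ) ^ ε * H₂ ^ 2 := by ring
      _ ≤ _ := by gcongr <;> linarith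
  refine ⟨hA.trans ?_, ?_⟩
  · gcongr
    linarith
  · rintro (h | h)
    · exact key h
    · rcases Fin1_rng c H₁ H₂ hc h1 h12 h with h' | h'
      · exact key h'
      · have h6 := (h₂ c a₁ a₂ H₁ H₂ hp.one_lt.le h1 h12 h2K).2
          (Or.inr ⟨by gcongr, h'⟩)
        refine h6.trans ?_
        gcongr
        linarith

end Pool.Agent.Helper89.HX
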