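import Pool.Agent.Helper89.HX.St
import Pool.Agent.Helper56.SW.Final

set_option autoImplicit false

namespace Pool.Agent.Helper89.HX

open Finset Pool.Agent.Helper56.SW

lemma FinA_gamma (c : ℕ) (hc : c.Prime) : ((Γ c).card : ℝ) ≤ 4 := by
  have h := stSqrt c hc.one_le
  have h2 : τ c = 2 := by
    unfold τ
    rw [Nat.Prime.divisors hc, Finset.card_pair hc.one_lt.ne]
    norm_num
  rw [h2] at h
  linarith

lemma FinA_log (ε : ℝ) (hε : 0 < ε) : ∃ C : ℝ, 0 < C ∧ ∀ c : ℕ, 1 ≤ c →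
    ((Nat.log 2 c : ℝ) + 1) ≤ C * (c : ℝ) ^ ε := by
  have hl : 0 < Real.log 2 := Real.log_pos (by norm_num)
  refine ⟨1 + 1 / (ε * Real.log 2), by positivity, ?_⟩
  intro c hc
  have hc' : (1 : ℝ) ≤ c := by exact_mod_cast hc
  have h1 : (Nat.log 2 c : ℝ) ≤ Real.logb 2 c := by
    have := Real.natLog_le_logb c 2
    exact_mod_cast this
  have h2 : Real.log c ≤ (c : ℝ) ^ ε / ε := Real.log_le_rpow_div (by linarith) hε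
  have h3 : (1 : ℝ) ≤ (c : ℝ) ^ ε := Real.one_le_rpow hc' hε.le
  have h4 : Real.logb 2 c ≤ (c : ℝ) ^ ε / ε / Real.log 2 := by
    rw [Real.logb]
    exact div_le_div_of_nonneg_right h2 hl.le
  have h5 : (c : ℝ) ^ ε / ε / Real.log 2 = 1 / (ε * Real.log 2) * (c : ℝ) ^ ε := by
    field_simp
  rw [add_mul, one_mul]
  linarith

lemma FinA_div (ε : ℝ) (hε : 0 < ε) : ∃ C : ℝ, 1 ≤ C ∧ ∀ c : ℕ, 1 ≤ c → ∀ j : ℕ, 1 ≤ j →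
    j ≤ c ^ 3 → τ j ≤ C * (c : ℝ) ^ ε := by
  obtain ⟨C, hC, h⟩ := fn_div (ε / 3) (by positivity)
  refine ⟨C, hC, ?_⟩
  intro c hc j hj hjc
  have hc' : (1 : ℝ) ≤ c := by exact_mod_cast hc
  refine (h j hj).trans ?_
  refine mul_le_mul_of_nonneg_left ?_ (by linarith)
  have h1 : (j : ℝ) ≤ (c : ℝ) ^ (3 : ℝ) := by
    have : (j : ℝ) ≤ ((c ^ 3 : ℕ) : ℝ) := by exact_mod_cast hjc
    rw [show (3 : ℝ) = ((3 : ℕ) : ℝ) by norm_num, Real.rpow_natCast]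
    exact_mod_cast this
  calc (j : ℝ) ^ (ε / 3) ≤ ((c : ℝ) ^ (3 : ℝ)) ^ (ε / 3) :=
        Real.rpow_le_rpow (Nat.cast_nonneg _) h1 (by positivity)
    _ = (c : ℝ) ^ ε := by
        rw [← Real.rpow_mul (by linarith)]
        congr 1
        ring

lemma FinA_floor (H : ℝ) (h : 1 ≤ H) : H ≤ 2 * (⌊H⌋₊ : ℝ) := by
  have h1 : (1 : ℝ) ≤ (⌊H⌋₊ : ℝ) := by
    have : 1 ≤ ⌊H⌋₊ := Nat.le_floor (by simpa using h)
    exact_mod_cast this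
  have h2 := Nat.lt_floor_add_one H
  linarith

/-- the comparison of the two main terms -/
lemma FinA_cmp (c : ℕ) (A B : ℕ) (H₁ H₂ : ℝ) (hc : 1 ≤ c) (h1 : 1 ≤ H₁) (h12 : H₁ ≤ H₂)
    (hA : A = ⌊H₁⌋₊) (hB : B = ⌊H₂⌋₊) :
    (((2 * B : ℕ) : ℝ)) ^ 2 + √(((2 * B : ℕ) : ℝ) / ((2 * A : ℕ) : ℝ)) *
      ((((2 * A : ℕ) : ℝ) * ((2 * B : ℕ) : ℝ)) ^ 3 / ((c : ℝ) ^ 2 * √(c : ℝ))) ≤
    128 * (H₂ ^ 2 + √(H₂ / H₁) * (√(c : ℝ) * ((H₁ * H₂) ^ 3 / (c : ℝ) ^ 3))) := by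
  have hc' : (1 : ℝ) ≤ c := by exact_mod_cast hc
  have hc0 : (0 : ℝ) < c := by linarith
  have hH1 : 0 < H₁ := by linarith
  have hH2 : 0 < H₂ := by linarith
  have a1 : (A : ℝ) ≤ H₁ := by rw [hA]; exact Nat.floor_le hH1.le
  have b1 : (B : ℝ) ≤ H₂ := by rw [hB]; exact Nat.floor_le hH2.le
  have a2 : H₁ ≤ 2 * (A : ℝ) := by rw [hA]; exact FinA_floor H₁ h1
  have hA0 : (0 : ℝ) < A := by linarith
  have hB0 : (0 : ℝ) ≤ B := Nat.cast_nonneg _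
  push_cast
  have s0 : 0 < √(c : ℝ) := Real.sqrt_pos.2 hc0
  have s2 : √(c : ℝ) * √(c : ℝ) = c := Real.mul_self_sqrt hc0.le
  have e1 : √(2 * (B : ℝ) / (2 * A)) ≤ 2 * √(H₂ / H₁) := by
    have : √(2 * (B : ℝ) / (2 * A)) ≤ √(4 * (H₂ / H₁)) := by
      apply Real.sqrt_le_sqrt
      rw [mul_div_mul_left _ _ (two_ne_zero), ← mul_div_assoc,
        div_le_div_iff₀ hA0 hH1]
      nlinarith
    refine this.trans (le_of_eq ?_)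
    rw [Real.sqrt_mul (by norm_num), show (4 : ℝ) = 2 ^ 2 by norm_num, Real.sqrt_sq (by norm_num)]
  have e2 : (2 * (A : ℝ) * (2 * B)) ^ 3 / ((c : ℝ) ^ 2 * √(c : ℝ)) ≤
      64 * (√(c : ℝ) * ((H₁ * H₂) ^ 3 / (c : ℝ) ^ 3)) := by
    have e3 : (64 : ℝ) * (√(c : ℝ) * ((H₁ * H₂) ^ 3 / (c : ℝ) ^ 3)) =
        64 * (H₁ * H₂) ^ 3 / ((c : ℝ) ^ 2 * √(c : ℝ)) := by
      rw [eq_div_iff (by positivity)]
      have : 64 * (√(c : ℝ) * ((H₁ * H₂) ^ 3 / (c : ℝ) ^ 3)) * ((c : ℝ) ^ 2 * √(c : ℝ)) =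
          64 * ((√(c : ℝ) * √(c : ℝ)) * (c : ℝ) ^ 2 * ((H₁ * H₂) ^ 3 / (c : ℝ) ^ 3)) := by ring
      rw [this, s2]
      field_simp
    rw [e3]
    refine div_le_div_of_nonneg_right ?_ (by positivity)
    have e4 : (2 * (A : ℝ) * (2 * B)) ^ 3 = 64 * (A * B) ^ 3 := by ring
    rw [e4]
    refine mul_le_mul_of_nonneg_left ?_ (by norm_num)
    exact pow_le_pow_left₀ (by positivity) (mul_le_mul a1 b1 hB0 hH1.le) 3
  have e5 : (2 * (B : ℝ)) ^ 2 ≤ 4 * H₂ ^ 2 := by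
    have : (B : ℝ) ^ 2 ≤ H₂ ^ 2 := pow_le_pow_left₀ hB0 b1 2
    nlinarith
  have e6 : √(2 * (B : ℝ) / (2 * A)) * ((2 * (A : ℝ) * (2 * B)) ^ 3 / ((c : ℝ) ^ 2 * √(c : ℝ))) ≤
      (2 * √(H₂ / H₁)) * (64 * (√(c : ℝ) * ((H₁ * H₂) ^ 3 / (c : ℝ) ^ 3))) :=
    mul_le_mul e1 e2 (by positivity) (by positivity)
  have e7 : 0 ≤ H₂ ^ 2 := by positivity
  have e8 : (2 * √(H₂ / H₁)) * (64 * (√(c : ℝ) * ((H₁ * H₂) ^ 3 / (c : ℝ) ^ 3))) =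
      128 * (√(H₂ / H₁) * (√(c : ℝ) * ((H₁ * H₂) ^ 3 / (c : ℝ) ^ 3))) := by ring
  rw [e8] at e6
  linarith

theorem hFinA (hSol : StSol) (hRed : StRed) : StFinA := by
  intro K ε hK hε
  obtain ⟨C₁, hC₁, hQ⟩ := fn_Q1 3 K ε (1 / 32) (by norm_num) hK hε (by norm_num)
  obtain ⟨C₂, hC₂, hD⟩ := FinA_div (ε / 8) (by positivity)
  obtain ⟨C₃, hC₃, hL⟩ := FinA_log (ε / 4) (by positivity)
  refine ⟨C₁ + 256 * 10 ^ 12 * 128 * (C₃ * C₂ ^ 2), by positivity, ?_⟩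
  intro c a₁ a₂ H₁ H₂ hc h1 h12 h2K
  have hc1 : 1 ≤ c := hc.one_le
  have hc' : (1 : ℝ) ≤ c := by exact_mod_cast hc1
  have hc0 : (0 : ℝ) < c := by linarith
  have hH1 : 0 < H₁ := by linarith
  have hH2 : 0 < H₂ := by linarith
  set X := H₂ ^ 2 + √(H₂ / H₁) * (√(c : ℝ) * ((H₁ * H₂) ^ 3 / (c : ℝ) ^ 3)) with hX
  have hX0 : 0 ≤ X := by positivity
  have hce : (0 : ℝ) < (c : ℝ) ^ ε := by positivity
  rcases le_or_gt ((1 / 32 : ℝ) * c) H₂ with hbig | hsmall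
  · have h := (hQ c a₁ a₂ H₁ H₂ hc1 h1 h12 h2K).2 (Or.inl hbig)
    have h' : (Nq 6 c a₁ a₂ H₁ H₂ : ℝ) ≤ C₁ * (c : ℝ) ^ ε *
        (H₂ ^ 2 + (H₁ * H₂) ^ 3 / (c : ℝ) ^ 3) := h
    refine h'.trans ?_
    have s1 : 1 ≤ √(H₂ / H₁) := by
      rw [Real.one_le_sqrt, one_le_div hH1]
      exact h12
    have s2 : 1 ≤ √(c : ℝ) := by
      rw [Real.one_le_sqrt]
      exact hc'
    have hY0 : 0 ≤ (H₁ * H₂) ^ 3 / (c : ℝ) ^ 3 := by positivity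
    have s3 : (H₁ * H₂) ^ 3 / (c : ℝ) ^ 3 ≤
        √(H₂ / H₁) * (√(c : ℝ) * ((H₁ * H₂) ^ 3 / (c : ℝ) ^ 3)) := by
      have t1 : (H₁ * H₂) ^ 3 / (c : ℝ) ^ 3 ≤ √(c : ℝ) * ((H₁ * H₂) ^ 3 / (c : ℝ) ^ 3) :=
        le_mul_of_one_le_left hY0 s2
      exact t1.trans (le_mul_of_one_le_left (by positivity) s1)
    have s4 : H₂ ^ 2 + (H₁ * H₂) ^ 3 / (c : ℝ) ^ 3 ≤ X := by
      rw [hX]
      linarith
    have s5 : C₁ * (c : ℝ) ^ ε * (H₂ ^ 2 + (H₁ * H₂) ^ 3 / (c : ℝ) ^ 3) ≤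
        C₁ * (c : ℝ) ^ ε * X := mul_le_mul_of_nonneg_left s4 (by positivity)
    refine s5.trans ?_
    have s6 : 0 ≤ 256 * 10 ^ 12 * 128 * (C₃ * C₂ ^ 2) * (c : ℝ) ^ ε * X := by positivity
    have s7 : (C₁ + 256 * 10 ^ 12 * 128 * (C₃ * C₂ ^ 2)) * (c : ℝ) ^ ε * X =
        C₁ * (c : ℝ) ^ ε * X + 256 * 10 ^ 12 * 128 * (C₃ * C₂ ^ 2) * (c : ℝ) ^ ε * X := by ring
    rw [s7]
    linarith
  · obtain ⟨a, b, ha, hb, hN⟩ := stTr 3 c a₁ a₂ H₁ H₂ hc1 h1 h12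
    have hN' : Nq 6 c a₁ a₂ H₁ H₂ = N c a b 3 ⌊H₁⌋₊ ⌊H₂⌋₊ := hN
    rw [hN']
    obtain ⟨A, hA⟩ : ∃ A : ℕ, A = ⌊H₁⌋₊ := ⟨_, rfl⟩
    obtain ⟨B, hB⟩ : ∃ B : ℕ, B = ⌊H₂⌋₊ := ⟨_, rfl⟩
    rw [← hA, ← hB]
    have hA1 : 1 ≤ A := by
      rw [hA]
      exact Nat.le_floor (by simpa using h1)
    have hAB : A ≤ B := by
      rw [hA, hB]
      exact Nat.floor_le_floor h12
    have b1 : (B : ℝ) ≤ H₂ := by rw [hB]; exact Nat.floor_le hH2.le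
    have hred := hRed c a b A B hc1 ha hb
    have hβ : ¬ (c : ℤ) ∣ a * b := by
      intro hdiv
      have hco : IsCoprime (a * b) (c : ℤ) := IsCoprime.mul_left ha hb
      have hu : IsUnit (c : ℤ) := hco.isUnit_of_dvd' hdiv dvd_rfl
      have : (c : ℤ).natAbs = 1 := Int.isUnit_iff_natAbs_eq.1 hu
      have h3 : c = 1 := by simpa using this
      exact hc.one_lt.ne' h3
    have h8 : 4 * (2 * B) < c := by
      have : (4 * (2 * B) : ℝ) < c := by linarith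
      exact_mod_cast this
    have hsol := hSol c (a * b) (2 * A) (2 * B) (C₂ * (c : ℝ) ^ (ε / 8)) hc hβ (by omega)
      (by omega) h8 (fun j hj hjc => hD c hc1 j hj hjc)
    have hcmp := FinA_cmp c A B H₁ H₂ hc1 h1 h12 hA hB
    rw [← hX] at hcmp
    have hlog := hL c hc1
    have hg := FinA_gamma c hc
    have d1 : (C₂ * (c : ℝ) ^ (ε / 8)) ^ 2 = C₂ ^ 2 * (c : ℝ) ^ (ε / 4) := by
      rw [mul_pow, ← Real.rpow_natCast ((c : ℝ) ^ (ε / 8)) 2, ← Real.rpow_mul hc0.le]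
      congr 2
      push_cast
      ring
    rw [d1] at hsol
    have d2 : (c : ℝ) ^ (ε / 4) * (c : ℝ) ^ (ε / 4) ≤ (c : ℝ) ^ ε := by
      rw [← Real.rpow_add hc0]
      exact Real.rpow_le_rpow_of_exponent_le hc' (by linarith)
    have d3 : (N c a b 3 A B : ℝ) ≤ 64 * ((Γ c).card : ℝ) *
        ((Sol c (a * b) (2 * A) (2 * B)).card : ℝ) := by exact_mod_cast hred
    have hS0 : (0 : ℝ) ≤ ((Sol c (a * b) (2 * A) (2 * B)).card : ℝ) := Nat.cast_nonneg _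
    have d4 : (N c a b 3 A B : ℝ) ≤ 256 * ((Sol c (a * b) (2 * A) (2 * B)).card : ℝ) := by
      refine d3.trans ?_
      refine mul_le_mul_of_nonneg_right ?_ hS0
      linarith
    have d5 : ((Sol c (a * b) (2 * A) (2 * B)).card : ℝ) ≤
        10 ^ 12 * (C₃ * (c : ℝ) ^ (ε / 4)) * (C₂ ^ 2 * (c : ℝ) ^ (ε / 4)) * (128 * X) := by
      refine hsol.trans ?_
      refine mul_le_mul ?_ hcmp (by positivity) (by positivity)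
      refine mul_le_mul_of_nonneg_right ?_ (by positivity)
      exact mul_le_mul_of_nonneg_left hlog (by norm_num)
    have d6 : 10 ^ 12 * (C₃ * (c : ℝ) ^ (ε / 4)) * (C₂ ^ 2 * (c : ℝ) ^ (ε / 4)) * (128 * X) =
        10 ^ 12 * 128 * (C₃ * C₂ ^ 2) * ((c : ℝ) ^ (ε / 4) * (c : ℝ) ^ (ε / 4)) * X := by ring
    have d7 : 10 ^ 12 * 128 * (C₃ * C₂ ^ 2) * ((c : ℝ) ^ (ε / 4) * (c : ℝ) ^ (ε / 4)) * X ≤
        10 ^ 12 * 128 * (C₃ * C₂ ^ 2) * (c : ℝ) ^ ε * X := by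
      refine mul_le_mul_of_nonneg_right ?_ hX0
      exact mul_le_mul_of_nonneg_left d2 (by positivity)
    have d8 : 0 ≤ C₁ * (c : ℝ) ^ ε * X := by positivity
    have d9 : (C₁ + 256 * 10 ^ 12 * 128 * (C₃ * C₂ ^ 2)) * (c : ℝ) ^ ε * X =
        C₁ * (c : ℝ) ^ ε * X + 256 * (10 ^ 12 * 128 * (C₃ * C₂ ^ 2) * (c : ℝ) ^ ε * X) := by ring
    rw [d9]
    rw [d6] at d5
    linarith

end Pool.Agent.Helper89.HX
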