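import Pool.Agent.Helper89.HX.St

/-!
# HX, module Lam (MP_e188f1_nt)

For given coordinates, the number of `lam`: the difference of the two products is a cubic form with
small coefficients, its roots modulo `c` are at most three (Root), and for each root there are few
bases (Nu).
-/

set_option autoImplicit false

namespace Pool.Agent.Helper89.HX

open Finset Pool.Agent.Helper56.SW

/-- a product of three integers bounded by `M` is bounded by `M ^ 3` -/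
theorem Lam_abs3 (x y z M : ℤ) (hx : |x| ≤ M) (hy : |y| ≤ M) (hz : |z| ≤ M) :
    |x * y * z| ≤ M ^ 3 := by
  have hM : 0 ≤ M := le_trans (abs_nonneg x) hx
  rw [abs_mul, abs_mul]
  calc |x| * |y| * |z| ≤ M * M * M :=
        mul_le_mul (mul_le_mul hx hy (abs_nonneg _) hM) hz (abs_nonneg _)
          (mul_nonneg hM hM)
    _ = M ^ 3 := by ring

/-- a small multiple of `c` is zero -/
theorem Lam_zero (c : ℕ) (d : ℤ) (h : |d| < c) (hd : (c : ℤ) ∣ d) : d = 0 :=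
  Int.eq_zero_of_abs_lt_dvd hd h

/-- the coordinate `e.1` is a unit modulo `c` -/
theorem Lam_unit (c A B k : ℕ) (lam : ℤ) (e f : ℤ × ℤ) (hc : c.Prime) (hAB : A ≤ B)
    (hBc : B < c) (hb : Bs c A B k lam e f) : ¬ (c : ℤ) ∣ e.1 := by
  intro h
  have hAc : (A : ℤ) < c := by exact_mod_cast lt_of_le_of_lt hAB hBc
  have hBc' : (B : ℤ) < c := by exact_mod_cast hBc
  have h1 : e.1 = 0 := Lam_zero c _ (lt_of_le_of_lt hb.e1 hAc) h
  have h2 : (c : ℤ) ∣ e.2 := by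
    have := hb.e_mem
    rw [h1] at this
    simpa using this
  have h3 : e.2 = 0 := Lam_zero c _ (lt_of_le_of_lt hb.e2 hBc') h2
  have h4 := hb.det
  simp only [wd, h1, h3, zero_mul, sub_zero, abs_zero] at h4
  have : (0 : ℤ) < c := by exact_mod_cast hc.pos
  omega

/-- the ratio of the first coordinates modulo `c` -/
theorem Lam_ratio (c : ℕ) (u v : ℤ) (hc : c.Prime) (hu : ¬ (c : ℤ) ∣ u) :
    ∃ ν : ℕ, ν < c ∧ (c : ℤ) ∣ v - ν * u := by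
  have hcop : IsCoprime u (c : ℤ) := by
    have hp : Prime (c : ℤ) := Nat.prime_iff_prime_int.mp hc
    exact ((hp.coprime_iff_not_dvd).mpr hu).symm
  obtain ⟨a, b, hab⟩ := hcop
  have hc0 : (c : ℤ) ≠ 0 := by exact_mod_cast hc.ne_zero
  have hcpos : (0 : ℤ) < c := by exact_mod_cast hc.pos
  have hnn : 0 ≤ (v * a) % c := Int.emod_nonneg _ hc0
  have hlt : (v * a) % c < c := Int.emod_lt_of_pos _ hcpos
  refine ⟨((v * a) % c).toNat, ?_, ?_⟩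
  · have : (((v * a) % c).toNat : ℤ) < c := by rw [Int.toNat_of_nonneg hnn]; exact hlt
    exact_mod_cast this
  · rw [Int.toNat_of_nonneg hnn]
    have h1 : (v * a) % c = v * a - c * ((v * a) / c) := by
      have := Int.emod_add_mul_ediv (v * a) c
      linarith
    rw [h1]
    refine ⟨v * b + (v * a / c) * u, ?_⟩
    linear_combination (-v) * hab

/-- `lam` is determined by `e` -/
theorem Lam_inj (c : ℕ) (e : ℤ × ℤ) (l l' : ℕ) (hc : c.Prime) (hu : ¬ (c : ℤ) ∣ e.1)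
    (hl : l < c) (hl' : l' < c) (h : (c : ℤ) ∣ e.2 - l * e.1) (h' : (c : ℤ) ∣ e.2 - l' * e.1) :
    l = l' := by
  have hp : Prime (c : ℤ) := Nat.prime_iff_prime_int.mp hc
  have h1 : (c : ℤ) ∣ ((l : ℤ) - l') * e.1 := by
    have := dvd_sub h' h
    have h2 : e.2 - (l' : ℤ) * e.1 - (e.2 - l * e.1) = ((l : ℤ) - l') * e.1 := by ring
    rwa [h2] at this
  rcases hp.dvd_or_dvd h1 with h2 | h2
  · have h3 : (l : ℤ) - l' = 0 := by
      refine Lam_zero c _ ?_ h2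
      rw [abs_lt]
      constructor <;> omega
    omega
  · exact absurd h2 hu

/-- the second coordinates have the same ratio -/
theorem Lam_ratio2 (c : ℕ) (lam ν : ℤ) (e f : ℤ × ℤ) (he : (c : ℤ) ∣ e.2 - lam * e.1)
    (hf : (c : ℤ) ∣ f.2 - lam * f.1) (hν : (c : ℤ) ∣ f.1 - ν * e.1) :
    (c : ℤ) ∣ f.2 - ν * e.2 := by
  have h : f.2 - ν * e.2 = (f.2 - lam * f.1) + lam * (f.1 - ν * e.1) - ν * (e.2 - lam * e.1) := by
    ring
  rw [h]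
  exact dvd_sub (dvd_add hf (Dvd.dvd.mul_left hν _)) (Dvd.dvd.mul_left he _)

/-- the ratio is a root of the cubic -/
theorem Lam_root (c : ℕ) (u v ν d₀ d₁ d₂ d₃ : ℤ) (hc : c.Prime) (hu : ¬ (c : ℤ) ∣ u)
    (hν : (c : ℤ) ∣ v - ν * u)
    (h : (c : ℤ) ∣ d₀ * u ^ 3 + d₁ * u ^ 2 * v + d₂ * u * v ^ 2 + d₃ * v ^ 3) :
    (c : ℤ) ∣ d₀ + d₁ * ν + d₂ * ν ^ 2 + d₃ * ν ^ 3 := by
  have hp : Prime (c : ℤ) := Nat.prime_iff_prime_int.mp hc
  have h1 : (c : ℤ) ∣ u ^ 3 * (d₀ + d₁ * ν + d₂ * ν ^ 2 + d₃ * ν ^ 3) := by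
    have h2 : u ^ 3 * (d₀ + d₁ * ν + d₂ * ν ^ 2 + d₃ * ν ^ 3) =
        (d₀ * u ^ 3 + d₁ * u ^ 2 * v + d₂ * u * v ^ 2 + d₃ * v ^ 3) -
          (v - ν * u) * (d₁ * u ^ 2 + d₂ * u * (v + ν * u) +
            d₃ * (v ^ 2 + v * (ν * u) + (ν * u) ^ 2)) := by
      ring
    rw [h2]
    exact dvd_sub h (Dvd.dvd.mul_right hν _)
  rcases hp.dvd_or_dvd h1 with h2 | h2
  · exact absurd (hp.dvd_of_dvd_pow h2) hu
  · exact h2

/-- the coefficients are small -/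
theorem Lam_coef (k : ℕ) (a b a' b' d g d' g' p q p' q' : ℤ)
    (h1 : |a| ≤ 2 ^ (k + 1)) (h2 : |b| ≤ 2 ^ (k + 1)) (h3 : |a'| ≤ 2 ^ (k + 1))
    (h4 : |b'| ≤ 2 ^ (k + 1)) (h5 : |d| ≤ 2 ^ (k + 1)) (h6 : |g| ≤ 2 ^ (k + 1))
    (h7 : |d'| ≤ 2 ^ (k + 1)) (h8 : |g'| ≤ 2 ^ (k + 1)) (h9 : |p| ≤ 2 ^ (k + 1))
    (h10 : |q| ≤ 2 ^ (k + 1)) (h11 : |p'| ≤ 2 ^ (k + 1)) (h12 : |q'| ≤ 2 ^ (k + 1)) :
    |a * d * p - a' * d' * p'| ≤ 48 * 8 ^ k ∧
    |(a * d * q + a * g * p + b * d * p) - (a' * d' * q' + a' * g' * p' + b' * d' * p')| ≤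
      48 * 8 ^ k ∧
    |(a * g * q + b * d * q + b * g * p) - (a' * g' * q' + b' * d' * q' + b' * g' * p')| ≤
      48 * 8 ^ k ∧
    |b * g * q - b' * g' * q'| ≤ 48 * 8 ^ k := by
  have hM : ((2 : ℤ) ^ (k + 1)) ^ 3 = 8 * 8 ^ k := by
    rw [← pow_mul, mul_comm, pow_mul]
    norm_num
    rw [pow_succ]
    ring
  have hpos : (0 : ℤ) ≤ 8 ^ k := by positivity
  have key : ∀ x y z : ℤ, |x| ≤ 2 ^ (k + 1) → |y| ≤ 2 ^ (k + 1) → |z| ≤ 2 ^ (k + 1) →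
      -(8 * 8 ^ k) ≤ x * y * z ∧ x * y * z ≤ 8 * 8 ^ k := by
    intro x y z hx hy hz
    have := Lam_abs3 x y z _ hx hy hz
    rw [hM] at this
    exact abs_le.mp this
  have e1 := key a d p h1 h5 h9
  have e2 := key a' d' p' h3 h7 h11
  have e3 := key a d q h1 h5 h10
  have e4 := key a g p h1 h6 h9
  have e5 := key b d p h2 h5 h9
  have e6 := key a' d' q' h3 h7 h12
  have e7 := key a' g' p' h3 h8 h11
  have e8 := key b' d' p' h4 h7 h11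
  have e9 := key a g q h1 h6 h10
  have e10 := key b d q h2 h5 h10
  have e11 := key b g p h2 h6 h9
  have e12 := key a' g' q' h3 h8 h12
  have e13 := key b' d' q' h4 h7 h12
  have e14 := key b' g' p' h4 h8 h11
  have e15 := key b g q h2 h6 h10
  have e16 := key b' g' q' h4 h8 h12
  refine ⟨?_, ?_, ?_, ?_⟩ <;> rw [abs_le] <;> constructor <;> linarith [e1.1, e1.2, e2.1, e2.2,
    e3.1, e3.2, e4.1, e4.2, e5.1, e5.2, e6.1, e6.2, e7.1, e7.2, e8.1, e8.2, e9.1, e9.2, e10.1,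
    e10.2, e11.1, e11.2, e12.1, e12.2, e13.1, e13.2, e14.1, e14.2, e15.1, e15.2, e16.1, e16.2]

theorem hLam (hNu : StNu) (hRoot : StRoot) : StLam := by
  classical
  intro c A B k m n m' n' S hc hA hAB hBc hk hmn hne hS
  have hkc : (48 * 8 ^ k : ℤ) < c := by exact_mod_cast hk
  obtain ⟨c0, c1, c2, c3⟩ := Lam_coef k (m 0) (n 0) (m' 0) (n' 0) (m 1) (n 1) (m' 1) (n' 1)
    (m 2) (n 2) (m' 2) (n' 2) (hmn 0).1 (hmn 0).2.1 (hmn 0).2.2.1 (hmn 0).2.2.2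
    (hmn 1).1 (hmn 1).2.1 (hmn 1).2.2.1 (hmn 1).2.2.2
    (hmn 2).1 (hmn 2).2.1 (hmn 2).2.2.1 (hmn 2).2.2.2
  set d₀ : ℤ := m 0 * m 1 * m 2 - m' 0 * m' 1 * m' 2 with hd₀
  set d₁ : ℤ := (m 0 * m 1 * n 2 + m 0 * n 1 * m 2 + n 0 * m 1 * m 2) -
    (m' 0 * m' 1 * n' 2 + m' 0 * n' 1 * m' 2 + n' 0 * m' 1 * m' 2) with hd₁
  set d₂ : ℤ := (m 0 * n 1 * n 2 + n 0 * m 1 * n 2 + n 0 * n 1 * m 2) -
    (m' 0 * n' 1 * n' 2 + n' 0 * m' 1 * n' 2 + n' 0 * n' 1 * m' 2) with hd₂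
  set d₃ : ℤ := n 0 * n 1 * n 2 - n' 0 * n' 1 * n' 2 with hd₃
  have hform : ∀ t w : ℤ, (m 0 * t + n 0 * w) * (m 1 * t + n 1 * w) * (m 2 * t + n 2 * w) -
      (m' 0 * t + n' 0 * w) * (m' 1 * t + n' 1 * w) * (m' 2 * t + n' 2 * w) =
      d₀ * t ^ 3 + d₁ * t ^ 2 * w + d₂ * t * w ^ 2 + d₃ * w ^ 3 := by
    intro t w
    rw [hd₀, hd₁, hd₂, hd₃]
    ring
  have hnot : ¬ ((c : ℤ) ∣ d₀ ∧ (c : ℤ) ∣ d₁ ∧ (c : ℤ) ∣ d₂ ∧ (c : ℤ) ∣ d₃) := by
    rintro ⟨g0, g1, g2, g3⟩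
    have z0 := Lam_zero c d₀ (lt_of_le_of_lt c0 hkc) g0
    have z1 := Lam_zero c d₁ (lt_of_le_of_lt c1 hkc) g1
    have z2 := Lam_zero c d₂ (lt_of_le_of_lt c2 hkc) g2
    have z3 := Lam_zero c d₃ (lt_of_le_of_lt c3 hkc) g3
    obtain ⟨t, w, htw⟩ := hne
    apply htw
    have := hform t w
    rw [z0, z1, z2, z3] at this
    linarith
  have hroots := hRoot c d₀ d₁ d₂ d₃ hc hnot
  -- the data for `lam`
  have hdata : ∀ lam : ℕ, ∃ q : ((ℤ × ℤ) × (ℤ × ℤ)) × ℕ, lam ∈ S →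
      lam < c ∧ Bs c A B k lam q.1.1 q.1.2 ∧ q.2 < c ∧ (c : ℤ) ∣ q.1.2.1 - q.2 * q.1.1.1 ∧
      (c : ℤ) ∣ d₀ + d₁ * q.2 + d₂ * q.2 ^ 2 + d₃ * q.2 ^ 3 := by
    intro lam
    by_cases hl : lam ∈ S
    · obtain ⟨hlc, e, f, hb, hdv⟩ := hS lam hl
      have hu := Lam_unit c A B k lam e f hc hAB hBc hb
      obtain ⟨ν, hν, hνd⟩ := Lam_ratio c e.1 f.1 hc hu
      refine ⟨((e, f), ν), fun _ => ⟨hlc, hb, hν, hνd, ?_⟩⟩
      rw [hform] at hdv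
      exact Lam_root c e.1 f.1 ν d₀ d₁ d₂ d₃ hc hu hνd hdv
    · exact ⟨(((0, 0), (0, 0)), 0), fun h => absurd h hl⟩
  choose F hF using hdata
  set R : Finset ℕ := (range c).filter fun ν : ℕ =>
    (c : ℤ) ∣ d₀ + d₁ * ν + d₂ * ν ^ 2 + d₃ * ν ^ 3 with hR
  have hmaps : ∀ lam ∈ S, (F lam).2 ∈ R := by
    intro lam hl
    obtain ⟨_, _, h3, _, h5⟩ := hF lam hl
    rw [hR, mem_filter, mem_range]
    exact ⟨h3, h5⟩
  have hfib : ∀ ν ∈ R, ((S.filter fun lam => (F lam).2 = ν).card : ℝ) ≤ 49 ^ 4 * B / A := by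
    intro ν _
    have hinj : Set.InjOn (fun lam => (F lam).1) ((S.filter fun lam => (F lam).2 = ν) : Set ℕ) := by
      intro l hl l' hl' hll
      rw [mem_coe, mem_filter] at hl hl'
      obtain ⟨a1, a2, _, _, _⟩ := hF l hl.1
      obtain ⟨b1, b2, _, _, _⟩ := hF l' hl'.1
      have hll' : (F l).1 = (F l').1 := hll
      have hu := Lam_unit c A B k l _ _ hc hAB hBc a2
      have h1 := a2.e_mem
      have h2 := b2.e_mem
      rw [← hll'] at h2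
      exact Lam_inj c _ l l' hc hu a1 b1 h1 h2
    have hcard := Finset.card_image_of_injOn hinj
    rw [← hcard]
    refine hNu c ν A B k _ hc.one_le hA hAB ?_
    intro q hq
    rw [mem_image] at hq
    obtain ⟨lam, hl, rfl⟩ := hq
    rw [mem_filter] at hl
    obtain ⟨_, hb, _, hd, _⟩ := hF lam hl.1
    rw [hl.2] at hd
    exact ⟨hb.det, hd, Lam_ratio2 c lam ν _ _ hb.e_mem hb.f_mem hd, hb.e1', hb.e2', hb.f1', hb.f2'⟩
  have hsum := Finset.card_eq_sum_card_fiberwise hmaps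
  have hq0 : (0 : ℝ) ≤ 49 ^ 4 * B / A := by positivity
  calc (S.card : ℝ) = ∑ ν ∈ R, ((S.filter fun lam => (F lam).2 = ν).card : ℝ) := by
        rw [hsum]; push_cast; rfl
    _ ≤ ∑ ν ∈ R, (49 ^ 4 * B / A : ℝ) := Finset.sum_le_sum hfib
    _ = R.card * (49 ^ 4 * B / A) := by rw [Finset.sum_const, nsmul_eq_mul]
    _ ≤ 3 * (49 ^ 4 * B / A) := by
        apply mul_le_mul_of_nonneg_right _ hq0
        exact_mod_cast hroots
    _ = 3 * 49 ^ 4 * B / A := by ring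

end Pool.Agent.Helper89.HX
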