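import Pool.Agent.Helper89.HX.St

/-!
# HX: module Nu (number of pairs of lattice vectors with given wedge)
-/

set_option autoImplicit false

namespace Pool.Agent.Helper89.HX

open Finset Pool.Agent.Helper56.SW

/-- a vector with vanishing wedge against two independent vectors is zero -/
theorem Nu_zero {w p p' : ℤ × ℤ} (h1 : wd w p = 0) (h2 : wd w p' = 0) (h : wd p p' ≠ 0) :
    w = 0 := by
  simp only [wd] at *
  have e1 : w.1 * (p.1 * p'.2 - p.2 * p'.1) = 0 := by linear_combination p.1 * h2 - p'.1 * h1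
  have e2 : w.2 * (p.1 * p'.2 - p.2 * p'.1) = 0 := by linear_combination p.2 * h2 - p'.2 * h1
  have f1 := (mul_eq_zero.1 e1).resolve_right h
  have f2 := (mul_eq_zero.1 e2).resolve_right h
  exact Prod.ext f1 f2

theorem Nu_dvd {c : ℕ} {ν : ℤ} {p q : ℤ × ℤ} (hp : (c : ℤ) ∣ p.2 - ν * p.1)
    (hq : (c : ℤ) ∣ q.2 - ν * q.1) : (c : ℤ) ∣ wd p q := by
  obtain ⟨a, ha⟩ := hp
  obtain ⟨b, hb⟩ := hq
  refine ⟨p.1 * b - q.1 * a, ?_⟩
  simp only [wd]
  linear_combination p.1 * hb - q.1 * ha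

/-- a lattice vector parallel to a primitive vector is a multiple of it -/
theorem Nu_prim {c : ℕ} (hc : 1 ≤ c) {ν : ℤ} {p p' z : ℤ × ℤ}
    (hp' : (c : ℤ) ∣ p'.2 - ν * p'.1) (hz : (c : ℤ) ∣ z.2 - ν * z.1)
    (h : |wd p p'| = c) (h0 : wd p z = 0) : ∃ t : ℤ, z.1 = t * p.1 ∧ z.2 = t * p.2 := by
  have hc0 : (c : ℤ) ≠ 0 := by exact_mod_cast (by omega : c ≠ 0)
  obtain ⟨j, hj⟩ := Nu_dvd hz hp'
  obtain ⟨ε, hε, hw⟩ : ∃ ε : ℤ, ε * ε = 1 ∧ wd p p' = ε * c := by
    rcases abs_choice (wd p p') with h1 | h1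
    · exact ⟨1, by norm_num, by rw [one_mul, ← h, h1]⟩
    · exact ⟨-1, by norm_num, by linarith [h, h1]⟩
  have hne : wd p p' ≠ 0 := by
    intro h1
    rw [h1, abs_zero] at h
    exact hc0 h.symm
  have hw0 : ((z.1 - ε * j * p.1, z.2 - ε * j * p.2) : ℤ × ℤ) = 0 := by
    refine Nu_zero (p := p) (p' := p') ?_ ?_ hne
    · simp only [wd] at *
      linear_combination -h0
    · simp only [wd] at *
      linear_combination hj - ε * j * hw - j * c * hε
  refine ⟨ε * j, ?_, ?_⟩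
  · have := congrArg Prod.fst hw0
    simp only [Prod.fst_zero] at this
    linarith
  · have := congrArg Prod.snd hw0
    simp only [Prod.snd_zero] at this
    linarith

theorem Nu_int (T : Finset ℤ) (h : ∀ a ∈ T, ∀ b ∈ T, a - b ≤ 48) : T.card ≤ 49 := by
  rcases T.eq_empty_or_nonempty with h0 | h0
  · simp [h0]
  · have h1 : T ⊆ Finset.Icc (T.min' h0) (T.min' h0 + 48) := by
      intro x hx
      rw [Finset.mem_Icc]
      refine ⟨T.min'_le x hx, ?_⟩
      have := h x hx _ (T.min'_mem h0)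
      linarith
    have h2 := Finset.card_le_card h1
    rw [Int.card_Icc] at h2
    have h3 : (T.min' h0 + 48 + 1 - T.min' h0).toNat = 49 := by
      have : T.min' h0 + 48 + 1 - T.min' h0 = 49 := by ring
      rw [this]
      rfl
    rwa [h3] at h2

theorem Nu_set {c : ℕ} {p : ℤ × ℤ} (hp : p ≠ 0) (X : Finset (ℤ × ℤ))
    (h1 : ∀ x ∈ X, ∃ j : ℤ, wd p x = j * c ∧ |j| ≤ 24)
    (h2 : ∀ x ∈ X, ∀ y ∈ X, wd p x = wd p y →
      ∃ t : ℤ, x.1 - y.1 = t * p.1 ∧ x.2 - y.2 = t * p.2 ∧ |t| ≤ 48) : X.card ≤ 49 * 49 := by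
  classical
  have hcov : X ⊆ (Finset.Icc (-24 : ℤ) 24).biUnion
      (fun j => X.filter fun x => wd p x = j * c) := by
    intro x hx
    obtain ⟨j, hj, hj2⟩ := h1 x hx
    rw [abs_le] at hj2
    rw [Finset.mem_biUnion]
    exact ⟨j, Finset.mem_Icc.2 hj2, Finset.mem_filter.2 ⟨hx, hj⟩⟩
  refine (Finset.card_le_card hcov).trans (Finset.card_biUnion_le.trans ?_)
  have hfib : ∀ j ∈ Finset.Icc (-24 : ℤ) 24, (X.filter fun x => wd p x = j * c).card ≤ 49 := by
    intro j _
    set Y := X.filter fun x => wd p x = j * c with hY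
    rcases Y.eq_empty_or_nonempty with h0 | ⟨y, hy⟩
    · simp [h0]
    · have hYX : ∀ x ∈ Y, x ∈ X ∧ wd p x = j * c := fun x hx => Finset.mem_filter.1 hx
      have h3 : ∀ x ∈ Y, ∃ t : ℤ, x.1 - y.1 = t * p.1 ∧ x.2 - y.2 = t * p.2 := by
        intro x hx
        obtain ⟨t, a, b, -⟩ := h2 x (hYX x hx).1 y (hYX y hy).1
          ((hYX x hx).2.trans (hYX y hy).2.symm)
        exact ⟨t, a, b⟩
      choose! τ hτ using h3
      have hinj : Set.InjOn τ Y := by
        intro x hx x' hx' hxx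
        have a := hτ x hx
        have b := hτ x' hx'
        rw [hxx] at a
        exact Prod.ext (by linarith [a.1, b.1]) (by linarith [a.2, b.2])
      rw [← Finset.card_image_of_injOn hinj]
      apply Nu_int
      intro a ha b hb
      obtain ⟨x, hx, rfl⟩ := Finset.mem_image.1 ha
      obtain ⟨x', hx', rfl⟩ := Finset.mem_image.1 hb
      obtain ⟨t, e1, e2, e3⟩ := h2 x (hYX x hx).1 x' (hYX x' hx').1
        ((hYX x hx).2.trans (hYX x' hx').2.symm)
      have a := hτ x hx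
      have b := hτ x' hx'
      have f1 : (τ x - τ x' - t) * p.1 = 0 := by linear_combination b.1 - a.1 + e1
      have f2 : (τ x - τ x' - t) * p.2 = 0 := by linear_combination b.2 - a.2 + e2
      have f3 : τ x - τ x' - t = 0 := by
        by_contra hne
        apply hp
        exact Prod.ext ((mul_eq_zero.1 f1).resolve_left hne) ((mul_eq_zero.1 f2).resolve_left hne)
      rw [abs_le] at e3
      linarith [e3.2]
  have h4 := Finset.sum_le_sum hfib
  rw [Finset.sum_const, Int.card_Icc] at h4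
  have h5 : (24 + 1 - (-24 : ℤ)).toNat = 49 := by decide
  rw [h5, smul_eq_mul] at h4
  exact h4

/-- products of the bounds -/
theorem Nu_prod {a b K x y m n : ℤ} (_ha : 0 ≤ a) (hb : 0 ≤ b) (hK : 0 < K) (hy : 0 < y)
    (h1 : a * K ≤ 12 * x) (h2 : b * y ≤ K * m) (hx : 0 ≤ x) (hn : x * m = n) :
    a * b * y ≤ 12 * n := by
  have h3 : (a * K) * (b * y) ≤ (12 * x) * (K * m) :=
    mul_le_mul h1 h2 (mul_nonneg hb hy.le) (by linarith)
  have h4 : K * (a * b * y) ≤ K * (12 * n) := by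
    rw [← hn]
    nlinarith [h3]
  exact le_of_mul_le_mul_left h4 hK

theorem hNu : StNu := by
  intro c ν A B k S hc hA hAB hS
  classical
  have hA0 : (0 : ℝ) < A := by exact_mod_cast hA
  have hABr : (A : ℝ) ≤ B := by exact_mod_cast hAB
  have hBA : (1 : ℝ) ≤ B / A := by rwa [le_div_iff₀ hA0, one_mul]
  have hAz : (0 : ℤ) < A := by exact_mod_cast hA
  have hBz : (0 : ℤ) < B := by exact_mod_cast (lt_of_lt_of_le hA hAB)
  have hcz : (0 : ℤ) < c := by exact_mod_cast hc
  have hK : (0 : ℤ) < 2 ^ k := by positivity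
  have hmul : (49 : ℝ) ^ 4 * B / A = 49 ^ 4 * (B / A) := by ring
  -- product bounds for members `q`, `r`
  have b1 : ∀ q ∈ S, ∀ r ∈ S, |q.1.1| * |r.2.1| * B ≤ 12 * (A * c : ℤ) := fun q hq r hr =>
    Nu_prod (abs_nonneg _) (abs_nonneg _) hK hBz (hS q hq).2.2.2.1 (hS r hr).2.2.2.2.2.1 hAz.le rfl
  have b2 : ∀ q ∈ S, ∀ r ∈ S, |q.1.1| * |r.2.2| * A ≤ 12 * (A * c : ℤ) := fun q hq r hr =>
    Nu_prod (abs_nonneg _) (abs_nonneg _) hK hAz (hS q hq).2.2.2.1 (hS r hr).2.2.2.2.2.2 hAz.le rfl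
  have b3 : ∀ q ∈ S, ∀ r ∈ S, |q.1.2| * |r.2.1| * B ≤ 12 * (B * c : ℤ) := fun q hq r hr =>
    Nu_prod (abs_nonneg _) (abs_nonneg _) hK hBz (hS q hq).2.2.2.2.1 (hS r hr).2.2.2.2.2.1 hBz.le rfl
  have b4 : ∀ q ∈ S, ∀ r ∈ S, |q.1.2| * |r.2.2| * A ≤ 12 * (B * c : ℤ) := fun q hq r hr =>
    Nu_prod (abs_nonneg _) (abs_nonneg _) hK hAz (hS q hq).2.2.2.2.1 (hS r hr).2.2.2.2.2.2 hBz.le rfl
  have b2' : ∀ q ∈ S, ∀ r ∈ S, |q.1.1| * |r.2.2| ≤ 12 * (c : ℤ) := by
    intro q hq r hr
    have := b2 q hq r hr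
    nlinarith [this, hAz]
  have b3' : ∀ q ∈ S, ∀ r ∈ S, |q.1.2| * |r.2.1| ≤ 12 * (c : ℤ) := by
    intro q hq r hr
    have := b3 q hq r hr
    nlinarith [this, hBz]
  set pt : (ℤ × ℤ) × (ℤ × ℤ) → ℤ × ℤ := fun q => (q.1.1, q.2.1) with hpt
  set pt' : (ℤ × ℤ) × (ℤ × ℤ) → ℤ × ℤ := fun q => (q.1.2, q.2.2) with hpt'
  have hwd : ∀ q, wd (pt q) (pt' q) = wd q.1 q.2 := by
    intro q
    simp only [hpt, hpt', wd]
    ring
  have m1 : ∀ q ∈ S, (c : ℤ) ∣ (pt q).2 - ν * (pt q).1 := fun q hq => (hS q hq).2.1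
  have m2 : ∀ q ∈ S, (c : ℤ) ∣ (pt' q).2 - ν * (pt' q).1 := fun q hq => (hS q hq).2.2.1
  have hw : ∀ q ∈ S, |wd (pt q) (pt' q)| = c := fun q hq => by rw [hwd]; exact (hS q hq).1
  by_cases hpar : ∀ q ∈ S, ∀ r ∈ S, wd (pt q) (pt r) = 0
  · rcases S.eq_empty_or_nonempty with h0 | ⟨q₀, hq₀⟩
    · rw [h0]
      simp only [Finset.card_empty, Nat.cast_zero]
      positivity
    · set M : ℕ := 48 * B / A with hM
      set F : ℤ × ℤ × ℤ → (ℤ × ℤ) × (ℤ × ℤ) := fun a =>
        ((a.1 * q₀.1.1, a.2.1 * q₀.1.2 + a.2.2 * q₀.1.1),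
          (a.1 * q₀.2.1, a.2.1 * q₀.2.2 + a.2.2 * q₀.2.1)) with hF
      have hsub : S ⊆ (({1, -1} : Finset ℤ) ×ˢ (({1, -1} : Finset ℤ) ×ˢ
          Finset.Icc (-(M : ℤ)) M)).image F := by
        intro q hq
        obtain ⟨t, ht1, ht2⟩ := Nu_prim hc (m2 q₀ hq₀) (m1 q hq) (hw q₀ hq₀)
          (hpar q₀ hq₀ q hq)
        obtain ⟨m, hm⟩ := Nu_dvd (m1 q₀ hq₀) (m2 q hq)
        obtain ⟨ε, hε⟩ := Nu_dvd (m1 q₀ hq₀) (m2 q₀ hq₀)
        have hεa : |ε| = 1 := by
          have := hw q₀ hq₀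
          rw [hε, abs_mul, abs_of_pos hcz] at this
          nlinarith [this, hcz]
        have htm : |t| * |m| = 1 := by
          have h1 := hw q hq
          have h2 : wd (pt q) (pt' q) = t * wd (pt q₀) (pt' q) := by
            simp only [wd]
            rw [ht1, ht2]
            ring
          rw [h2, hm, abs_mul, abs_mul, abs_of_pos hcz] at h1
          have h3 : (c : ℤ) * (|t| * |m| - 1) = 0 := by linear_combination h1
          have := (mul_eq_zero.1 h3).resolve_left hcz.ne'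
          linarith
        have hta : |t| = 1 := Int.eq_one_of_mul_eq_one_right (abs_nonneg _) htm
        have hma : |m| = 1 := Int.eq_one_of_mul_eq_one_left (abs_nonneg _) htm
        have hεε : ε * ε = 1 := by
          have := abs_mul_abs_self ε
          rw [hεa] at this
          linarith
        -- `pt' q - m ε pt' q₀` is parallel to `pt q₀`
        have hz : (c : ℤ) ∣ ((pt' q).2 - m * ε * (pt' q₀).2) -
            ν * ((pt' q).1 - m * ε * (pt' q₀).1) := by
          have h1 := dvd_sub (m2 q hq) ((m2 q₀ hq₀).mul_left (m * ε))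
          have h2 : ((pt' q).2 - m * ε * (pt' q₀).2) - ν * ((pt' q).1 - m * ε * (pt' q₀).1) =
            (pt' q).2 - ν * (pt' q).1 - m * ε * ((pt' q₀).2 - ν * (pt' q₀).1) := by ring
          rw [h2]
          exact h1
        obtain ⟨s, hs1, hs2⟩ := Nu_prim (z := ((pt' q).1 - m * ε * (pt' q₀).1,
          (pt' q).2 - m * ε * (pt' q₀).2)) hc (m2 q₀ hq₀) hz (hw q₀ hq₀) (by
            have e1 : wd (pt q₀) ((pt' q).1 - m * ε * (pt' q₀).1,
                (pt' q).2 - m * ε * (pt' q₀).2) =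
                wd (pt q₀) (pt' q) - m * ε * wd (pt q₀) (pt' q₀) := by
              simp only [wd]
              ring
            rw [e1, hm, hε]
            linear_combination -(c * m) * hεε)
        simp only at hs1 hs2
        have hme : |m * ε| = 1 := by rw [abs_mul, hma, hεa, one_mul]
        -- bound for `s`
        have hsA : |s| * A ≤ 48 * B := by
          have c1 : |s| * |q₀.1.1| ≤ |q.1.2| + |q₀.1.2| := by
            rw [← abs_mul]
            have : s * q₀.1.1 = q.1.2 - m * ε * q₀.1.2 := hs1.symm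
            rw [this]
            calc |q.1.2 - m * ε * q₀.1.2| ≤ |q.1.2| + |m * ε * q₀.1.2| := abs_sub _ _
              _ = _ := by rw [abs_mul (m * ε), hme, one_mul]
          have c2 : |s| * |q₀.2.1| ≤ |q.2.2| + |q₀.2.2| := by
            rw [← abs_mul]
            have : s * q₀.2.1 = q.2.2 - m * ε * q₀.2.2 := hs2.symm
            rw [this]
            calc |q.2.2 - m * ε * q₀.2.2| ≤ |q.2.2| + |m * ε * q₀.2.2| := abs_sub _ _
              _ = _ := by rw [abs_mul (m * ε), hme, one_mul]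
          have c3 : (c : ℤ) ≤ |q₀.1.1| * |q₀.2.2| + |q₀.2.1| * |q₀.1.2| := by
            rw [← hw q₀ hq₀]
            simp only [wd]
            calc |(pt q₀).1 * (pt' q₀).2 - (pt q₀).2 * (pt' q₀).1| ≤
                |(pt q₀).1 * (pt' q₀).2| + |(pt q₀).2 * (pt' q₀).1| := abs_sub _ _
              _ = _ := by rw [abs_mul, abs_mul]
          have d1 := b4 q hq q₀ hq₀
          have d2 := b4 q₀ hq₀ q₀ hq₀
          have d3 := b4 q₀ hq₀ q hq
          have c4 : |s| * (c : ℤ) ≤ (|q.1.2| + |q₀.1.2|) * |q₀.2.2| +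
              (|q.2.2| + |q₀.2.2|) * |q₀.1.2| := by
            have e1 := mul_le_mul_of_nonneg_left c3 (abs_nonneg s)
            have e2 := mul_le_mul_of_nonneg_right c1 (abs_nonneg q₀.2.2)
            have e3 := mul_le_mul_of_nonneg_right c2 (abs_nonneg q₀.1.2)
            nlinarith [e1, e2, e3]
          have c5 : (c : ℤ) * (|s| * A) ≤ c * (48 * B) := by
            have e1 := mul_le_mul_of_nonneg_right c4 hAz.le
            nlinarith [e1, d1, d2, d3]
          exact le_of_mul_le_mul_left c5 hcz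
        have hsM : |s| ≤ (M : ℤ) := by
          have h1 : |s| ≤ (48 * B : ℤ) / A := (Int.le_ediv_iff_mul_le hAz).2 hsA
          rw [hM]
          push_cast
          exact h1
        rw [Finset.mem_image]
        refine ⟨(t, m * ε, s), ?_, ?_⟩
        · simp only [Finset.mem_product, Finset.mem_insert, Finset.mem_singleton,
            Finset.mem_Icc]
          refine ⟨?_, ?_, abs_le.1 hsM⟩
          · rcases abs_choice t with h | h
            · left; rw [← h, hta]
            · right; linarith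
          · rcases abs_choice (m * ε) with h | h
            · left; rw [← h, hme]
            · right; linarith
        · simp only [hF]
          have g1 : t * q₀.1.1 = q.1.1 := ht1.symm
          have g2 : t * q₀.2.1 = q.2.1 := ht2.symm
          have g3 : m * ε * q₀.1.2 + s * q₀.1.1 = q.1.2 := by
            have : q.1.2 - m * ε * q₀.1.2 = s * q₀.1.1 := hs1
            linarith
          have g4 : m * ε * q₀.2.2 + s * q₀.2.1 = q.2.2 := by
            have : q.2.2 - m * ε * q₀.2.2 = s * q₀.2.1 := hs2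
            linarith
          rw [g1, g2, g3, g4]
      have h1 := (Finset.card_le_card hsub).trans Finset.card_image_le
      rw [Finset.card_product, Finset.card_product, Int.card_Icc] at h1
      have h2 : (({1, -1} : Finset ℤ)).card = 2 := by decide
      have h3 : ((M : ℤ) + 1 - -(M : ℤ)).toNat = 2 * M + 1 := by omega
      rw [h2, h3] at h1
      have h4 : (M : ℝ) ≤ 48 * (B / A) := by
        have : (M : ℝ) ≤ ((48 * B : ℕ) : ℝ) / (A : ℕ) := Nat.cast_div_le
        push_cast at this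
        calc (M : ℝ) ≤ 48 * B / A := this
          _ = _ := by ring
      have h5 : (S.card : ℝ) ≤ 2 * (2 * (2 * M + 1)) := by exact_mod_cast h1
      rw [hmul]
      nlinarith [h4, h5, hBA]
  · push Not at hpar
    obtain ⟨q₁, hq₁, q₂, hq₂, hne⟩ := hpar
    have hp1 : pt q₁ ≠ 0 := by
      intro h
      apply hne
      rw [h]
      simp [wd]
    -- upper bound for wedges of first members
    have w1 : ∀ q ∈ S, |wd (pt q₁) (pt q)| * B ≤ 24 * (A * c : ℤ) := by
      intro q hq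
      have e1 : |wd (pt q₁) (pt q)| ≤ |q₁.1.1| * |q.2.1| + |q₁.2.1| * |q.1.1| := by
        simp only [wd]
        calc |(pt q₁).1 * (pt q).2 - (pt q₁).2 * (pt q).1| ≤
            |(pt q₁).1 * (pt q).2| + |(pt q₁).2 * (pt q).1| := abs_sub _ _
          _ = _ := by rw [abs_mul, abs_mul]
      have e2 := b1 q₁ hq₁ q hq
      have e3 := b1 q hq q₁ hq₁
      nlinarith [e1, e2, e3, hBz]
    have hlow : (c : ℤ) ≤ |wd (pt q₁) (pt q₂)| :=
      Int.le_of_dvd (abs_pos.2 hne) ((dvd_abs _ _).2 (Nu_dvd (m1 q₁ hq₁) (m1 q₂ hq₂)))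
    have hB24 : (B : ℤ) ≤ 24 * A := by
      have := w1 q₂ hq₂
      have h1 : (c : ℤ) * B ≤ c * (24 * A) := by nlinarith [this, hlow, hBz]
      exact le_of_mul_le_mul_left h1 hcz
    have hc3 : (c : ℤ) ≤ |q₁.1.1| * |q₂.2.1| + |q₁.2.1| * |q₂.1.1| := by
      refine hlow.trans ?_
      simp only [wd]
      calc |(pt q₁).1 * (pt q₂).2 - (pt q₁).2 * (pt q₂).1| ≤
          |(pt q₁).1 * (pt q₂).2| + |(pt q₁).2 * (pt q₂).1| := abs_sub _ _
        _ = _ := by rw [abs_mul, abs_mul]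
    -- general comparison: `x - y = t p₁`
    have key : ∀ x y : ℤ × ℤ, (c : ℤ) ∣ x.2 - ν * x.1 → (c : ℤ) ∣ y.2 - ν * y.1 →
        (|x.1| + |y.1|) * |q₂.2.1| + (|x.2| + |y.2|) * |q₂.1.1| ≤ 48 * (c : ℤ) →
        wd (pt q₁) x = wd (pt q₁) y →
        ∃ t : ℤ, x.1 - y.1 = t * (pt q₁).1 ∧ x.2 - y.2 = t * (pt q₁).2 ∧ |t| ≤ 48 := by
      intro x y hx hy hxy hwxy
      obtain ⟨t, ht1, ht2⟩ := Nu_prim (z := (x.1 - y.1, x.2 - y.2)) hc (m2 q₁ hq₁) (by
        have h1 := dvd_sub hx hy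
        have h2 : (x.2 - y.2) - ν * (x.1 - y.1) = x.2 - ν * x.1 - (y.2 - ν * y.1) := by ring
        show (c : ℤ) ∣ (x.2 - y.2) - ν * (x.1 - y.1)
        rw [h2]
        exact h1) (hw q₁ hq₁) (by
          simp only [wd] at hwxy ⊢
          linear_combination hwxy)
      simp only at ht1 ht2
      refine ⟨t, ht1, ht2, ?_⟩
      have c1 : |t| * |q₁.1.1| ≤ |x.1| + |y.1| := by
        rw [← abs_mul]
        have : t * q₁.1.1 = x.1 - y.1 := ht1.symm
        rw [this]
        exact abs_sub _ _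
      have c2 : |t| * |q₁.2.1| ≤ |x.2| + |y.2| := by
        rw [← abs_mul]
        have : t * q₁.2.1 = x.2 - y.2 := ht2.symm
        rw [this]
        exact abs_sub _ _
      have e1 := mul_le_mul_of_nonneg_left hc3 (abs_nonneg t)
      have e2 := mul_le_mul_of_nonneg_right c1 (abs_nonneg q₂.2.1)
      have e3 := mul_le_mul_of_nonneg_right c2 (abs_nonneg q₂.1.1)
      have e4 : (c : ℤ) * |t| ≤ c * 48 := by nlinarith [e1, e2, e3, hxy]
      exact le_of_mul_le_mul_left e4 hcz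
    -- sums of two products for first members, `A ≤ B`
    have f1 : ∀ q ∈ S, ∀ r ∈ S, |q.1.1| * |r.2.1| ≤ 12 * (c : ℤ) := by
      intro q hq r hr
      have e1 := b1 q hq r hr
      have e2 : (A : ℤ) ≤ B := by exact_mod_cast hAB
      have e3 : (B : ℤ) * (|q.1.1| * |r.2.1|) ≤ B * (12 * c) := by nlinarith [e1, e2, hcz]
      exact le_of_mul_le_mul_left e3 hBz
    have X1 : (S.image pt).card ≤ 49 * 49 := by
      refine Nu_set (c := c) hp1 _ ?_ ?_
      · intro x hx
        obtain ⟨q, hq, rfl⟩ := Finset.mem_image.1 hx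
        obtain ⟨j, hj⟩ := Nu_dvd (m1 q₁ hq₁) (m1 q hq)
        refine ⟨j, by rw [hj]; ring, ?_⟩
        have e1 := w1 q hq
        rw [hj, abs_mul, abs_of_pos hcz] at e1
        have e2 : (A : ℤ) ≤ B := by exact_mod_cast hAB
        have e3 : (c : ℤ) * B * |j| ≤ c * B * 24 := by nlinarith [e1, e2, hcz, hBz]
        exact le_of_mul_le_mul_left e3 (by positivity)
      · intro x hx y hy hxy
        obtain ⟨q, hq, rfl⟩ := Finset.mem_image.1 hx
        obtain ⟨r, hr, rfl⟩ := Finset.mem_image.1 hy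
        refine key _ _ (m1 q hq) (m1 r hr) ?_ hxy
        have e1 := f1 q hq q₂ hq₂
        have e2 := f1 r hr q₂ hq₂
        have e3 := f1 q₂ hq₂ q hq
        have e4 := f1 q₂ hq₂ r hr
        simp only [hpt]
        nlinarith [e1, e2, e3, e4]
    have X2 : (S.image pt').card ≤ 49 * 49 := by
      refine Nu_set (c := c) hp1 _ ?_ ?_
      · intro x hx
        obtain ⟨q, hq, rfl⟩ := Finset.mem_image.1 hx
        obtain ⟨j, hj⟩ := Nu_dvd (m1 q₁ hq₁) (m2 q hq)
        refine ⟨j, by rw [hj]; ring, ?_⟩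
        have e1 : |wd (pt q₁) (pt' q)| ≤ |q₁.1.1| * |q.2.2| + |q₁.2.1| * |q.1.2| := by
          simp only [wd]
          calc |(pt q₁).1 * (pt' q).2 - (pt q₁).2 * (pt' q).1| ≤
              |(pt q₁).1 * (pt' q).2| + |(pt q₁).2 * (pt' q).1| := abs_sub _ _
            _ = _ := by rw [abs_mul, abs_mul]
        rw [hj, abs_mul, abs_of_pos hcz] at e1
        have e2 := b2' q₁ hq₁ q hq
        have e3 := b3' q hq q₁ hq₁
        have e4 : (c : ℤ) * |j| ≤ c * 24 := by nlinarith [e1, e2, e3]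
        exact le_of_mul_le_mul_left e4 hcz
      · intro x hx y hy hxy
        obtain ⟨q, hq, rfl⟩ := Finset.mem_image.1 hx
        obtain ⟨r, hr, rfl⟩ := Finset.mem_image.1 hy
        refine key _ _ (m2 q hq) (m2 r hr) ?_ hxy
        have e1 := b3' q hq q₂ hq₂
        have e2 := b3' r hr q₂ hq₂
        have e3 := b2' q₂ hq₂ q hq
        have e4 := b2' q₂ hq₂ r hr
        simp only [hpt']
        nlinarith [e1, e2, e3, e4]
    have h1 : S.card ≤ ((S.image pt) ×ˢ (S.image pt')).card := by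
      refine Finset.card_le_card_of_injOn (fun q => (pt q, pt' q)) ?_ ?_
      · intro q hq
        simp only [Finset.coe_product, Set.mem_prod, Finset.mem_coe]
        exact ⟨Finset.mem_image_of_mem _ hq, Finset.mem_image_of_mem _ hq⟩
      · intro q _ r _ hqr
        simp only [hpt, hpt', Prod.mk.injEq] at hqr
        obtain ⟨⟨a1, a2⟩, a3, a4⟩ := hqr
        exact Prod.ext (Prod.ext a1 a3) (Prod.ext a2 a4)
    rw [Finset.card_product] at h1
    have h2 : S.card ≤ (49 * 49) * (49 * 49) := h1.trans (Nat.mul_le_mul X1 X2)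
    have h3 : (S.card : ℝ) ≤ (49 * 49) * (49 * 49) := by exact_mod_cast h2
    rw [hmul]
    nlinarith [h3, hBA]

end Pool.Agent.Helper89.HX
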