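import Pool.Agent.Helper89.HX.St
import Pool.Agent.Helper56.SW.M_Fac

set_option autoImplicit false

namespace Pool.Agent.Helper89.HX

open Finset Pool.Agent.Helper56.SW

theorem P_eq_of_dvd {c : ℕ} {x y : ℤ} {M : ℕ} (hx : |x| ≤ M) (hy : |y| ≤ M) (hM : 2 * M < c)
    (h : (c : ℤ) ∣ x - y) : x = y := by
  have h1 : |x - y| < c := by
    have := abs_sub x y
    have h3 : ((2 * M : ℕ) : ℤ) < c := by exact_mod_cast hM
    push_cast at h3
    linarith
  have := Int.eq_zero_of_abs_lt_dvd h h1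
  linarith

theorem P_mem {c : ℕ} {β : ℤ} {A B : ℕ} {T : Tp} (h : T ∈ SolP c β A B) :
    (|T.1.1| ≤ A ∧ |T.1.2| ≤ B) ∧ (|T.2.1.1| ≤ A ∧ |T.2.1.2| ≤ B) ∧
      (|T.2.2.1| ≤ A ∧ |T.2.2.2| ≤ B) ∧ Rl c β T ∧ NZ T ∧ ¬ Dg c β T ∧ wd T.1 T.2.1 = 0 := by
  classical
  unfold SolP at h
  rw [mem_filter] at h
  obtain ⟨h1, h2, h3, h4⟩ := h
  unfold Sol at h1
  rw [mem_filter, mem_product, mem_product] at h1
  obtain ⟨⟨h5, h6, h7⟩, h8⟩ := h1
  unfold bo at h5 h6 h7
  rw [mem_product, mem_I, mem_I] at h5 h6 h7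
  exact ⟨h5, h6, h7, h8, h2, h3, h4⟩

theorem hP : StP := by
  classical
  intro c β A B D hc hβ hA hAB hB hD
  have hcp : Prime (c : ℤ) := Nat.prime_iff_prime_int.1 hc
  let X : Finset (ℤ × ℤ) := ((I A).erase 0) ×ˢ ((I B).erase 0)
  have hcardI : ∀ M : ℕ, ((I M).erase 0).card = 2 * M := by
    intro M
    have h0 : (0 : ℤ) ∈ I M := by rw [mem_I, abs_zero]; positivity
    rw [card_erase_of_mem h0]
    unfold I
    rw [Int.card_Icc]
    omega
  have hXc : X.card = 4 * A * B := by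
    show (((I A).erase 0) ×ˢ ((I B).erase 0)).card = _
    rw [card_product, hcardI, hcardI]
    ring
  have h1 : (SolP c β A B).card ≤ (X.sigma fun j => mFac_idiv (j.1 * j.2)).card := by
    refine card_le_card_of_injOn
      (fun T => (⟨(T.1.1, T.2.1.2), T.2.1.1⟩ : (_ : ℤ × ℤ) × ℤ)) ?_ ?_
    · intro T hT
      obtain ⟨hp1, hp2, hp3, hR, hN, hG, hW⟩ := P_mem (mem_coe.1 hT)
      obtain ⟨n1, n2, n3, n4, n5, n6⟩ := hN
      rw [mem_coe, mem_sigma]
      refine ⟨?_, ?_⟩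
      · show (T.1.1, T.2.1.2) ∈ ((I A).erase 0) ×ˢ ((I B).erase 0)
        rw [mem_product, mem_erase, mem_erase, mem_I, mem_I]
        exact ⟨⟨n1, hp1.1⟩, n4, hp2.2⟩
      · refine mFac_mem (mul_ne_zero n1 n4) ⟨T.1.2, ?_⟩
        unfold wd at hW
        show T.1.1 * T.2.1.2 = T.2.1.1 * T.1.2
        linear_combination hW
    · intro T hT S hS hTS
      obtain ⟨hp1, hp2, hp3, hR, hN, hG, hW⟩ := P_mem (mem_coe.1 hT)
      obtain ⟨hq1, hq2, hq3, hR', hN', hG', hW'⟩ := P_mem (mem_coe.1 hS)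
      obtain ⟨⟨x1, z1⟩, ⟨x2, z2⟩, ⟨x3, z3⟩⟩ := T
      obtain ⟨⟨u1, w1⟩, ⟨u2, w2⟩, ⟨u3, w3⟩⟩ := S
      simp only [Sigma.mk.injEq, Prod.mk.injEq, heq_eq_eq] at hTS
      obtain ⟨⟨rfl, rfl⟩, rfl⟩ := hTS
      unfold Rl at hR hR'
      unfold NZ at hN
      unfold Dg at hG
      unfold wd at hW hW' hR hR'
      simp only at hp1 hp2 hp3 hR hN hG hW hq1 hq2 hq3 hR' hW'
      obtain ⟨n1, n2, n3, n4, n5, n6⟩ := hN
      have hz1 : z1 = w1 := by
        refine mul_right_cancel₀ n3 ?_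
        linear_combination hW' - hW
      subst hz1
      obtain ⟨r1, r2, r3, r4, r5⟩ := hR
      obtain ⟨s1, s2, s3, s4, s5⟩ := hR'
      have hx3 : x3 = u3 := by
        refine P_eq_of_dvd (c := c) (M := A) hp3.1 hq3.1 (by omega) ?_
        have e : (c : ℤ) ∣ (x3 - u3) * (1 + β * x2 * z1) := by
          have e1 := dvd_sub r4 s4
          have e2 := Dvd.dvd.mul_left (dvd_sub r2 s2) (β * x2)
          have e3 := dvd_sub e1 e2
          have e4 : (x3 - u3) * (1 + β * x2 * z1) =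
              x1 + x2 + x3 + β * x1 * x2 * z3 - (x1 + x2 + u3 + β * x1 * x2 * w3) -
                β * x2 * (x1 * z3 - z1 * x3 - (x1 * w3 - z1 * u3)) := by ring
          rw [e4]
          exact e3
        exact (hcp.dvd_or_dvd e).resolve_right hG
      subst hx3
      have hz3 : z3 = w3 := by
        refine P_eq_of_dvd (c := c) (M := B) hp3.2 hq3.2 (by omega) ?_
        have e1 := dvd_sub r5 s5
        have e4 : z3 - w3 = z1 + z2 + z3 + β * x3 * z1 * z2 - (z1 + z2 + w3 + β * x3 * z1 * z2) := by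
          ring
        rw [e4]
        exact e1
      subst hz3
      rfl
  rw [card_sigma] at h1
  have h2 : ((SolP c β A B).card : ℝ) ≤ ∑ j ∈ X, ((mFac_idiv (j.1 * j.2)).card : ℝ) := by
    exact_mod_cast h1
  refine h2.trans ?_
  calc ∑ j ∈ X, ((mFac_idiv (j.1 * j.2)).card : ℝ) ≤ ∑ _j ∈ X, 2 * D := by
        refine sum_le_sum fun j hj => (mFac_card _).trans ?_
        have hj' : j ∈ ((I A).erase 0) ×ˢ ((I B).erase 0) := hj
        rw [mem_product, mem_erase, mem_erase, mem_I', mem_I'] at hj'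
        obtain ⟨⟨a1, a2⟩, a3, a4⟩ := hj'
        have h3 : (j.1 * j.2).natAbs ≤ A * B := by
          rw [Int.natAbs_mul]
          exact Nat.mul_le_mul a2 a4
        have h4 : 1 ≤ (j.1 * j.2).natAbs :=
          Nat.one_le_iff_ne_zero.2 (Int.natAbs_ne_zero.2 (mul_ne_zero a1 a3))
        have := hD _ h4 h3
        linarith
    _ = X.card * (2 * D) := by rw [sum_const, nsmul_eq_mul]
    _ = 8 * D * A * B := by rw [hXc]; push_cast; ring

end Pool.Agent.Helper89.HX
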