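import Pool.Agent.Helper45.HX.Com

/-! Project HX (MP_e188f1_nt), module Pr (helper45). -/

set_option autoImplicit false

namespace Pool.Agent.Helper89.HX

open Finset Pool.Agent.Helper56.SW

/-- the lattice `r` has a reduced basis of small scale -/
def PrQ (c A B r : ℕ) : Prop :=
  ∃ (k : ℕ) (e f : ℤ × ℤ), Bs c A B k (r : ℤ) e f ∧ 48 * 8 ^ k < c

/-- both members of a pair lie in the same lattice -/
theorem Pr_lat {c A B : ℕ} {β : ℤ} (hc : c.Prime) (hβ : ¬ (c : ℤ) ∣ β) (hAB : A ≤ B)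
    (hB : 4 * B < c) {T T' : Tp} (hT : T ∈ SolG c β A B) (hT' : T' ∈ SolG c β A B)
    (hsg : sg T = sg T') :
    ∃ r : ℕ, r < c ∧ PrQ c A B r ∧ T.1 ∈ La c r A B ∧ T.2.1 ∈ La c r A B ∧ T.2.2 ∈ La c r A B ∧
      T'.1 ∈ La c r A B ∧ T'.2.1 ∈ La c r A B ∧ T'.2.2 ∈ La c r A B ∧
      (c : ℤ) ∣ px T - px T' := by
  obtain ⟨h1, lam, k, e, f, hb, hk, g1, g2, g3⟩ := c45_SolG.mp hT
  obtain ⟨h1', lam', k', e', f', hb', hk', g1', g2', g3'⟩ := c45_SolG.mp hT'
  obtain ⟨hs, hnz, -, -⟩ := c45_SolN h1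
  obtain ⟨hs', hnz', -, -⟩ := c45_SolN h1'
  obtain ⟨⟨b1, b2, b3⟩, -, -, -, r4, -⟩ := c45_Sol hs
  obtain ⟨⟨b1', b2', b3'⟩, -, -, -, r4', -⟩ := c45_Sol hs'
  have hA : 4 * A < c := by omega
  have s1 := c45_sum r4 g3
  have s1' := c45_sum r4' g3'
  have ux1 := c45_unit hA hnz.1 b1.1
  have ux2 := c45_unit hA hnz.2.2.1 b2.1
  have ux3 := c45_unit hA hnz.2.2.2.2.1 b3.1
  have uz1 := c45_unit hB hnz.2.1 b1.2
  have upx : ¬ (c : ℤ) ∣ px T := c45_mul hc (c45_mul hc ux1 ux2) ux3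
  have ulam : ¬ (c : ℤ) ∣ lam := by
    intro h
    apply uz1
    have e : T.1.2 = (T.1.2 - lam * T.1.1) + lam * T.1.1 := by ring
    rw [e]
    exact dvd_add g1 (Dvd.dvd.mul_right h _)
  have us : ¬ (c : ℤ) ∣ (sg T).1 := by
    intro h
    have e : β * lam * px T = ((sg T).1 + β * lam * px T) - (sg T).1 := by ring
    have h2 : (c : ℤ) ∣ β * lam * px T := by
      rw [e]
      exact dvd_sub s1 h
    exact c45_mul hc (c45_mul hc hβ ulam) upx h2
  have z1 : (c : ℤ) ∣ (sg T).2 - lam * (sg T).1 := by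
    have e : (sg T).2 - lam * (sg T).1 = (T.1.2 - lam * T.1.1) + (T.2.1.2 - lam * T.2.1.1) +
        (T.2.2.2 - lam * T.2.2.1) := by
      unfold sg
      ring
    rw [e]
    exact dvd_add (dvd_add g1 g2) g3
  have z1' : (c : ℤ) ∣ (sg T').2 - lam' * (sg T').1 := by
    have e : (sg T').2 - lam' * (sg T').1 = (T'.1.2 - lam' * T'.1.1) +
        (T'.2.1.2 - lam' * T'.2.1.1) + (T'.2.2.2 - lam' * T'.2.2.1) := by
      unfold sg
      ring
    rw [e]
    exact dvd_add (dvd_add g1' g2') g3'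
  have hll : (c : ℤ) ∣ lam' - lam := by
    refine c45_cancel hc us ?_
    have e : (sg T).1 * (lam' - lam) =
        ((sg T).2 - lam * (sg T).1) - ((sg T').2 - lam' * (sg T').1) := by
      rw [← hsg]
      ring
    rw [e]
    exact dvd_sub z1 z1'
  obtain ⟨r, hr, hlr⟩ := c45_red hc lam
  have hl'r : (c : ℤ) ∣ lam' - r := by
    have e : lam' - r = (lam' - lam) + (lam - r) := by ring
    rw [e]
    exact dvd_add hll hlr
  refine ⟨r, hr, ⟨k, e, f, c45_Bs_shift hlr hb, hk⟩, ?_, ?_, ?_, ?_, ?_, ?_, ?_⟩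
  · exact c45_La.mpr ⟨b1, c45_shift hlr g1⟩
  · exact c45_La.mpr ⟨b2, c45_shift hlr g2⟩
  · exact c45_La.mpr ⟨b3, c45_shift hlr g3⟩
  · exact c45_La.mpr ⟨b1', c45_shift hl'r g1'⟩
  · exact c45_La.mpr ⟨b2', c45_shift hl'r g2'⟩
  · exact c45_La.mpr ⟨b3', c45_shift hl'r g3'⟩
  · refine c45_cancel hc (a := β * lam) (c45_mul hc hβ ulam) ?_
    have e : β * lam * (px T - px T') =
        ((sg T).1 + β * lam * px T) - ((sg T').1 + β * lam' * px T') +
          β * px T' * (lam' - lam) := by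
      rw [hsg]
      ring
    rw [e]
    exact dvd_add (dvd_sub s1 s1') (Dvd.dvd.mul_left hll _)

/-- coordinates in a basis are unique -/
theorem Pr_uniq {e f : ℤ × ℤ} (h : wd e f ≠ 0) {m n m' n' : ℤ}
    (h1 : m * e.1 + n * f.1 = m' * e.1 + n' * f.1)
    (h2 : m * e.2 + n * f.2 = m' * e.2 + n' * f.2) : m = m' ∧ n = n' := by
  unfold wd at h
  constructor
  · apply mul_left_cancel₀ h
    linear_combination f.2 * h1 - f.1 * h2
  · apply mul_left_cancel₀ h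
    linear_combination (-e.2) * h1 + e.1 * h2

/-- the set of possible coordinates -/
noncomputable def PrM (c A B k : ℕ) : Finset (ℤ × ℤ) :=
  (I (2 ^ (k + 1))) ×ˢ (I (24 * A * B / (c * 2 ^ k)))

theorem Pr_M_card {c A B k : ℕ} (hc : 0 < c) (h : c * 2 ^ k ≤ 24 * A * B) :
    ((PrM c A B k).card : ℝ) ≤ 360 * A * B / c := by
  have hcr : (0 : ℝ) < c := by exact_mod_cast hc
  have hk : (0 : ℝ) < 2 ^ k := by positivity
  have hk1 : (1 : ℝ) ≤ 2 ^ k := one_le_pow₀ (by norm_num)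
  unfold PrM
  rw [card_product, card_I, card_I]
  push_cast
  have h1 : ((24 * A * B / (c * 2 ^ k) : ℕ) : ℝ) ≤ (24 * A * B : ℝ) / (c * 2 ^ k) := by
    refine (Nat.cast_div_le).trans (le_of_eq ?_)
    push_cast
    rfl
  have h2 : (1 : ℝ) ≤ (24 * A * B : ℝ) / (c * 2 ^ k) := by
    rw [le_div_iff₀ (by positivity), one_mul]
    exact_mod_cast h
  have h3 : (2 : ℝ) * 2 ^ (k + 1) + 1 ≤ 5 * 2 ^ k := by
    rw [pow_succ]
    linarith
  calc ((2 : ℝ) * 2 ^ (k + 1) + 1) * (2 * ((24 * A * B / (c * 2 ^ k) : ℕ) : ℝ) + 1)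
      ≤ (5 * 2 ^ k) * (3 * ((24 * A * B : ℝ) / (c * 2 ^ k))) := by
        apply mul_le_mul h3 _ (by positivity) (by positivity)
        linarith
    _ = 360 * A * B / c := by
        field_simp
        ring

theorem Pr_M_mem {c A B k : ℕ} (hc : 0 < c) {m n : ℤ} (hm : |m| ≤ 2 ^ (k + 1))
    (hn : |n| * (c * 2 ^ k) ≤ 24 * A * B) : (m, n) ∈ PrM c A B k := by
  unfold PrM
  rw [mem_product, mem_I, mem_I]
  refine ⟨by exact_mod_cast hm, ?_⟩
  show |n| ≤ ((24 * A * B / (c * 2 ^ k) : ℕ) : ℤ)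
  rw [← Int.natCast_natAbs] at hn ⊢
  have h1 : n.natAbs * (c * 2 ^ k) ≤ 24 * A * B := by exact_mod_cast hn
  have h2 : n.natAbs ≤ 24 * A * B / (c * 2 ^ k) :=
    (Nat.le_div_iff_mul_le (by positivity)).mpr h1
  exact_mod_cast h2

theorem hPr (hLam : StLam) : StPr := by
  classical
  intro c β A B hc hβ hA1 hAB hB
  have hc0 : 0 < c := hc.pos
  have hB1 : 1 ≤ B := hA1.trans hAB
  have hBc : B < c := by omega
  have hcr : (0 : ℝ) < c := by exact_mod_cast hc0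
  have hAr : (0 : ℝ) < A := by exact_mod_cast hA1
  -- the chosen bases
  have hQ : ∀ r : ℕ, ∃ (k : ℕ) (e f : ℤ × ℤ), PrQ c A B r →
      Bs c A B k (r : ℤ) e f ∧ 48 * 8 ^ k < c := by
    intro r
    by_cases h : PrQ c A B r
    · obtain ⟨k, e, f, h1⟩ := h
      exact ⟨k, e, f, fun _ => h1⟩
    · exact ⟨0, 0, 0, fun h' => absurd h' h⟩
  choose kk ee ff hbs using hQ
  have hco : ∀ (r : ℕ) (P : ℤ × ℤ), ∃ mn : ℤ × ℤ, PrQ c A B r → P ∈ La c r A B →
      P = (mn.1 * (ee r).1 + mn.2 * (ff r).1, mn.1 * (ee r).2 + mn.2 * (ff r).2) ∧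
        |mn.1| ≤ 2 ^ (kk r + 1) ∧ |mn.2| ≤ 2 ^ (kk r + 1) ∧
        |mn.2| * (c * 2 ^ (kk r)) ≤ 24 * A * B := by
    intro r P
    by_cases h : PrQ c A B r ∧ P ∈ La c r A B
    · obtain ⟨m, n, h1⟩ := (hbs r h.1).1.comb P h.2
      exact ⟨(m, n), fun _ _ => h1⟩
    · exact ⟨0, fun h1 h2 => absurd ⟨h1, h2⟩ h⟩
  choose co hco using hco
  have hrr : ∀ q : Tp × Tp, ∃ r : ℕ, q ∈ Pr c β A B →
      r < c ∧ PrQ c A B r ∧ q.1.1 ∈ La c r A B ∧ q.1.2.1 ∈ La c r A B ∧ q.1.2.2 ∈ La c r A B ∧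
      q.2.1 ∈ La c r A B ∧ q.2.2.1 ∈ La c r A B ∧ q.2.2.2 ∈ La c r A B ∧
      (c : ℤ) ∣ px q.1 - px q.2 := by
    intro q
    by_cases h : q ∈ Pr c β A B
    · have h' := h
      unfold Pr at h'
      rw [mem_filter, mem_product] at h'
      obtain ⟨r, hr⟩ := Pr_lat hc hβ hAB hB h'.1.1 h'.1.2 h'.2.1
      exact ⟨r, fun _ => hr⟩
    · exact ⟨0, fun h' => absurd h' h⟩
  choose rr hrr using hrr
  -- the last factor
  let X : (ℤ × ℤ) × (ℤ × ℤ) × (ℤ × ℤ) × (ℤ × ℤ) × (ℤ × ℤ) → ℕ → ℤ × ℤ → ℤ × ℤ → Prop :=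
    fun v k e f =>
      (∀ i : Fin 3, |![v.1.1, v.2.1.1, v.2.2.1.1] i| ≤ 2 ^ (k + 1) ∧
        |![v.1.2, v.2.1.2, v.2.2.1.2] i| ≤ 2 ^ (k + 1) ∧
        |![v.2.2.2.1.1, v.2.2.2.2.1,
          v.1.1 + v.2.1.1 + v.2.2.1.1 - v.2.2.2.1.1 - v.2.2.2.2.1] i| ≤ 2 ^ (k + 1) ∧
        |![v.2.2.2.1.2, v.2.2.2.2.2,
          v.1.2 + v.2.1.2 + v.2.2.1.2 - v.2.2.2.1.2 - v.2.2.2.2.2] i| ≤ 2 ^ (k + 1)) ∧
      (v.1.1 * e.1 + v.1.2 * f.1) * (v.2.1.1 * e.1 + v.2.1.2 * f.1) *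
        (v.2.2.1.1 * e.1 + v.2.2.1.2 * f.1) ≠
      (v.2.2.2.1.1 * e.1 + v.2.2.2.1.2 * f.1) * (v.2.2.2.2.1 * e.1 + v.2.2.2.2.2 * f.1) *
        ((v.1.1 + v.2.1.1 + v.2.2.1.1 - v.2.2.2.1.1 - v.2.2.2.2.1) * e.1 +
          (v.1.2 + v.2.1.2 + v.2.2.1.2 - v.2.2.2.1.2 - v.2.2.2.2.2) * f.1) ∧
      (c : ℤ) ∣ (v.1.1 * e.1 + v.1.2 * f.1) * (v.2.1.1 * e.1 + v.2.1.2 * f.1) *
        (v.2.2.1.1 * e.1 + v.2.2.1.2 * f.1) -
      (v.2.2.2.1.1 * e.1 + v.2.2.2.1.2 * f.1) * (v.2.2.2.2.1 * e.1 + v.2.2.2.2.2 * f.1) *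
        ((v.1.1 + v.2.1.1 + v.2.2.1.1 - v.2.2.2.1.1 - v.2.2.2.2.1) * e.1 +
          (v.1.2 + v.2.1.2 + v.2.2.1.2 - v.2.2.2.1.2 - v.2.2.2.2.2) * f.1)
  let S : ℕ → (ℤ × ℤ) × (ℤ × ℤ) × (ℤ × ℤ) × (ℤ × ℤ) × (ℤ × ℤ) → Finset ℕ := fun k v =>
    (range c).filter fun r => PrQ c A B r ∧ kk r = k ∧ X v k (ee r) (ff r)
  have hS : ∀ k v, ((S k v).card : ℝ) ≤ 3 * 49 ^ 4 * B / A := by
    intro k v
    rcases (S k v).eq_empty_or_nonempty with hE | ⟨r, hr⟩
    · rw [hE, card_empty]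
      push_cast
      positivity
    · rw [mem_filter, mem_range] at hr
      obtain ⟨-, hq, hk, hX1, hX2, hX3⟩ := hr
      have hb := hbs r hq
      rw [hk] at hb
      refine hLam c A B k ![v.1.1, v.2.1.1, v.2.2.1.1] ![v.1.2, v.2.1.2, v.2.2.1.2]
        ![v.2.2.2.1.1, v.2.2.2.2.1, v.1.1 + v.2.1.1 + v.2.2.1.1 - v.2.2.2.1.1 - v.2.2.2.2.1]
        ![v.2.2.2.1.2, v.2.2.2.2.2, v.1.2 + v.2.1.2 + v.2.2.1.2 - v.2.2.2.1.2 - v.2.2.2.2.2]
        (S k v) hc hA1 hAB hBc hb.2 hX1 ⟨(ee r).1, (ff r).1, ?_⟩ ?_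
      · exact hX2
      · intro lam hlam
        rw [mem_filter, mem_range] at hlam
        obtain ⟨l1, l2, l3, l4, l5, l6⟩ := hlam
        have hb' := hbs lam l2
        rw [l3] at hb'
        exact ⟨l1, ee lam, ff lam, hb'.1, l6⟩
  -- the target
  let M5 : ℕ → Finset ((ℤ × ℤ) × (ℤ × ℤ) × (ℤ × ℤ) × (ℤ × ℤ) × (ℤ × ℤ)) := fun k =>
    (PrM c A B k) ×ˢ (PrM c A B k) ×ˢ (PrM c A B k) ×ˢ (PrM c A B k) ×ˢ (PrM c A B k)
  have hmaps : (Pr c β A B).card ≤ ∑ k ∈ range (Nat.log 2 c + 1), ∑ v ∈ M5 k, (S k v).card := by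
    have e1 : ∀ k, ∑ v ∈ M5 k, (S k v).card = ((M5 k).sigma fun v => S k v).card := by
      intro k
      rw [card_sigma]
    simp_rw [e1]
    rw [← card_sigma]
    refine card_le_card_of_injOn (fun q =>
      (⟨kk (rr q), ⟨(co (rr q) q.1.1, co (rr q) q.1.2.1, co (rr q) q.1.2.2, co (rr q) q.2.1,
        co (rr q) q.2.2.1), rr q⟩⟩ : (_ : ℕ) × (_ : (ℤ × ℤ) × (ℤ × ℤ) × (ℤ × ℤ) × (ℤ × ℤ) ×
          (ℤ × ℤ)) × ℕ)) ?_ ?_
    · intro q hq
      rw [mem_coe] at hq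
      have hq' := hq
      unfold Pr at hq'
      rw [mem_filter, mem_product] at hq'
      obtain ⟨-, hsg, hpx⟩ := hq'
      obtain ⟨hr, hPQ, m1, m2, m3, m1', m2', m3', hd⟩ := hrr q hq
      obtain ⟨hb, hk⟩ := hbs (rr q) hPQ
      obtain ⟨a1, a2, a3, a4⟩ := hco (rr q) _ hPQ m1
      obtain ⟨b1, b2, b3, b4⟩ := hco (rr q) _ hPQ m2
      obtain ⟨c1, c2, c3, c4⟩ := hco (rr q) _ hPQ m3
      obtain ⟨a1', a2', a3', a4'⟩ := hco (rr q) _ hPQ m1'
      obtain ⟨b1', b2', b3', b4'⟩ := hco (rr q) _ hPQ m2'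
      obtain ⟨c1', c2', c3', c4'⟩ := hco (rr q) _ hPQ m3'
      have hwd : wd (ee (rr q)) (ff (rr q)) ≠ 0 := by
        intro h0
        have := hb.det
        rw [h0, abs_zero] at this
        exact hc0.ne (by exact_mod_cast this)
      have a5 := congrArg Prod.fst a1
      have a6 := congrArg Prod.snd a1
      have b5 := congrArg Prod.fst b1
      have b6 := congrArg Prod.snd b1
      have c5 := congrArg Prod.fst c1
      have c6 := congrArg Prod.snd c1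
      have a5' := congrArg Prod.fst a1'
      have a6' := congrArg Prod.snd a1'
      have b5' := congrArg Prod.fst b1'
      have b6' := congrArg Prod.snd b1'
      have c5' := congrArg Prod.fst c1'
      have c6' := congrArg Prod.snd c1'
      simp only at a5 a6 b5 b6 c5 c6 a5' a6' b5' b6' c5' c6'
      have s5 : q.1.1.1 + q.1.2.1.1 + q.1.2.2.1 = q.2.1.1 + q.2.2.1.1 + q.2.2.2.1 :=
        congrArg Prod.fst hsg
      have s6 : q.1.1.2 + q.1.2.1.2 + q.1.2.2.2 = q.2.1.2 + q.2.2.1.2 + q.2.2.2.2 :=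
        congrArg Prod.snd hsg
      set r := rr q with hrdef
      obtain ⟨u1, u2⟩ := Pr_uniq hwd (m := (co r q.1.1).1 + (co r q.1.2.1).1 + (co r q.1.2.2).1 -
          (co r q.2.1).1 - (co r q.2.2.1).1)
        (n := (co r q.1.1).2 + (co r q.1.2.1).2 + (co r q.1.2.2).2 -
          (co r q.2.1).2 - (co r q.2.2.1).2)
        (m' := (co r q.2.2.2).1) (n' := (co r q.2.2.2).2)
        (by linear_combination s5 - a5 - b5 - c5 + a5' + b5' + c5')
        (by linear_combination s6 - a6 - b6 - c6 + a6' + b6' + c6')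
      rw [mem_coe, mem_sigma]
      refine ⟨?_, ?_⟩
      · show kk r ∈ range (Nat.log 2 c + 1)
        rw [mem_range, Nat.lt_succ_iff]
        apply Nat.le_log_of_pow_le (by norm_num)
        have h8 : (2 : ℕ) ^ kk r ≤ 8 ^ kk r := Nat.pow_le_pow_left (by norm_num) _
        omega
      · rw [mem_sigma]
        refine ⟨?_, ?_⟩
        · show _ ∈ (PrM c A B (kk r)) ×ˢ (PrM c A B (kk r)) ×ˢ (PrM c A B (kk r)) ×ˢ
            (PrM c A B (kk r)) ×ˢ (PrM c A B (kk r))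
          simp only [mem_product]
          exact ⟨Pr_M_mem hc0 a2 a4, Pr_M_mem hc0 b2 b4, Pr_M_mem hc0 c2 c4,
            Pr_M_mem hc0 a2' a4', Pr_M_mem hc0 b2' b4'⟩
        · show r ∈ (range c).filter fun r' => PrQ c A B r' ∧ kk r' = kk r ∧
            X (co r q.1.1, co r q.1.2.1, co r q.1.2.2, co r q.2.1, co r q.2.2.1) (kk r)
              (ee r') (ff r')
          rw [mem_filter, mem_range]
          refine ⟨hr, hPQ, rfl, ?_, ?_, ?_⟩
          · show ∀ i : Fin 3, |![(co r q.1.1).1, (co r q.1.2.1).1, (co r q.1.2.2).1] i| ≤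
              2 ^ (kk r + 1) ∧
              |![(co r q.1.1).2, (co r q.1.2.1).2, (co r q.1.2.2).2] i| ≤ 2 ^ (kk r + 1) ∧
              |![(co r q.2.1).1, (co r q.2.2.1).1,
                (co r q.1.1).1 + (co r q.1.2.1).1 + (co r q.1.2.2).1 -
                (co r q.2.1).1 - (co r q.2.2.1).1] i| ≤ 2 ^ (kk r + 1) ∧
              |![(co r q.2.1).2, (co r q.2.2.1).2,
                (co r q.1.1).2 + (co r q.1.2.1).2 + (co r q.1.2.2).2 -
                (co r q.2.1).2 - (co r q.2.2.1).2] i| ≤ 2 ^ (kk r + 1)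
            rw [u1, u2]
            intro i
            fin_cases i
            · exact ⟨a2, a3, a2', a3'⟩
            · exact ⟨b2, b3, b2', b3'⟩
            · exact ⟨c2, c3, c2', c3'⟩
          · show ((co r q.1.1).1 * (ee r).1 + (co r q.1.1).2 * (ff r).1) *
              ((co r q.1.2.1).1 * (ee r).1 + (co r q.1.2.1).2 * (ff r).1) *
              ((co r q.1.2.2).1 * (ee r).1 + (co r q.1.2.2).2 * (ff r).1) ≠
              ((co r q.2.1).1 * (ee r).1 + (co r q.2.1).2 * (ff r).1) *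
              ((co r q.2.2.1).1 * (ee r).1 + (co r q.2.2.1).2 * (ff r).1) *
              (((co r q.1.1).1 + (co r q.1.2.1).1 + (co r q.1.2.2).1 -
                (co r q.2.1).1 - (co r q.2.2.1).1) * (ee r).1 +
              ((co r q.1.1).2 + (co r q.1.2.1).2 + (co r q.1.2.2).2 -
                (co r q.2.1).2 - (co r q.2.2.1).2) * (ff r).1)
            rw [u1, u2, ← a5, ← b5, ← c5, ← a5', ← b5', ← c5']
            exact hpx
          · show (c : ℤ) ∣ ((co r q.1.1).1 * (ee r).1 + (co r q.1.1).2 * (ff r).1) *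
              ((co r q.1.2.1).1 * (ee r).1 + (co r q.1.2.1).2 * (ff r).1) *
              ((co r q.1.2.2).1 * (ee r).1 + (co r q.1.2.2).2 * (ff r).1) -
              ((co r q.2.1).1 * (ee r).1 + (co r q.2.1).2 * (ff r).1) *
              ((co r q.2.2.1).1 * (ee r).1 + (co r q.2.2.1).2 * (ff r).1) *
              (((co r q.1.1).1 + (co r q.1.2.1).1 + (co r q.1.2.2).1 -
                (co r q.2.1).1 - (co r q.2.2.1).1) * (ee r).1 +
              ((co r q.1.1).2 + (co r q.1.2.1).2 + (co r q.1.2.2).2 -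
                (co r q.2.1).2 - (co r q.2.2.1).2) * (ff r).1)
            rw [u1, u2, ← a5, ← b5, ← c5, ← a5', ← b5', ← c5']
            exact hd
    · intro q hq q' hq' he
      rw [mem_coe] at hq hq'
      have hs := hq
      have hs' := hq'
      unfold Pr at hs hs'
      rw [mem_filter, mem_product] at hs hs'
      obtain ⟨-, hsg, -⟩ := hs
      obtain ⟨-, hsg', -⟩ := hs'
      simp only [Sigma.mk.injEq, heq_eq_eq, Prod.mk.injEq] at he
      obtain ⟨-, ⟨e1, e2, e3, e4, e5⟩, er⟩ := he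
      rw [← er] at e1 e2 e3 e4 e5
      obtain ⟨hr, hPQ, m1, m2, m3, m1', m2', m3', hd⟩ := hrr q hq
      obtain ⟨hr', hPQ', n1, n2, n3, n1', n2', n3', hd'⟩ := hrr q' hq'
      rw [← er] at n1 n2 n3 n1' n2' n3'
      have key : ∀ P P' : ℤ × ℤ, P ∈ La c (rr q) A B → P' ∈ La c (rr q) A B →
          co (rr q) P = co (rr q) P' → P = P' := by
        intro P P' h1 h2 h3
        rw [(hco (rr q) P hPQ h1).1, (hco (rr q) P' hPQ h2).1, h3]
      have f1 := key _ _ m1 n1 e1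
      have f2 := key _ _ m2 n2 e2
      have f3 := key _ _ m3 n3 e3
      have f4 := key _ _ m1' n1' e4
      have f5 := key _ _ m2' n2' e5
      have f6 : q.2.2.2 = q'.2.2.2 := by
        have g1 := congrArg Prod.fst hsg
        have g2 := congrArg Prod.snd hsg
        have g1' := congrArg Prod.fst hsg'
        have g2' := congrArg Prod.snd hsg'
        unfold sg at g1 g2 g1' g2'
        simp only at g1 g2 g1' g2'
        rw [f1, f2, f3, f4, f5] at g1 g2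
        exact Prod.ext (by linarith) (by linarith)
      exact Prod.ext (Prod.ext f1 (Prod.ext f2 f3)) (Prod.ext f4 (Prod.ext f5 f6))
  have hin : ∀ k, ∑ v ∈ M5 k, ((S k v).card : ℝ) ≤
      (360 * A * B / c) ^ 5 * (3 * 49 ^ 4 * B / A) := by
    intro k
    by_cases hex : ∃ r, PrQ c A B r ∧ kk r = k
    · obtain ⟨r, hr1, hr2⟩ := hex
      have hle := (hbs r hr1).1.le
      rw [hr2] at hle
      have hM := Pr_M_card hc0 hle
      have hM0 : (0 : ℝ) ≤ (PrM c A B k).card := by positivity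
      calc ∑ v ∈ M5 k, ((S k v).card : ℝ) ≤ ∑ _v ∈ M5 k, (3 * 49 ^ 4 * B / A : ℝ) :=
            sum_le_sum fun v _ => hS k v
        _ = ((PrM c A B k).card : ℝ) ^ 5 * (3 * 49 ^ 4 * B / A) := by
            rw [sum_const, nsmul_eq_mul, card_product, card_product, card_product, card_product]
            push_cast
            ring
        _ ≤ _ := by
            apply mul_le_mul_of_nonneg_right _ (by positivity)
            exact pow_le_pow_left₀ hM0 hM 5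
    · have h0 : ∀ v ∈ M5 k, ((S k v).card : ℝ) = 0 := by
        intro v _
        have : S k v = ∅ := by
          rw [Finset.eq_empty_iff_forall_notMem]
          intro r hr
          rw [mem_filter] at hr
          exact hex ⟨r, hr.2.1, hr.2.2.1⟩
        rw [this, card_empty, Nat.cast_zero]
      rw [sum_eq_zero h0]
      positivity
  calc ((Pr c β A B).card : ℝ)
      ≤ ∑ k ∈ range (Nat.log 2 c + 1), ∑ v ∈ M5 k, ((S k v).card : ℝ) := by exact_mod_cast hmaps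
    _ ≤ ∑ _k ∈ range (Nat.log 2 c + 1), ((360 * A * B / c) ^ 5 * (3 * 49 ^ 4 * B / A) : ℝ) :=
        sum_le_sum fun k _ => hin k
    _ = (Nat.log 2 c + 1) * (360 * A * B / c) ^ 5 * (3 * 49 ^ 4 * B / A) := by
        rw [sum_const, card_range, nsmul_eq_mul]
        push_cast
        ring

end Pool.Agent.Helper89.HX
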