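import Pool.Agent.Helper89.HX.St
import Pool.Agent.Helper56.SW.Basic

/-!
# HX module Red: from the word count to the count of solutions
-/

set_option autoImplicit false

namespace Pool.Agent.Helper89.HX

open Finset Matrix Pool.Agent.Helper56.SW

noncomputable section

/-- the group -/
abbrev Red_G (c : ℕ) : Type := Matrix.SpecialLinearGroup (Fin 2) (ZMod c)

/-- upper unipotent -/
def Red_u (c : ℕ) (a x : ℤ) : Red_G c :=
  ⟨!![1, (a : ZMod c) * x; 0, 1], by simp [Matrix.det_fin_two_of]⟩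

/-- lower unipotent -/
def Red_l (c : ℕ) (b y : ℤ) : Red_G c :=
  ⟨!![1, 0; (b : ZMod c) * y, 1], by simp [Matrix.det_fin_two_of]⟩

/-- scalar -/
def Red_s (c γ : ℕ) (h : ((γ : ZMod c)) ^ 2 = 1) : Red_G c :=
  ⟨!![(γ : ZMod c), 0; 0, γ], by
    rw [Matrix.det_fin_two_of]
    linear_combination h⟩

theorem Red_u_coe (c : ℕ) (a x : ℤ) :
    (Red_u c a x : Matrix (Fin 2) (Fin 2) (ZMod c)) = !![1, (a : ZMod c) * x; 0, 1] := rfl

theorem Red_l_coe (c : ℕ) (b y : ℤ) :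
    (Red_l c b y : Matrix (Fin 2) (Fin 2) (ZMod c)) = !![1, 0; (b : ZMod c) * y, 1] := rfl

theorem Red_s_coe (c γ : ℕ) (h : ((γ : ZMod c)) ^ 2 = 1) :
    (Red_s c γ h : Matrix (Fin 2) (Fin 2) (ZMod c)) = !![(γ : ZMod c), 0; 0, γ] := rfl

theorem Red_u_add (c : ℕ) (a x y : ℤ) : Red_u c a (x + y) = Red_u c a x * Red_u c a y := by
  apply Subtype.ext
  rw [Matrix.SpecialLinearGroup.coe_mul, Red_u_coe, Red_u_coe, Red_u_coe, Matrix.mul_fin_two]
  ext i j
  fin_cases i <;> fin_cases j <;> simp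
  ring

theorem Red_l_add (c : ℕ) (b x y : ℤ) : Red_l c b (x + y) = Red_l c b x * Red_l c b y := by
  apply Subtype.ext
  rw [Matrix.SpecialLinearGroup.coe_mul, Red_l_coe, Red_l_coe, Red_l_coe, Matrix.mul_fin_two]
  ext i j
  fin_cases i <;> fin_cases j <;> simp
  ring

theorem Red_s_comm (c γ : ℕ) (h : ((γ : ZMod c)) ^ 2 = 1) (g : Red_G c) :
    Red_s c γ h * g = g * Red_s c γ h := by
  apply Subtype.ext
  rw [Matrix.SpecialLinearGroup.coe_mul, Matrix.SpecialLinearGroup.coe_mul, Red_s_coe]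
  have e : (!![(γ : ZMod c), 0; 0, γ] : Matrix (Fin 2) (Fin 2) (ZMod c)) =
      (γ : ZMod c) • (1 : Matrix (Fin 2) (Fin 2) (ZMod c)) := by
    ext i j
    fin_cases i <;> fin_cases j <;> simp
  rw [e, Matrix.smul_mul, Matrix.mul_smul, Matrix.one_mul, Matrix.mul_one]

/-- the matrix of a word with six letters -/
theorem Red_word (c : ℕ) (a b : ℤ) (T : Tp) :
    ((Red_u c a T.1.1 * Red_l c b T.1.2 * (Red_u c a T.2.1.1 * Red_l c b T.2.1.2) *
      (Red_u c a T.2.2.1 * Red_l c b T.2.2.2) : Red_G c) : Matrix (Fin 2) (Fin 2) (ZMod c)) =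
    !![((E a b [T.2.2, T.2.1, T.1] 0 0 : ℤ) : ZMod c), ((E a b [T.2.2, T.2.1, T.1] 0 1 : ℤ) : ZMod c);
      ((E a b [T.2.2, T.2.1, T.1] 1 0 : ℤ) : ZMod c), ((E a b [T.2.2, T.2.1, T.1] 1 1 : ℤ) : ZMod c)] := by
  obtain ⟨⟨h1, k1⟩, ⟨h2, k2⟩, ⟨h3, k3⟩⟩ := T
  simp only [Matrix.SpecialLinearGroup.coe_mul, Red_u_coe, Red_l_coe, Matrix.mul_fin_two]
  ext i j
  fin_cases i <;> fin_cases j <;>
    simp [E_cons_00, E_cons_01, E_cons_10, E_cons_11]

theorem Red_W_eq {G : Type} [Group G] [DecidableEq G] (u l : ℤ → G) (g : G) (A B : ℕ) :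
    W u l g A B = ((bo A B ×ˢ bo A B ×ˢ bo A B).filter fun T =>
      u T.1.1 * l T.1.2 * (u T.2.1.1 * l T.2.1.2) * (u T.2.2.1 * l T.2.2.2) = g).card := by
  unfold W
  congr

theorem Red_N_le (c : ℕ) (a b : ℤ) (A B γ : ℕ) (h : ((γ : ZMod c)) ^ 2 = 1) :
    (by classical exact ((bx (I A) (I B) 3).filter fun l => Rel c a b γ l).card : ℕ) ≤
      W (Red_u c a) (Red_l c b) (Red_s c γ h) A B := by
  classical
  rw [Red_W_eq]
  apply Finset.card_le_card_of_injOn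
    (fun l => (l.getD 2 (0, 0), l.getD 1 (0, 0), l.getD 0 (0, 0)))
  · intro l hl
    rw [Finset.mem_coe, Finset.mem_filter, mem_bx] at hl
    obtain ⟨⟨hlen, hmem⟩, hrel⟩ := hl
    obtain ⟨p3, p2, p1, rfl⟩ : ∃ p3 p2 p1, l = [p3, p2, p1] := by
      match l, hlen with
      | [x, y, z], _ => exact ⟨x, y, z, rfl⟩
    have h1 := hmem p1 (by simp)
    have h2 := hmem p2 (by simp)
    have h3 := hmem p3 (by simp)
    rw [Finset.mem_coe, Finset.mem_filter]
    refine ⟨?_, ?_⟩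
    · simp only [Finset.mem_product, bo, List.getD_cons_zero, List.getD_cons_succ]
      exact ⟨h1, h2, h3⟩
    · apply Subtype.ext
      have hw := Red_word c a b (p1, p2, p3)
      simp only [List.getD_cons_zero, List.getD_cons_succ] at hw ⊢
      rw [hw, Red_s_coe]
      obtain ⟨r1, r2, r3, r4⟩ := hrel
      have e1 : ((E a b [p3, p2, p1] 0 0 : ℤ) : ZMod c) = (γ : ZMod c) := by
        have := (ZMod.intCast_zmod_eq_zero_iff_dvd _ _).2 r1
        push_cast at this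
        linear_combination this
      have e2 : ((E a b [p3, p2, p1] 0 1 : ℤ) : ZMod c) = 0 :=
        (ZMod.intCast_zmod_eq_zero_iff_dvd _ _).2 r2
      have e3 : ((E a b [p3, p2, p1] 1 0 : ℤ) : ZMod c) = 0 :=
        (ZMod.intCast_zmod_eq_zero_iff_dvd _ _).2 r3
      have e4 : ((E a b [p3, p2, p1] 1 1 : ℤ) : ZMod c) = (γ : ZMod c) := by
        have := (ZMod.intCast_zmod_eq_zero_iff_dvd _ _).2 r4
        push_cast at this
        linear_combination this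
      rw [e1, e2, e3, e4]
  · intro l hl l' hl' hll
    rw [Finset.mem_coe, Finset.mem_filter, mem_bx] at hl hl'
    obtain ⟨⟨hlen, _⟩, _⟩ := hl
    obtain ⟨⟨hlen', _⟩, _⟩ := hl'
    obtain ⟨p3, p2, p1, rfl⟩ : ∃ p3 p2 p1, l = [p3, p2, p1] := by
      match l, hlen with
      | [x, y, z], _ => exact ⟨x, y, z, rfl⟩
    obtain ⟨q3, q2, q1, rfl⟩ : ∃ p3 p2 p1, l' = [p3, p2, p1] := by
      match l', hlen' with
      | [x, y, z], _ => exact ⟨x, y, z, rfl⟩
    simp only [List.getD_cons_zero, List.getD_cons_succ, Prod.mk.injEq] at hll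
    rw [hll.1, hll.2.1, hll.2.2]

/-- the relations of a trivial word with six letters -/
theorem Red_rels {R : Type} [CommRing R] (x1 y1 x2 y2 x3 y3 : R)
    (h : !![1, x1; 0, 1] * !![1, 0; y1, 1] * (!![1, x2; 0, 1] * !![1, 0; y2, 1]) *
      (!![1, x3; 0, 1] * !![1, 0; y3, 1]) = (1 : Matrix (Fin 2) (Fin 2) R)) :
    x1 * y1 = x3 * y2 ∧ x2 * y1 = x3 * y3 ∧ x2 * y2 = x1 * y3 ∧
      x1 + x2 + x3 + x1 * x2 * y1 = 0 ∧ y1 + y2 + y3 + x3 * y2 * y3 = 0 := by
  simp only [Matrix.mul_fin_two] at h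
  have e00 := congrFun (congrFun h 0) 0
  have e01 := congrFun (congrFun h 0) 1
  have e10 := congrFun (congrFun h 1) 0
  have e11 := congrFun (congrFun h 1) 1
  simp at e00 e01 e10 e11
  have n00 : R := 1 + x3 * y3
  refine ⟨?_, ?_, ?_, ?_, ?_⟩
  · linear_combination (y2 * x3 + 1) * e00 - (y2 * (1 + x3 * y3) + y3) * e01
  · linear_combination (1 + x3 * y3) * e11 - x3 * e10
  · linear_combination e00 - y3 * e01 - x1 * e10 + x1 * y3 * e11
  · linear_combination (1 + x3 * y3) * e01 - x3 * e00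
  · linear_combination (y2 * x3 + 1) * e10 - (y2 * (1 + x3 * y3) + y3) * e11

theorem Red_W_le (c : ℕ) (a b : ℤ) (A B : ℕ) (ha : IsCoprime a c) (hb : IsCoprime b c) :
    W (Red_u c a) (Red_l c b) 1 A B ≤ (Sol c (a * b) A B).card := by
  classical
  obtain ⟨ua, va, hua⟩ := ha
  obtain ⟨ub, vb, hub⟩ := hb
  have hA : (ua : ZMod c) * a = 1 := by
    have := congrArg (Int.cast : ℤ → ZMod c) hua
    push_cast at this
    simpa using this
  have hB : (ub : ZMod c) * b = 1 := by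
    have := congrArg (Int.cast : ℤ → ZMod c) hub
    push_cast at this
    simpa using this
  rw [Red_W_eq]
  unfold Sol
  apply Finset.card_le_card_of_injOn
    (fun T : Tp => (((T.1.1, T.2.1.2), (T.2.1.1, T.2.2.2), (T.2.2.1, T.1.2)) : Tp))
  · intro T hT
    rw [Finset.mem_coe, Finset.mem_filter] at hT
    obtain ⟨hT1, hT2⟩ := hT
    rw [Finset.mem_coe, Finset.mem_filter]
    simp only [Finset.mem_product, bo] at hT1
    refine ⟨?_, ?_⟩
    · simp only [Finset.mem_product, bo]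
      exact ⟨⟨hT1.1.1, hT1.2.1.2⟩, ⟨hT1.2.1.1, hT1.2.2.2⟩, ⟨hT1.2.2.1, hT1.1.2⟩⟩
    · have h := congrArg (fun g : Red_G c => (g : Matrix (Fin 2) (Fin 2) (ZMod c))) hT2
      simp only [Matrix.SpecialLinearGroup.coe_mul, Matrix.SpecialLinearGroup.coe_one,
        Red_u_coe, Red_l_coe] at h
      obtain ⟨r1, r2, r3, r4, r5⟩ := Red_rels _ _ _ _ _ _ h
      unfold Rl wd
      simp only []
      refine ⟨?_, ?_, ?_, ?_, ?_⟩
      · rw [← ZMod.intCast_zmod_eq_zero_iff_dvd]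
        push_cast
        linear_combination (-(ua : ZMod c) * ub) * r3 +
          ((T.2.1.2 : ZMod c) * T.2.1.1 - T.1.1 * T.2.2.2) * hA * ub * b +
          ((T.2.1.2 : ZMod c) * T.2.1.1 - T.1.1 * T.2.2.2) * hB
      · rw [← ZMod.intCast_zmod_eq_zero_iff_dvd]
        push_cast
        linear_combination ((ua : ZMod c) * ub) * r1 -
          ((T.1.1 : ZMod c) * T.1.2 - T.2.1.2 * T.2.2.1) * hA * ub * b -
          ((T.1.1 : ZMod c) * T.1.2 - T.2.1.2 * T.2.2.1) * hB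
      · rw [← ZMod.intCast_zmod_eq_zero_iff_dvd]
        push_cast
        linear_combination ((ua : ZMod c) * ub) * r2 -
          ((T.2.1.1 : ZMod c) * T.1.2 - T.2.2.2 * T.2.2.1) * hA * ub * b -
          ((T.2.1.1 : ZMod c) * T.1.2 - T.2.2.2 * T.2.2.1) * hB
      · rw [← ZMod.intCast_zmod_eq_zero_iff_dvd]
        push_cast
        linear_combination (ua : ZMod c) * r4 -
          ((T.1.1 : ZMod c) + T.2.1.1 + T.2.2.1 + a * b * T.1.1 * T.2.1.1 * T.1.2) * hA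
      · rw [← ZMod.intCast_zmod_eq_zero_iff_dvd]
        push_cast
        linear_combination (ub : ZMod c) * r5 -
          ((T.2.1.2 : ZMod c) + T.2.2.2 + T.1.2 + a * b * T.2.2.1 * T.2.1.2 * T.2.2.2) * hB
  · intro T _ T' _ hTT
    simp only [Prod.mk.injEq] at hTT
    obtain ⟨⟨h1, h2⟩, ⟨h3, h4⟩, ⟨h5, h6⟩⟩ := hTT
    exact Prod.ext (Prod.ext h1 h6) (Prod.ext (Prod.ext h3 h2) (Prod.ext h5 h4))

theorem hRed (hPos : StPos) : StRed := by
  classical
  intro c a b A B hc ha hb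
  have hsq : ∀ γ ∈ Γ c, ((γ : ZMod c)) ^ 2 = 1 := by
    intro γ hγ
    rw [Γ, mem_filter] at hγ
    have := (ZMod.intCast_zmod_eq_zero_iff_dvd _ _).2 hγ.2
    push_cast at this
    linear_combination this
  have hγ : ∀ γ ∈ Γ c, ((bx (I A) (I B) 3).filter fun l => Rel c a b (γ : ℤ) l).card ≤
      64 * (Sol c (a * b) (2 * A) (2 * B)).card := by
    intro γ hγ
    have h1 := Red_N_le c a b A B γ (hsq γ hγ)
    have h2 := hPos (Red_G c) inferInstance (Red_u c a) (Red_l c b) (Red_s c γ (hsq γ hγ)) A B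
      (Red_u_add c a) (Red_l_add c b) (Red_s_comm c γ (hsq γ hγ))
    have h3 := Red_W_le c a b (2 * A) (2 * B) ha hb
    have h4 : (2 * A + 1) ^ 3 * (2 * B + 1) ^ 3 ≤ 64 * ((A + 1) ^ 3 * (B + 1) ^ 3) := by
      have h5 : (2 * A + 1) ^ 3 ≤ (2 * (A + 1)) ^ 3 := Nat.pow_le_pow_left (by omega) 3
      have h6 : (2 * B + 1) ^ 3 ≤ (2 * (B + 1)) ^ 3 := Nat.pow_le_pow_left (by omega) 3
      calc (2 * A + 1) ^ 3 * (2 * B + 1) ^ 3 ≤ (2 * (A + 1)) ^ 3 * (2 * (B + 1)) ^ 3 :=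
            Nat.mul_le_mul h5 h6
        _ = 64 * ((A + 1) ^ 3 * (B + 1) ^ 3) := by ring
    have hpos : 0 < (A + 1) ^ 3 * (B + 1) ^ 3 := by positivity
    have h7 : W (Red_u c a) (Red_l c b) (Red_s c γ (hsq γ hγ)) A B ≤
        64 * W (Red_u c a) (Red_l c b) 1 (2 * A) (2 * B) := by
      apply Nat.le_of_mul_le_mul_left _ hpos
      calc (A + 1) ^ 3 * (B + 1) ^ 3 * W (Red_u c a) (Red_l c b) (Red_s c γ (hsq γ hγ)) A B
          ≤ (2 * A + 1) ^ 3 * (2 * B + 1) ^ 3 * W (Red_u c a) (Red_l c b) 1 (2 * A) (2 * B) := h2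
        _ ≤ 64 * ((A + 1) ^ 3 * (B + 1) ^ 3) * W (Red_u c a) (Red_l c b) 1 (2 * A) (2 * B) :=
            Nat.mul_le_mul_right _ h4
        _ = (A + 1) ^ 3 * (B + 1) ^ 3 * (64 * W (Red_u c a) (Red_l c b) 1 (2 * A) (2 * B)) := by
            ring
    calc ((bx (I A) (I B) 3).filter fun l => Rel c a b (γ : ℤ) l).card
        ≤ W (Red_u c a) (Red_l c b) (Red_s c γ (hsq γ hγ)) A B := h1
      _ ≤ 64 * W (Red_u c a) (Red_l c b) 1 (2 * A) (2 * B) := h7
      _ ≤ 64 * (Sol c (a * b) (2 * A) (2 * B)).card := Nat.mul_le_mul_left _ h3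
  unfold N
  calc ((bx (I A) (I B) 3).filter fun l => ∃ γ ∈ Γ c, Rel c a b γ l).card
      ≤ ((Γ c).biUnion fun γ => (bx (I A) (I B) 3).filter fun l => Rel c a b (γ : ℤ) l).card := by
        apply Finset.card_le_card
        intro l hl
        rw [mem_filter] at hl
        obtain ⟨hl1, γ, hγ1, hr⟩ := hl
        exact mem_biUnion.2 ⟨γ, hγ1, mem_filter.2 ⟨hl1, hr⟩⟩
    _ ≤ ∑ γ ∈ Γ c, ((bx (I A) (I B) 3).filter fun l => Rel c a b (γ : ℤ) l).card :=
        card_biUnion_le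
    _ ≤ ∑ _γ ∈ Γ c, 64 * (Sol c (a * b) (2 * A) (2 * B)).card := Finset.sum_le_sum hγ
    _ = 64 * (Γ c).card * (Sol c (a * b) (2 * A) (2 * B)).card := by
        rw [Finset.sum_const, smul_eq_mul]
        ring

end

end Pool.Agent.Helper89.HX
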