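import Pool.Agent.Helper89.HX.St

/-!
# HX, module Root (MP_e188f1_nt)
-/

set_option autoImplicit false

namespace Pool.Agent.Helper89.HX

open Finset Pool.Agent.Helper56.SW

theorem Root_coeff {R : Type} [CommRing R] (a b c d : R)
    (h : Polynomial.C a + Polynomial.C b * Polynomial.X + Polynomial.C c * Polynomial.X ^ 2 +
      Polynomial.C d * Polynomial.X ^ 3 = 0) : a = 0 ∧ b = 0 ∧ c = 0 ∧ d = 0 := by
  have h0 := congrArg (fun P => Polynomial.coeff P 0) h
  have h1 := congrArg (fun P => Polynomial.coeff P 1) h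
  have h2 := congrArg (fun P => Polynomial.coeff P 2) h
  have h3 := congrArg (fun P => Polynomial.coeff P 3) h
  simp [Polynomial.coeff_X, Polynomial.coeff_C, Polynomial.coeff_X_pow] at h0 h1 h2 h3
  exact ⟨h0, h1, h2, h3⟩

theorem hRoot : StRoot := by
  classical
  intro c d₀ d₁ d₂ d₃ hc hd
  haveI : Fact c.Prime := ⟨hc⟩
  set P : Polynomial (ZMod c) := Polynomial.C (d₀ : ZMod c) + Polynomial.C (d₁ : ZMod c) * Polynomial.X +
    Polynomial.C (d₂ : ZMod c) * Polynomial.X ^ 2 + Polynomial.C (d₃ : ZMod c) * Polynomial.X ^ 3 with hP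
  have hP0 : P ≠ 0 := by
    intro h
    apply hd
    obtain ⟨h0, h1, h2, h3⟩ := Root_coeff _ _ _ _ h
    exact ⟨(ZMod.intCast_zmod_eq_zero_iff_dvd _ _).1 h0, (ZMod.intCast_zmod_eq_zero_iff_dvd _ _).1 h1,
      (ZMod.intCast_zmod_eq_zero_iff_dvd _ _).1 h2, (ZMod.intCast_zmod_eq_zero_iff_dvd _ _).1 h3⟩
  have hdeg : P.natDegree ≤ 3 := by
    rw [hP]
    compute_degree
  have h1 : ((range c).filter fun ν : ℕ => (c : ℤ) ∣ d₀ + d₁ * ν + d₂ * ν ^ 2 + d₃ * ν ^ 3).card ≤
      P.roots.toFinset.card := by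
    apply Finset.card_le_card_of_injOn (fun ν : ℕ => (ν : ZMod c))
    · intro ν hν
      have hν' := Finset.mem_filter.1 (Finset.mem_coe.1 hν)
      rw [Finset.mem_coe, Multiset.mem_toFinset, Polynomial.mem_roots hP0, Polynomial.IsRoot.def]
      have h2 := (ZMod.intCast_zmod_eq_zero_iff_dvd _ _).2 hν'.2
      push_cast at h2
      rw [hP]
      simp only [Polynomial.eval_add, Polynomial.eval_mul, Polynomial.eval_C, Polynomial.eval_X,
        Polynomial.eval_pow]
      exact h2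
    · intro x hx y hy h
      have hx' := Finset.mem_range.1 (Finset.mem_filter.1 (Finset.mem_coe.1 hx)).1
      have hy' := Finset.mem_range.1 (Finset.mem_filter.1 (Finset.mem_coe.1 hy)).1
      have h2 : (x : ZMod c) = (y : ZMod c) := h
      rw [ZMod.natCast_eq_natCast_iff'] at h2
      rwa [Nat.mod_eq_of_lt hx', Nat.mod_eq_of_lt hy'] at h2
  calc _ ≤ P.roots.toFinset.card := h1
    _ ≤ P.roots.card := Multiset.toFinset_card_le _
    _ ≤ P.natDegree := Polynomial.card_roots' P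
    _ ≤ 3 := hdeg

end Pool.Agent.Helper89.HX
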