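import Pool.Agent.Helper89.HX.St
import Pool.Agent.Helper56.SW.Basic

/-!
# HX, module Sc (MP_e188f1_nt)
-/

set_option autoImplicit false

namespace Pool.Agent.Helper89.HX

open Finset Pool.Agent.Helper56.SW

theorem Sc_zero_of_dvd {c : ℕ} {x : ℤ} (h : (c : ℤ) ∣ x) (hx : |x| < c) : x = 0 :=
  Int.eq_zero_of_abs_lt_dvd h hx

theorem Sc_e_ne {c A B k : ℕ} {lam : ℤ} {e f : ℤ × ℤ} (hc : 1 ≤ c) (hBc : B < c)
    (h : Bs c A B k lam e f) : e.1 ≠ 0 := by
  intro h0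
  have h1 := h.e_mem
  rw [h0, mul_zero, sub_zero] at h1
  have h2 : e.2 = 0 := Sc_zero_of_dvd h1 (lt_of_le_of_lt h.e2 (by exact_mod_cast hBc))
  have h3 := h.det
  unfold wd at h3
  rw [h0, h2, zero_mul, zero_mul, sub_zero, abs_zero] at h3
  have : (0 : ℤ) < c := by exact_mod_cast hc
  omega

theorem Sc_lam_unique {c A B k k' : ℕ} {l l' : ℕ} {e f f' : ℤ × ℤ} (hc : c.Prime) (hAc : A < c)
    (hBc : B < c) (hl : l < c) (hl' : l' < c)
    (h : Bs c A B k l e f) (h' : Bs c A B k' l' e f') : l = l' := by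
  have hcp : Prime (c : ℤ) := Nat.prime_iff_prime_int.1 hc
  have h1 : (c : ℤ) ∣ ((l : ℤ) - l') * e.1 := by
    have h2 := dvd_sub h'.e_mem h.e_mem
    have h3 : e.2 - (l' : ℤ) * e.1 - (e.2 - (l : ℤ) * e.1) = ((l : ℤ) - l') * e.1 := by ring
    rwa [h3] at h2
  rcases hcp.dvd_or_dvd h1 with h2 | h2
  · have h3 : ((l : ℤ) - l') = 0 := by
      apply Sc_zero_of_dvd h2
      rw [abs_lt]
      constructor <;> omega
    omega
  · exact absurd (Sc_zero_of_dvd h2 (lt_of_le_of_lt h.e1 (by exact_mod_cast hAc)))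
      (Sc_e_ne hc.one_lt.le hBc h)

theorem Sc_pow {c k : ℕ} {t : ℝ} (ht : 0 < t) (h3 : t ^ 3 = c) (hk : c ≤ 48 * 8 ^ k) :
    t / 4 ≤ 2 ^ k := by
  by_contra hcon
  push Not at hcon
  have h1 : ((2 : ℝ) ^ k) ^ 3 < (t / 4) ^ 3 :=
    pow_lt_pow_left₀ hcon (by positivity) (by norm_num)
  have h2 : ((2 : ℝ) ^ k) ^ 3 = 8 ^ k := by
    rw [← pow_mul, mul_comm, pow_mul]
    norm_num
  rw [h2, div_pow, h3] at h1
  have h4 : (c : ℝ) ≤ 48 * 8 ^ k := by exact_mod_cast hk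
  have h5 : (0 : ℝ) < 8 ^ k := by positivity
  norm_num at h1
  linarith

theorem Sc_bound {M A : ℕ} {k : ℕ} {t : ℝ} {u : ℤ} (ht : 0 < t) (hk : t / 4 ≤ 2 ^ k)
    (hu : |u| * 2 ^ k ≤ 12 * A) (hM : M = ⌊48 * (A : ℝ) / t⌋₊) : |u| ≤ M := by
  have h1 : ((|u| : ℤ) : ℝ) * 2 ^ k ≤ 12 * A := by exact_mod_cast hu
  have h0 : (0 : ℝ) ≤ ((|u| : ℤ) : ℝ) := by exact_mod_cast abs_nonneg u
  have h2 : ((|u| : ℤ) : ℝ) * (t / 4) ≤ 12 * A :=
    (mul_le_mul_of_nonneg_left hk h0).trans h1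
  have h3 : ((|u| : ℤ) : ℝ) ≤ 48 * A / t := by
    rw [le_div_iff₀ ht]
    linarith
  have h4 : ((u.natAbs : ℕ) : ℝ) ≤ 48 * A / t := by
    rw [Nat.cast_natAbs]
    exact h3
  have h5 : u.natAbs ≤ M := by
    rw [hM]
    exact Nat.le_floor h4
  rw [Int.abs_eq_natAbs]
  exact_mod_cast h5

theorem hSc : StSc := by
  classical
  intro c A B t S hc hA hAB hBc ht ht3 hS
  have hA0 : (0 : ℝ) < A := by exact_mod_cast hA
  have hB0 : (0 : ℝ) < B := by exact_mod_cast (lt_of_lt_of_le hA hAB)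
  have hABr : (A : ℝ) ≤ B := by exact_mod_cast hAB
  rcases S.eq_empty_or_nonempty with hE | hne
  · rw [hE, Finset.card_empty]
    push_cast
    positivity
  set M : ℕ := ⌊48 * (A : ℝ) / t⌋₊ with hM
  set M' : ℕ := ⌊48 * (B : ℝ) / t⌋₊ with hM'
  have hex : ∀ l : ℕ, ∃ e : ℤ × ℤ, l ∈ S → e.1 ≠ 0 ∧ |e.1| ≤ M ∧ |e.2| ≤ M' ∧
      ∃ (k : ℕ) (f : ℤ × ℤ), Bs c A B k l e f := by
    intro l
    by_cases hl : l ∈ S
    · obtain ⟨-, k, e, f, hb, hk⟩ := hS l hl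
      have h1 := Sc_pow ht ht3 hk
      exact ⟨e, fun _ => ⟨Sc_e_ne hc.one_lt.le hBc hb, Sc_bound ht h1 hb.e1' hM,
        Sc_bound ht h1 hb.e2' hM', k, f, hb⟩⟩
    · exact ⟨0, fun h => absurd h hl⟩
  choose e he using hex
  have hcard : S.card ≤ (((I M).erase 0) ×ˢ (I M')).card := by
    apply Finset.card_le_card_of_injOn e
    · intro l hl
      obtain ⟨h1, h2, h3, -⟩ := he l hl
      rw [Finset.mem_coe, Finset.mem_product, Finset.mem_erase, mem_I, mem_I]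
      exact ⟨⟨h1, h2⟩, h3⟩
    · intro l hl l' hl' h
      obtain ⟨-, -, -, k, f, hb⟩ := he l hl
      obtain ⟨-, -, -, k', f', hb'⟩ := he l' hl'
      rw [← h] at hb'
      exact Sc_lam_unique hc (lt_of_le_of_lt hAB hBc) hBc (hS l hl).1 (hS l' hl').1 hb hb'
  have h0 : (0 : ℤ) ∈ I M := by
    rw [mem_I, abs_zero]
    exact Int.natCast_nonneg _
  rw [Finset.card_product, Finset.card_erase_of_mem h0, card_I, card_I] at hcard
  have hcard' : (S.card : ℝ) ≤ (2 * M) * (2 * M' + 1) := by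
    have : S.card ≤ (2 * M) * (2 * M' + 1) := by simpa using hcard
    exact_mod_cast this
  have hMle : (M : ℝ) ≤ 48 * A / t := Nat.floor_le (by positivity)
  have hM'le : (M' : ℝ) ≤ 48 * B / t := Nat.floor_le (by positivity)
  have hM1 : (1 : ℝ) ≤ 48 * A / t := by
    obtain ⟨l, hl⟩ := hne
    obtain ⟨h1, h2, -⟩ := he l hl
    have h3 : (1 : ℤ) ≤ |(e l).1| := Int.one_le_abs h1
    have h4 : (1 : ℤ) ≤ M := h3.trans h2
    have h5 : (1 : ℝ) ≤ M := by exact_mod_cast h4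
    exact h5.trans hMle
  have hM'1 : (1 : ℝ) ≤ 48 * B / t := by
    refine hM1.trans ?_
    apply div_le_div_of_nonneg_right _ ht.le
    linarith
  calc (S.card : ℝ) ≤ (2 * M) * (2 * M' + 1) := hcard'
    _ ≤ (2 * (48 * A / t)) * (2 * (48 * B / t) + 48 * B / t) := by
        apply mul_le_mul _ _ (by positivity) (by positivity)
        · linarith
        · linarith
    _ = 13824 * A * B / t ^ 2 := by
        field_simp
        ring
    _ ≤ 20000 * A * B / t ^ 2 := by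
        apply div_le_div_of_nonneg_right _ (by positivity)
        have : 0 < (A : ℝ) * B := by positivity
        nlinarith

end Pool.Agent.Helper89.HX
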