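import Pool.Agent.Helper45.HX.Com

/-! Project HX (MP_e188f1_nt), module Sk (helper45). -/

set_option autoImplicit false

namespace Pool.Agent.Helper89.HX

open Finset Pool.Agent.Helper56.SW

/-- the third point is determined by the first two -/
theorem Sk_third {c A B : ℕ} {β : ℤ} (hc : c.Prime) (hAB : A ≤ B) (hB : 4 * B < c) {T T' : Tp}
    (hT : T ∈ SolN c β A B) (hT' : T' ∈ SolN c β A B) (h1 : T.1 = T'.1) (h2 : T.2.1 = T'.2.1) :
    T = T' := by
  obtain ⟨hs, hnz, hdg, -⟩ := c45_SolN hT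
  obtain ⟨hs', -, -, -⟩ := c45_SolN hT'
  obtain ⟨⟨b1, b2, b3⟩, r1, r2, r3, r4, r5⟩ := c45_Sol hs
  obtain ⟨⟨b1', b2', b3'⟩, r1', r2', r3', r4', r5'⟩ := c45_Sol hs'
  have hA : 4 * A < c := by omega
  have hx3 : T.2.2.1 = T'.2.2.1 := by
    apply c45_eq hA b3.1 b3'.1
    refine c45_cancel hc (a := 1 + β * T.2.1.1 * T.1.2) hdg ?_
    have e : (1 + β * T.2.1.1 * T.1.2) * (T.2.2.1 - T'.2.2.1) =
        (T.1.1 + T.2.1.1 + T.2.2.1 + β * T.1.1 * T.2.1.1 * T.2.2.2) -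
          (T.1.1 + T.2.1.1 + T'.2.2.1 + β * T.1.1 * T.2.1.1 * T'.2.2.2) -
          β * T.2.1.1 * (wd T.1 T.2.2) + β * T.2.1.1 * (wd T.1 T'.2.2) := by
      unfold wd
      ring
    rw [e]
    rw [← h1, ← h2] at r4'
    rw [← h1] at r2'
    exact dvd_add (dvd_sub (dvd_sub r4 r4') (Dvd.dvd.mul_left r2 _)) (Dvd.dvd.mul_left r2' _)
  have hz3 : T.2.2.2 = T'.2.2.2 := by
    apply c45_eq hB b3.2 b3'.2
    refine c45_cancel hc (a := T.1.1) (c45_unit hA hnz.1 b1.1) ?_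
    have e : T.1.1 * (T.2.2.2 - T'.2.2.2) = wd T.1 T.2.2 - wd T.1 T'.2.2 := by
      unfold wd
      rw [hx3]
      ring
    rw [e]
    rw [← h1] at r2'
    exact dvd_sub r2 r2'
  exact Prod.ext h1 (Prod.ext h2 (Prod.ext hx3 hz3))

/-- the three points lie in one lattice -/
theorem Sk_lat {c A B : ℕ} {β : ℤ} (hc : c.Prime) (hAB : A ≤ B) (hB : 4 * B < c) {T : Tp}
    (hT : T ∈ SolN c β A B) :
    ∃ r : ℕ, r < c ∧ T.1 ∈ La c r A B ∧ T.2.1 ∈ La c r A B ∧ T.2.2 ∈ La c r A B := by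
  obtain ⟨hs, hnz, hdg, -⟩ := c45_SolN hT
  obtain ⟨⟨b1, b2, b3⟩, r1, r2, r3, r4, r5⟩ := c45_Sol hs
  have hA : 4 * A < c := by omega
  have hu := c45_unit hA hnz.1 b1.1
  obtain ⟨r, hr, hr1⟩ := c45_lam hc T.1.2 hu
  refine ⟨r, hr, ?_, ?_, ?_⟩
  · rw [c45_La]
    exact ⟨b1, hr1⟩
  · rw [c45_La]
    refine ⟨b2, c45_cancel hc hu ?_⟩
    have e : T.1.1 * (T.2.1.2 - r * T.2.1.1) = wd T.1 T.2.1 + T.2.1.1 * (T.1.2 - r * T.1.1) := by
      unfold wd
      ring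
    rw [e]
    exact dvd_add r1 (Dvd.dvd.mul_left hr1 _)
  · rw [c45_La]
    refine ⟨b3, c45_cancel hc hu ?_⟩
    have e : T.1.1 * (T.2.2.2 - r * T.2.2.1) = wd T.1 T.2.2 + T.2.2.1 * (T.1.2 - r * T.1.1) := by
      unfold wd
      ring
    rw [e]
    exact dvd_add r2 (Dvd.dvd.mul_left hr1 _)

theorem hSk (hBas : StBas) (hCnt : StCnt) (hSc : StSc) : StSk := by
  classical
  intro c β A B t hc hβ hA1 hAB hB ht htc
  have hc1 : 1 ≤ c := hc.one_lt.le
  have hB1 : 1 ≤ B := hA1.trans hAB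
  have hBc : B < c := by omega
  -- the lattices
  let S : Finset ℕ := (range c).filter fun r => Two c (r : ℤ) A B ∧
    ∃ (k : ℕ) (e f : ℤ × ℤ), Bs c A B k (r : ℤ) e f ∧ c ≤ 48 * 8 ^ k
  have hS : (S.card : ℝ) ≤ 20000 * A * B / t ^ 2 := by
    refine hSc c A B t S hc hA1 hAB hBc ht htc ?_
    intro lam hlam
    rw [mem_filter, mem_range] at hlam
    exact ⟨hlam.1, hlam.2.2⟩
  let R : Finset Tp := (SolN c β A B).filter fun T => ¬ Gd c A B T
  have hsplit : (SolN c β A B).card = (SolG c β A B).card + R.card := by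
    have h := Finset.card_filter_add_card_filter_not (s := SolN c β A B) (fun T => Gd c A B T)
    have e : (SolN c β A B).filter (fun T => Gd c A B T) = SolG c β A B := by
      ext T
      rw [mem_filter, c45_SolG]
    rw [e] at h
    exact h.symm
  have hex : ∀ T : Tp, ∃ r : ℕ, T ∈ R → r ∈ S ∧ T.1 ∈ La c r A B ∧ T.2.1 ∈ La c r A B := by
    intro T
    by_cases hT : T ∈ R
    · rw [mem_filter] at hT
      obtain ⟨r, hr, p1, p2, p3⟩ := Sk_lat hc hAB hB hT.1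
      have htwo : Two c (r : ℤ) A B := ⟨T.1, p1, T.2.1, p2, (c45_SolN hT.1).2.2.2⟩
      obtain ⟨k, e, f, hb⟩ := hBas c r A B hc1 hA1 hB1 htwo
      refine ⟨r, fun _ => ⟨?_, p1, p2⟩⟩
      rw [mem_filter, mem_range]
      refine ⟨hr, htwo, k, e, f, hb, ?_⟩
      by_contra hk
      refine hT.2 ⟨r, k, e, f, hb, by omega, ?_, ?_, ?_⟩
      · exact (c45_La.mp p1).2
      · exact (c45_La.mp p2).2
      · exact (c45_La.mp p3).2
    · exact ⟨0, fun h => absurd h hT⟩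
  choose rr hrr using hex
  have hcard : R.card ≤ ∑ r ∈ S, ((La c r A B) ×ˢ (La c r A B)).card := by
    rw [← card_sigma]
    refine card_le_card_of_injOn (fun T => (⟨rr T, (T.1, T.2.1)⟩ : (_ : ℕ) × ((ℤ × ℤ) × (ℤ × ℤ))))
      ?_ ?_
    · intro T hT
      rw [mem_coe] at hT
      obtain ⟨a1, a2, a3⟩ := hrr T hT
      rw [mem_coe, mem_sigma]
      exact ⟨a1, mem_product.mpr ⟨a2, a3⟩⟩
    · intro T hT T' hT' he
      rw [mem_coe, mem_filter] at hT hT'
      simp only [Sigma.mk.injEq, heq_eq_eq, Prod.mk.injEq] at he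
      exact Sk_third hc hAB hB hT.1 hT'.1 he.2.1 he.2.2
  have hX : (0 : ℝ) ≤ (360 * A * B / c) ^ 2 := by positivity
  have hR : (R.card : ℝ) ≤ 20000 * A * B / t ^ 2 * (360 * A * B / c) ^ 2 := by
    calc (R.card : ℝ) ≤ ∑ r ∈ S, (((La c r A B) ×ˢ (La c r A B)).card : ℝ) := by exact_mod_cast hcard
      _ ≤ ∑ _r ∈ S, ((360 * A * B / c) ^ 2 : ℝ) := by
          refine sum_le_sum fun r hr => ?_
          rw [mem_filter] at hr
          have h := hCnt c r A B hc1 hA1 hB1 hr.2.1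
          rw [card_product]
          push_cast
          rw [sq]
          exact mul_le_mul h h (by positivity) (by positivity)
      _ = S.card * ((360 * A * B / c) ^ 2 : ℝ) := by rw [sum_const, nsmul_eq_mul]
      _ ≤ _ := mul_le_mul_of_nonneg_right hS hX
  rw [hsplit]
  push_cast
  linarith

end Pool.Agent.Helper89.HX
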