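import Pool.Agent.Helper89.HX.St

/-!
# Project HX (MP_e188f1_nt): module Sol, the bound for `Sol`
-/

set_option autoImplicit false

namespace Pool.Agent.Helper89.HX

open Finset Pool.Agent.Helper56.SW

private theorem Sol_cover (c : ℕ) (β : ℤ) (A B : ℕ) :
    (Sol c β A B).card ≤ (SolZ c β A B).card + (SolD c β A B).card + (SolP c β A B).card +
      (SolN c β A B).card := by
  classical
  have hsub : Sol c β A B ⊆ ((SolZ c β A B ∪ SolD c β A B) ∪ SolP c β A B) ∪ SolN c β A B := by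
    intro T hT
    simp only [mem_union]
    by_cases h1 : NZ T
    · by_cases h2 : Dg c β T
      · left; left; right
        unfold SolD
        exact mem_filter.2 ⟨hT, h1, h2⟩
      · by_cases h3 : wd T.1 T.2.1 = 0
        · left; right
          unfold SolP
          exact mem_filter.2 ⟨hT, h1, h2, h3⟩
        · right
          unfold SolN
          exact mem_filter.2 ⟨hT, h1, h2, h3⟩
    · left; left; left
      unfold SolZ
      exact mem_filter.2 ⟨hT, h1⟩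
  calc (Sol c β A B).card ≤ _ := card_le_card hsub
    _ ≤ _ := card_union_le _ _
    _ ≤ _ := Nat.add_le_add_right (card_union_le _ _) _
    _ ≤ _ := Nat.add_le_add_right (Nat.add_le_add_right (card_union_le _ _) _) _

private theorem Sol_quad (n p q : ℝ) (hp : 0 ≤ p) (hq : 0 ≤ q) (h : n ^ 2 ≤ p * n + q ^ 2) :
    n ≤ p + q := by
  by_contra hcon
  push Not at hcon
  have h1 : q < n - p := by linarith
  have h2 : q ≤ n := by linarith
  nlinarith

theorem hSol (hZ : StZ) (hD : StD) (hP : StP) (hSk : StSk) (hPr : StPr) (hCS : StCS) : StSol := by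
  intro c β A B D hc hβ hA hAB hBc hτ
  have hc1 : 1 ≤ c := hc.one_lt.le
  have hAr : (1 : ℝ) ≤ A := by exact_mod_cast hA
  have hABr : (A : ℝ) ≤ B := by exact_mod_cast hAB
  have hBr : (1 : ℝ) ≤ B := hAr.trans hABr
  have hcr : (1 : ℝ) ≤ c := by exact_mod_cast hc1
  have hBcr : 4 * (B : ℝ) < c := by exact_mod_cast hBc
  have hA0 : (0 : ℝ) < A := by linarith
  have hB0 : (0 : ℝ) < B := by linarith
  have hc0 : (0 : ℝ) < c := by linarith
  have hD1 : (1 : ℝ) ≤ D := by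
    have h1 := hτ 1 le_rfl (Nat.one_le_pow _ _ (by omega))
    have h2 : τ 1 = 1 := by simp [τ]
    linarith
  have hAc : A ≤ c := by omega
  have hBc' : B ≤ c := by omega
  have hτ2 : ∀ j : ℕ, 1 ≤ j → j ≤ A * B → τ j ≤ D := by
    intro j h1 h2
    refine hτ j h1 (h2.trans ?_)
    calc A * B ≤ c * c := Nat.mul_le_mul hAc hBc'
      _ ≤ c ^ 3 := by nlinarith [Nat.mul_le_mul hc1 (le_refl (c * c))]
  have hτ3 : ∀ j : ℕ, 1 ≤ j → j ≤ A ^ 3 → τ j ≤ D := by
    intro j h1 h2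
    exact hτ j h1 (h2.trans (Nat.pow_le_pow_left hAc 3))
  set L : ℝ := (Nat.log 2 c : ℝ) + 1 with hL
  have hL1 : (1 : ℝ) ≤ L := by
    rw [hL]
    have : (0 : ℝ) ≤ (Nat.log 2 c : ℝ) := by positivity
    linarith
  set S : ℝ := ((A * B : ℝ) ^ 3 / (c ^ 2 * √(c : ℝ))) with hS
  set R : ℝ := √((B : ℝ) / A) with hR
  have hsc : 0 < √(c : ℝ) := Real.sqrt_pos.2 hc0
  have hS0 : 0 ≤ S := by rw [hS]; positivity
  have hR1 : 1 ≤ R := by
    rw [hR, Real.one_le_sqrt, le_div_iff₀ hA0]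
    linarith
  have hRsq : R ^ 2 = (B : ℝ) / A := by
    rw [hR, Real.sq_sqrt (by positivity)]
  have hSsq : S ^ 2 = (A * B : ℝ) ^ 6 / (c : ℝ) ^ 5 := by
    have h1 : ((c : ℝ) ^ 2 * √(c : ℝ)) ^ 2 = (c : ℝ) ^ 5 := by
      rw [mul_pow, Real.sq_sqrt hc0.le]
      ring
    rw [hS, div_pow, h1, ← pow_mul]
  -- the four parts
  have b1 : ((SolZ c β A B).card : ℝ) ≤ 45 * (B : ℝ) ^ 2 := by
    exact_mod_cast hZ c β A B hc hA hAB hBc
  have b2 : ((SolD c β A B).card : ℝ) ≤ 9 * D * (B : ℝ) ^ 2 := by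
    refine (hD c β A B D hc hβ hA hAB hBc hτ2).trans ?_
    have h1 : 2 * (A : ℝ) * B / c ≤ A / 2 := by
      rw [div_le_iff₀ hc0]
      nlinarith
    have h2 : 2 * (A : ℝ) * B / c + 1 ≤ 3 * B / 2 := by linarith
    have h3 : 2 * (A : ℝ) + 1 ≤ 3 * B := by linarith
    have h4 : (2 * (A : ℝ) * B / c + 1) * (2 * A + 1) ≤ (3 * B / 2) * (3 * B) :=
      mul_le_mul h2 h3 (by positivity) (by positivity)
    calc 2 * D * (2 * (A : ℝ) * B / c + 1) * (2 * A + 1)
        = 2 * D * ((2 * (A : ℝ) * B / c + 1) * (2 * A + 1)) := by ring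
      _ ≤ 2 * D * ((3 * B / 2) * (3 * B)) := mul_le_mul_of_nonneg_left h4 (by linarith)
      _ = 9 * D * (B : ℝ) ^ 2 := by ring
  have hABB : (A : ℝ) * B ≤ (B : ℝ) ^ 2 := by nlinarith
  have b3 : ((SolP c β A B).card : ℝ) ≤ 8 * D * (B : ℝ) ^ 2 := by
    refine (hP c β A B D hc hβ hA hAB hBc hτ2).trans ?_
    calc 8 * D * (A : ℝ) * B = 8 * D * (A * B) := by ring
      _ ≤ 8 * D * (B : ℝ) ^ 2 := mul_le_mul_of_nonneg_left hABB (by linarith)
  -- the members of small scale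
  have b4 : ((SolG c β A B).card : ℝ) ≤ 196 * A * B * D ^ 2 + 10 ^ 11 * L * R * S := by
    apply Sol_quad _ _ _ (by positivity) (by positivity)
    have h1 := hCS c β A B D hc hβ hA hAB hBc hτ3
    have h2 := hPr c β A B hc hβ hA hAB hBc
    refine h1.trans ?_
    have h3 : 49 * (A : ℝ) * B * (Pr c β A B).card ≤ (10 ^ 11 * L * R * S) ^ 2 := by
      calc 49 * (A : ℝ) * B * (Pr c β A B).card
          ≤ 49 * (A : ℝ) * B * (L * (360 * A * B / c) ^ 5 * (3 * 49 ^ 4 * B / A)) :=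
            mul_le_mul_of_nonneg_left h2 (by positivity)
        _ = (49 * 360 ^ 5 * 3 * 49 ^ 4) * (L * (((A * B : ℝ) ^ 6 / (c : ℝ) ^ 5) * ((B : ℝ) / A))) := by
            field_simp
        _ = (49 * 360 ^ 5 * 3 * 49 ^ 4) * (L * (S ^ 2 * R ^ 2)) := by rw [hSsq, hRsq]
        _ ≤ 10 ^ 22 * (L * (S ^ 2 * R ^ 2)) := by
            apply mul_le_mul_of_nonneg_right _ (by positivity)
            norm_num
        _ ≤ 10 ^ 22 * (L ^ 2 * (S ^ 2 * R ^ 2)) := by
            apply mul_le_mul_of_nonneg_left _ (by positivity)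
            apply mul_le_mul_of_nonneg_right _ (by positivity)
            nlinarith
        _ = (10 ^ 11 * L * R * S) ^ 2 := by ring
    calc 49 * (A : ℝ) * B * (4 * D ^ 2 * (SolG c β A B).card + (Pr c β A B).card)
        = 196 * A * B * D ^ 2 * (SolG c β A B).card + 49 * (A : ℝ) * B * (Pr c β A B).card := by ring
      _ ≤ _ := by linarith
  -- the members of large scale
  have b5 : ((SolN c β A B).card : ℝ) ≤ (SolG c β A B).card + 2592000000 * S := by
    set t : ℝ := (c : ℝ) ^ (1 / 3 : ℝ) with ht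
    have ht0 : 0 < t := Real.rpow_pos_of_pos hc0 _
    have ht3 : t ^ 3 = c := by
      rw [ht, ← Real.rpow_natCast, ← Real.rpow_mul hc0.le]
      norm_num
    have ht1 : 1 ≤ t := by
      rw [ht]
      exact Real.one_le_rpow hcr (by norm_num)
    have ht2 : √(c : ℝ) ≤ t ^ 2 := by
      rw [Real.sqrt_le_left (by positivity)]
      calc (c : ℝ) = t ^ 3 := ht3.symm
        _ ≤ t ^ 3 * t := le_mul_of_one_le_right (by positivity) ht1
        _ = (t ^ 2) ^ 2 := by ring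
    refine (hSk c β A B t hc hβ hA hAB hBc ht0 ht3).trans ?_
    have h1 : 20000 * (A : ℝ) * B / t ^ 2 ≤ 20000 * (A : ℝ) * B / √(c : ℝ) :=
      div_le_div_of_nonneg_left (by positivity) hsc ht2
    have h2 : 20000 * (A : ℝ) * B / t ^ 2 * (360 * A * B / c) ^ 2 ≤
        20000 * (A : ℝ) * B / √(c : ℝ) * (360 * A * B / c) ^ 2 :=
      mul_le_mul_of_nonneg_right h1 (by positivity)
    have h3 : 20000 * (A : ℝ) * B / √(c : ℝ) * (360 * A * B / c) ^ 2 = 2592000000 * S := by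
      rw [hS]
      field_simp
      ring
    linarith
  have hcov : ((Sol c β A B).card : ℝ) ≤ (SolZ c β A B).card + (SolD c β A B).card +
      (SolP c β A B).card + (SolN c β A B).card := by exact_mod_cast Sol_cover c β A B
  have hRS : S ≤ R * S := le_mul_of_one_le_left hS0 hR1
  have hLD : D ^ 2 ≤ L * D ^ 2 := le_mul_of_one_le_left (by positivity) hL1
  have hDD : D ≤ D ^ 2 := by nlinarith
  have hB2 : (0 : ℝ) ≤ (B : ℝ) ^ 2 := by positivity
  have hRS0 : 0 ≤ R * S := by positivity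
  have hLD1 : (1 : ℝ) ≤ L * D ^ 2 := by linarith
  have c1 : 45 * (B : ℝ) ^ 2 ≤ 45 * (L * D ^ 2) * (B : ℝ) ^ 2 := by
    apply mul_le_mul_of_nonneg_right _ hB2
    linarith
  have c2 : 9 * D * (B : ℝ) ^ 2 ≤ 9 * (L * D ^ 2) * (B : ℝ) ^ 2 := by
    apply mul_le_mul_of_nonneg_right _ hB2
    linarith
  have c3 : 8 * D * (B : ℝ) ^ 2 ≤ 8 * (L * D ^ 2) * (B : ℝ) ^ 2 := by
    apply mul_le_mul_of_nonneg_right _ hB2
    linarith
  have c4 : 196 * (A : ℝ) * B * D ^ 2 ≤ 196 * (L * D ^ 2) * (B : ℝ) ^ 2 := by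
    calc 196 * (A : ℝ) * B * D ^ 2 = 196 * D ^ 2 * (A * B) := by ring
      _ ≤ 196 * (L * D ^ 2) * (B : ℝ) ^ 2 :=
        mul_le_mul (by linarith) hABB (by positivity) (by positivity)
  have c5 : 10 ^ 11 * L * R * S ≤ 10 ^ 11 * (L * D ^ 2) * (R * S) := by
    have h1 : L ≤ L * D ^ 2 := le_mul_of_one_le_right (by linarith) (by nlinarith)
    calc 10 ^ 11 * L * R * S = 10 ^ 11 * L * (R * S) := by ring
      _ ≤ 10 ^ 11 * (L * D ^ 2) * (R * S) := by
        apply mul_le_mul_of_nonneg_right _ hRS0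
        linarith
  have c6 : 2592000000 * S ≤ 2592000000 * (L * D ^ 2) * (R * S) := by
    have h1 : (1 : ℝ) ≤ L * D ^ 2 := hLD1
    have h2 : R * S ≤ (L * D ^ 2) * (R * S) := le_mul_of_one_le_left hRS0 h1
    linarith
  have hX : 0 ≤ (L * D ^ 2) * (B : ℝ) ^ 2 := by positivity
  have hY : 0 ≤ (L * D ^ 2) * (R * S) := by positivity
  calc ((Sol c β A B).card : ℝ)
      ≤ 45 * (B : ℝ) ^ 2 + 9 * D * (B : ℝ) ^ 2 + 8 * D * (B : ℝ) ^ 2 +
        (196 * A * B * D ^ 2 + 10 ^ 11 * L * R * S + 2592000000 * S) := by linarith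
    _ ≤ 258 * ((L * D ^ 2) * (B : ℝ) ^ 2) + (10 ^ 11 + 2592000000) * ((L * D ^ 2) * (R * S)) := by
        linarith
    _ ≤ 10 ^ 12 * ((L * D ^ 2) * (B : ℝ) ^ 2) + 10 ^ 12 * ((L * D ^ 2) * (R * S)) := by
        linarith
    _ = 10 ^ 12 * L * D ^ 2 * ((B : ℝ) ^ 2 + R * S) := by ring

end Pool.Agent.Helper89.HX
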