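import Pool.Agent.Helper89.HX.St
import Pool.Agent.Helper56.SW.Basic

/-!
# HX, module Z: solutions with a zero letter
-/

set_option autoImplicit false

namespace Pool.Agent.Helper89.HX

open Finset Pool.Agent.Helper56.SW

theorem Z_zero {c : ℕ} {x : ℤ} (h : (c : ℤ) ∣ x) (hx : |x| < c) : x = 0 :=
  Int.eq_zero_of_abs_lt_dvd h hx

theorem Z_mul {c : ℕ} (hc : c.Prime) {x y : ℤ} (h : (c : ℤ) ∣ x * y) (hx : |x| < c)
    (hy : |y| < c) : x = 0 ∨ y = 0 := by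
  rcases (Nat.prime_iff_prime_int.mp hc).dvd_or_dvd h with h | h
  · exact Or.inl (Z_zero h hx)
  · exact Or.inr (Z_zero h hy)

/-- The five families. -/
theorem Z_cases {c : ℕ} {β : ℤ} {A B : ℕ} (hc : c.Prime) (hAB : A ≤ B) (hB : 4 * B < c)
    (x₁ z₁ x₂ z₂ x₃ z₃ : ℤ) (hx₁ : |x₁| ≤ A) (hz₁ : |z₁| ≤ B) (hx₂ : |x₂| ≤ A) (hz₂ : |z₂| ≤ B)
    (hx₃ : |x₃| ≤ A) (hz₃ : |z₃| ≤ B) (h12 : (c : ℤ) ∣ x₁ * z₂ - z₁ * x₂)
    (h13 : (c : ℤ) ∣ x₁ * z₃ - z₁ * x₃) (h23 : (c : ℤ) ∣ x₂ * z₃ - z₂ * x₃)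
    (hX : (c : ℤ) ∣ x₁ + x₂ + x₃ + β * x₁ * x₂ * z₃)
    (hZ : (c : ℤ) ∣ z₁ + z₂ + z₃ + β * x₃ * z₁ * z₂)
    (h0 : x₁ = 0 ∨ z₁ = 0 ∨ x₂ = 0 ∨ z₂ = 0 ∨ x₃ = 0 ∨ z₃ = 0) :
    (x₁ = 0 ∧ z₁ = 0 ∧ x₃ = -x₂ ∧ z₃ = -z₂) ∨ (x₂ = 0 ∧ z₂ = 0 ∧ x₃ = -x₁ ∧ z₃ = -z₁) ∨
      (x₃ = 0 ∧ z₃ = 0 ∧ x₂ = -x₁ ∧ z₂ = -z₁) ∨
      (x₁ = 0 ∧ x₂ = 0 ∧ x₃ = 0 ∧ z₃ = -z₁ - z₂) ∨
      (z₁ = 0 ∧ z₂ = 0 ∧ z₃ = 0 ∧ x₃ = -x₁ - x₂) := by
  have hAB' : (A : ℤ) ≤ B := by exact_mod_cast hAB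
  have hB' : 4 * (B : ℤ) < c := by exact_mod_cast hB
  have hA0 : (0 : ℤ) ≤ A := by positivity
  rw [abs_le] at hx₁ hz₁ hx₂ hz₂ hx₃ hz₃
  have lt : ∀ w : ℤ, -(B : ℤ) ≤ w → w ≤ B → |w| < c := by
    intro w h1 h2
    rw [abs_lt]
    constructor <;> linarith
  have lx₁ := lt x₁ (by linarith) (by linarith)
  have lx₂ := lt x₂ (by linarith) (by linarith)
  have lx₃ := lt x₃ (by linarith) (by linarith)
  have lz₁ := lt z₁ (by linarith) (by linarith)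
  have lz₂ := lt z₂ (by linarith) (by linarith)
  have lz₃ := lt z₃ (by linarith) (by linarith)
  -- sums of two or three letters
  have s3 : ∀ u v w : ℤ, -(B : ℤ) ≤ u → u ≤ B → -(B : ℤ) ≤ v → v ≤ B → -(B : ℤ) ≤ w → w ≤ B →
      (c : ℤ) ∣ u + v + w → u + v + w = 0 := by
    intro u v w h1 h2 h3 h4 h5 h6 h
    apply Z_zero h
    rw [abs_lt]
    constructor <;> linarith
  have F4 : x₁ = 0 → x₂ = 0 → x₃ = 0 → (x₁ = 0 ∧ x₂ = 0 ∧ x₃ = 0 ∧ z₃ = -z₁ - z₂) := by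
    intro a1 a2 a3
    refine ⟨a1, a2, a3, ?_⟩
    have : (c : ℤ) ∣ z₁ + z₂ + z₃ := by
      rw [a3] at hZ; simpa using hZ
    have := s3 z₁ z₂ z₃ (by linarith) (by linarith) (by linarith) (by linarith) (by linarith)
      (by linarith) this
    linarith
  have F5 : z₁ = 0 → z₂ = 0 → z₃ = 0 → (z₁ = 0 ∧ z₂ = 0 ∧ z₃ = 0 ∧ x₃ = -x₁ - x₂) := by
    intro a1 a2 a3
    refine ⟨a1, a2, a3, ?_⟩
    have : (c : ℤ) ∣ x₁ + x₂ + x₃ := by
      rw [a3] at hX; simpa using hX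
    have := s3 x₁ x₂ x₃ (by linarith) (by linarith) (by linarith) (by linarith) (by linarith)
      (by linarith) this
    linarith
  have F1 : x₁ = 0 → z₁ = 0 → (x₁ = 0 ∧ z₁ = 0 ∧ x₃ = -x₂ ∧ z₃ = -z₂) := by
    intro a1 a2
    refine ⟨a1, a2, ?_, ?_⟩
    · have h' : (c : ℤ) ∣ x₁ + x₂ + x₃ := by
        have e : β * x₁ * x₂ * z₃ = 0 := by rw [a1]; ring
        rw [e, add_zero] at hX; exact hX
      have := s3 x₁ x₂ x₃ (by linarith) (by linarith) (by linarith) (by linarith) (by linarith)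
        (by linarith) h'
      linarith
    · have h' : (c : ℤ) ∣ z₁ + z₂ + z₃ := by
        have e : β * x₃ * z₁ * z₂ = 0 := by rw [a2]; ring
        rw [e, add_zero] at hZ; exact hZ
      have := s3 z₁ z₂ z₃ (by linarith) (by linarith) (by linarith) (by linarith) (by linarith)
        (by linarith) h'
      linarith
  have F2 : x₂ = 0 → z₂ = 0 → (x₂ = 0 ∧ z₂ = 0 ∧ x₃ = -x₁ ∧ z₃ = -z₁) := by
    intro a1 a2
    refine ⟨a1, a2, ?_, ?_⟩
    · have h' : (c : ℤ) ∣ x₁ + x₂ + x₃ := by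
        have e : β * x₁ * x₂ * z₃ = 0 := by rw [a1]; ring
        rw [e, add_zero] at hX; exact hX
      have := s3 x₁ x₂ x₃ (by linarith) (by linarith) (by linarith) (by linarith) (by linarith)
        (by linarith) h'
      linarith
    · have h' : (c : ℤ) ∣ z₁ + z₂ + z₃ := by
        have e : β * x₃ * z₁ * z₂ = 0 := by rw [a2]; ring
        rw [e, add_zero] at hZ; exact hZ
      have := s3 z₁ z₂ z₃ (by linarith) (by linarith) (by linarith) (by linarith) (by linarith)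
        (by linarith) h'
      linarith
  have F3 : x₃ = 0 → z₃ = 0 → (x₃ = 0 ∧ z₃ = 0 ∧ x₂ = -x₁ ∧ z₂ = -z₁) := by
    intro a1 a2
    refine ⟨a1, a2, ?_, ?_⟩
    · have h' : (c : ℤ) ∣ x₁ + x₂ + x₃ := by
        have e : β * x₁ * x₂ * z₃ = 0 := by rw [a2]; ring
        rw [e, add_zero] at hX; exact hX
      have := s3 x₁ x₂ x₃ (by linarith) (by linarith) (by linarith) (by linarith) (by linarith)
        (by linarith) h'
      linarith
    · have h' : (c : ℤ) ∣ z₁ + z₂ + z₃ := by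
        have e : β * x₃ * z₁ * z₂ = 0 := by rw [a1]; ring
        rw [e, add_zero] at hZ; exact hZ
      have := s3 z₁ z₂ z₃ (by linarith) (by linarith) (by linarith) (by linarith) (by linarith)
        (by linarith) h'
      linarith
  rcases h0 with h | h | h | h | h | h
  · -- x₁ = 0
    have k12 : (c : ℤ) ∣ z₁ * x₂ := by
      rw [h, zero_mul, zero_sub, dvd_neg] at h12; exact h12
    have k13 : (c : ℤ) ∣ z₁ * x₃ := by
      rw [h, zero_mul, zero_sub, dvd_neg] at h13; exact h13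
    rcases Z_mul hc k12 lz₁ lx₂ with a | a
    · exact Or.inl (F1 h a)
    · rcases Z_mul hc k13 lz₁ lx₃ with b | b
      · exact Or.inl (F1 h b)
      · exact Or.inr (Or.inr (Or.inr (Or.inl (F4 h a b))))
  · -- z₁ = 0
    have k12 : (c : ℤ) ∣ x₁ * z₂ := by
      rw [h, zero_mul, sub_zero] at h12; exact h12
    have k13 : (c : ℤ) ∣ x₁ * z₃ := by
      rw [h, zero_mul, sub_zero] at h13; exact h13
    rcases Z_mul hc k12 lx₁ lz₂ with a | a
    · exact Or.inl (F1 a h)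
    · rcases Z_mul hc k13 lx₁ lz₃ with b | b
      · exact Or.inl (F1 b h)
      · exact Or.inr (Or.inr (Or.inr (Or.inr (F5 h a b))))
  · -- x₂ = 0
    have k12 : (c : ℤ) ∣ x₁ * z₂ := by
      rw [h, mul_zero, sub_zero] at h12; exact h12
    have k23 : (c : ℤ) ∣ z₂ * x₃ := by
      rw [h, zero_mul, zero_sub, dvd_neg] at h23; exact h23
    rcases Z_mul hc k12 lx₁ lz₂ with a | a
    · rcases Z_mul hc k23 lz₂ lx₃ with b | b
      · exact Or.inr (Or.inl (F2 h b))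
      · exact Or.inr (Or.inr (Or.inr (Or.inl (F4 a h b))))
    · exact Or.inr (Or.inl (F2 h a))
  · -- z₂ = 0
    have k12 : (c : ℤ) ∣ z₁ * x₂ := by
      rw [h, mul_zero, zero_sub, dvd_neg] at h12; exact h12
    have k23 : (c : ℤ) ∣ x₂ * z₃ := by
      rw [h, zero_mul, sub_zero] at h23; exact h23
    rcases Z_mul hc k12 lz₁ lx₂ with a | a
    · rcases Z_mul hc k23 lx₂ lz₃ with b | b
      · exact Or.inr (Or.inl (F2 b h))
      · exact Or.inr (Or.inr (Or.inr (Or.inr (F5 a h b))))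
    · exact Or.inr (Or.inl (F2 a h))
  · -- x₃ = 0
    have k13 : (c : ℤ) ∣ x₁ * z₃ := by
      rw [h, mul_zero, sub_zero] at h13; exact h13
    have k23 : (c : ℤ) ∣ x₂ * z₃ := by
      rw [h, mul_zero, sub_zero] at h23; exact h23
    rcases Z_mul hc k13 lx₁ lz₃ with a | a
    · rcases Z_mul hc k23 lx₂ lz₃ with b | b
      · exact Or.inr (Or.inr (Or.inr (Or.inl (F4 a b h))))
      · exact Or.inr (Or.inr (Or.inl (F3 h b)))
    · exact Or.inr (Or.inr (Or.inl (F3 h a)))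
  · -- z₃ = 0
    have k13 : (c : ℤ) ∣ z₁ * x₃ := by
      rw [h, mul_zero, zero_sub, dvd_neg] at h13; exact h13
    have k23 : (c : ℤ) ∣ z₂ * x₃ := by
      rw [h, mul_zero, zero_sub, dvd_neg] at h23; exact h23
    rcases Z_mul hc k13 lz₁ lx₃ with a | a
    · rcases Z_mul hc k23 lz₂ lx₃ with b | b
      · exact Or.inr (Or.inr (Or.inr (Or.inr (F5 a b h))))
      · exact Or.inr (Or.inr (Or.inl (F3 b h)))
    · exact Or.inr (Or.inr (Or.inl (F3 a h)))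

theorem hZ : StZ := by
  classical
  intro c β A B hc hA hAB hB
  let f1 : ℤ × ℤ → Tp := fun P => ((0, 0), P, (-P.1, -P.2))
  let f2 : ℤ × ℤ → Tp := fun P => (P, (0, 0), (-P.1, -P.2))
  let f3 : ℤ × ℤ → Tp := fun P => (P, (-P.1, -P.2), (0, 0))
  let f4 : ℤ × ℤ → Tp := fun y => ((0, y.1), (0, y.2), (0, -y.1 - y.2))
  let f5 : ℤ × ℤ → Tp := fun y => ((y.1, 0), (y.2, 0), (-y.1 - y.2, 0))
  have hsub : SolZ c β A B ⊆ (bo A B).image f1 ∪ ((bo A B).image f2 ∪ ((bo A B).image f3 ∪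
      ((bo B B).image f4 ∪ (bo A A).image f5))) := by
    rintro ⟨⟨x₁, z₁⟩, ⟨x₂, z₂⟩, ⟨x₃, z₃⟩⟩ hT
    unfold SolZ Sol at hT
    rw [mem_filter, mem_filter, mem_product, mem_product] at hT
    obtain ⟨⟨⟨m1, m2, m3⟩, hR⟩, hN⟩ := hT
    unfold bo at m1 m2 m3
    rw [mem_product, mem_I, mem_I] at m1 m2 m3
    obtain ⟨h12, h13, h23, hX, hZ'⟩ := hR
    have h0 : x₁ = 0 ∨ z₁ = 0 ∨ x₂ = 0 ∨ z₂ = 0 ∨ x₃ = 0 ∨ z₃ = 0 := by
      unfold NZ at hN
      by_contra hcon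
      simp only [not_or] at hcon
      exact hN hcon
    have key := Z_cases hc hAB hB x₁ z₁ x₂ z₂ x₃ z₃ m1.1 m1.2 m2.1 m2.2 m3.1 m3.2 h12 h13 h23
      hX hZ' h0
    simp only [mem_union, mem_image]
    rcases key with ⟨a, b, d, e⟩ | ⟨a, b, d, e⟩ | ⟨a, b, d, e⟩ | ⟨a, b, d, e⟩ | ⟨a, b, d, e⟩
    · refine Or.inl ⟨(x₂, z₂), ?_, ?_⟩
      · unfold bo; rw [mem_product, mem_I, mem_I]; exact m2
      · simp only [f1, a, b, d, e]
    · refine Or.inr (Or.inl ⟨(x₁, z₁), ?_, ?_⟩)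
      · unfold bo; rw [mem_product, mem_I, mem_I]; exact m1
      · simp only [f2, a, b, d, e]
    · refine Or.inr (Or.inr (Or.inl ⟨(x₁, z₁), ?_, ?_⟩))
      · unfold bo; rw [mem_product, mem_I, mem_I]; exact m1
      · simp only [f3, a, b, d, e]
    · refine Or.inr (Or.inr (Or.inr (Or.inl ⟨(z₁, z₂), ?_, ?_⟩)))
      · unfold bo; rw [mem_product, mem_I, mem_I]; exact ⟨m1.2, m2.2⟩
      · simp only [f4, a, b, d, e]
    · refine Or.inr (Or.inr (Or.inr (Or.inr ⟨(x₁, x₂), ?_, ?_⟩)))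
      · unfold bo; rw [mem_product, mem_I, mem_I]; exact ⟨m1.1, m2.1⟩
      · simp only [f5, a, b, d, e]
  have cbo : ∀ a b : ℕ, (bo a b).card = (2 * a + 1) * (2 * b + 1) := by
    intro a b
    unfold bo
    rw [card_product, card_I, card_I]
  have h1 := card_le_card hsub
  have h2 := card_union_le ((bo A B).image f1) ((bo A B).image f2 ∪ ((bo A B).image f3 ∪
      ((bo B B).image f4 ∪ (bo A A).image f5)))
  have h3 := card_union_le ((bo A B).image f2) ((bo A B).image f3 ∪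
      ((bo B B).image f4 ∪ (bo A A).image f5))
  have h4 := card_union_le ((bo A B).image f3) ((bo B B).image f4 ∪ (bo A A).image f5)
  have h5 := card_union_le ((bo B B).image f4) ((bo A A).image f5)
  have g1 : ((bo A B).image f1).card ≤ (2 * A + 1) * (2 * B + 1) := by
    rw [← cbo]; exact card_image_le
  have g2 : ((bo A B).image f2).card ≤ (2 * A + 1) * (2 * B + 1) := by
    rw [← cbo]; exact card_image_le
  have g3 : ((bo A B).image f3).card ≤ (2 * A + 1) * (2 * B + 1) := by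
    rw [← cbo]; exact card_image_le
  have g4 : ((bo B B).image f4).card ≤ (2 * B + 1) * (2 * B + 1) := by
    rw [← cbo]; exact card_image_le
  have g5 : ((bo A A).image f5).card ≤ (2 * A + 1) * (2 * A + 1) := by
    rw [← cbo]; exact card_image_le
  have e1 : (2 * A + 1) * (2 * B + 1) ≤ (2 * B + 1) * (2 * B + 1) :=
    Nat.mul_le_mul_right _ (by omega)
  have e2 : (2 * A + 1) * (2 * A + 1) ≤ (2 * B + 1) * (2 * B + 1) :=
    Nat.mul_le_mul (by omega) (by omega)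
  have e3 : (2 * B + 1) * (2 * B + 1) ≤ 9 * B ^ 2 := by
    have : 2 * B + 1 ≤ 3 * B := by omega
    calc (2 * B + 1) * (2 * B + 1) ≤ (3 * B) * (3 * B) := Nat.mul_le_mul this this
      _ = 9 * B ^ 2 := by ring
  linarith

end Pool.Agent.Helper89.HX
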