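import Pool.Agent.Helper89.HX.M_Pos
import Pool.Agent.Helper89.HX.M_Red
import Pool.Agent.Helper89.HX.M_Z
import Pool.Agent.Helper89.HX.M_D
import Pool.Agent.Helper89.HX.M_P
import Pool.Agent.Helper89.HX.M_Bas
import Pool.Agent.Helper89.HX.M_Cnt
import Pool.Agent.Helper89.HX.M_Nu
import Pool.Agent.Helper89.HX.M_Root
import Pool.Agent.Helper89.HX.M_Lam
import Pool.Agent.Helper89.HX.M_Sc
import Pool.Agent.Helper89.HX.M_Sk
import Pool.Agent.Helper89.HX.M_Pr
import Pool.Agent.Helper89.HX.M_CS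
import Pool.Agent.Helper89.HX.M_Sol
import Pool.Agent.Helper89.HX.M_FinA
import Pool.Agent.Helper89.HX.M_Fin1

/-! # HX: assembly (MP_e188f1_nt) -/

set_option autoImplicit false

namespace Pool.Agent.Helper89.HX

theorem finA : StFinA :=
  hFinA (hSol hZ hD hP (hSk hBas (hCnt hBas) hSc) (hPr (hLam hNu hRoot)) hCS) (hRed hPos)

end Pool.Agent.Helper89.HX
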