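import Pool.Agent.Helper45.HX.Com
import Pool.Agent.Helper56.SW.M_Fac

/-! Project HX (MP_e188f1_nt), module CS (helper45). -/

set_option autoImplicit false

namespace Pool.Agent.Helper89.HX

open Finset Pool.Agent.Helper56.SW

/-- for a good solution the three points lie in one lattice `lam` -/
theorem CS_gd {c A B : ℕ} {β : ℤ} {T : Tp} (hT : T ∈ SolG c β A B) :
    ∃ lam : ℤ, (c : ℤ) ∣ (sg T).1 + β * lam * px T ∧ (c : ℤ) ∣ T.1.2 - lam * T.1.1 ∧
      (c : ℤ) ∣ T.2.1.2 - lam * T.2.1.1 ∧ (c : ℤ) ∣ T.2.2.2 - lam * T.2.2.1 := by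
  obtain ⟨h1, lam, k, e, f, -, -, g1, g2, g3⟩ := c45_SolG.mp hT
  obtain ⟨-, -, -, -, r4, -⟩ := c45_Sol (c45_SolN h1).1
  exact ⟨lam, c45_sum r4 g3, g1, g2, g3⟩

theorem CS_natAbs {x : ℤ} {A : ℕ} (h : |x| ≤ A) : x.natAbs ≤ A := by
  rw [← Int.natCast_natAbs] at h
  exact_mod_cast h

theorem CS_px {c A B : ℕ} {β : ℤ} (hc : c.Prime) (hAB : A ≤ B) (hB : 4 * B < c) {T : Tp}
    (hT : T ∈ SolG c β A B) : ¬ (c : ℤ) ∣ px T ∧ px T ≠ 0 ∧ (px T).natAbs ≤ A ^ 3 := by
  obtain ⟨hs, hnz, -, -⟩ := c45_SolN (c45_SolG.mp hT).1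
  obtain ⟨⟨b1, b2, b3⟩, -⟩ := c45_Sol hs
  obtain ⟨n1, -, n2, -, n3, -⟩ := hnz
  have hA : 4 * A < c := by omega
  refine ⟨?_, ?_, ?_⟩
  · exact c45_mul hc (c45_mul hc (c45_unit hA n1 b1.1) (c45_unit hA n2 b2.1)) (c45_unit hA n3 b3.1)
  · exact mul_ne_zero (mul_ne_zero n1 n2) n3
  · unfold px
    rw [Int.natAbs_mul, Int.natAbs_mul]
    have a1 : T.1.1.natAbs ≤ A := CS_natAbs b1.1
    have a2 : T.2.1.1.natAbs ≤ A := CS_natAbs b2.1
    have a3 : T.2.2.1.natAbs ≤ A := CS_natAbs b3.1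
    calc T.1.1.natAbs * T.2.1.1.natAbs * T.2.2.1.natAbs ≤ A * A * A :=
          Nat.mul_le_mul (Nat.mul_le_mul a1 a2) a3
      _ = A ^ 3 := by ring

/-- a good solution is determined by its sum and its first coordinates -/
theorem CS_inj {c A B : ℕ} {β : ℤ} (hc : c.Prime) (hβ : ¬ (c : ℤ) ∣ β) (hAB : A ≤ B)
    (hB : 4 * B < c) {T T' : Tp} (hT : T ∈ SolG c β A B) (hT' : T' ∈ SolG c β A B)
    (hsg : sg T = sg T') (hpx : px T = px T') (h1 : T.1.1 = T'.1.1) (h2 : T.2.1.1 = T'.2.1.1) :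
    T = T' := by
  obtain ⟨hu, hn0, -⟩ := CS_px hc hAB hB hT
  obtain ⟨lam, s1, g1, g2, g3⟩ := CS_gd hT
  obtain ⟨lam', s1', g1', g2', g3'⟩ := CS_gd hT'
  obtain ⟨hs, hnz, -, -⟩ := c45_SolN (c45_SolG.mp hT).1
  obtain ⟨hs', hnz', -, -⟩ := c45_SolN (c45_SolG.mp hT').1
  obtain ⟨⟨b1, b2, b3⟩, -⟩ := c45_Sol hs
  obtain ⟨⟨b1', b2', b3'⟩, -⟩ := c45_Sol hs'
  have h3 : T.2.2.1 = T'.2.2.1 := by
    have e := hpx
    unfold px at e
    rw [h1, h2] at e
    exact mul_left_cancel₀ (mul_ne_zero hnz'.1 hnz'.2.2.1) e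
  have hl : (c : ℤ) ∣ lam - lam' := by
    refine c45_cancel hc (a := β) hβ (c45_cancel hc (a := px T) hu ?_)
    have e : px T * (β * (lam - lam')) =
        ((sg T).1 + β * lam * px T) - ((sg T').1 + β * lam' * px T') := by
      rw [hsg, ← hpx]
      ring
    rw [e]
    exact dvd_sub s1 s1'
  have key : ∀ x z z' : ℤ, |z| ≤ B → |z'| ≤ B → (c : ℤ) ∣ z - lam * x → (c : ℤ) ∣ z' - lam' * x →
      z = z' := by
    intro x z z' hz hz' d d'
    apply c45_eq hB hz hz'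
    have e : z - z' = (z - lam * x) - (z' - lam' * x) + x * (lam - lam') := by ring
    rw [e]
    exact dvd_add (dvd_sub d d') (Dvd.dvd.mul_left hl _)
  rw [← h1] at g1'
  rw [← h2] at g2'
  rw [← h3] at g3'
  exact Prod.ext (Prod.ext h1 (key _ _ _ b1.2 b1'.2 g1 g1'))
    (Prod.ext (Prod.ext h2 (key _ _ _ b2.2 b2'.2 g2 g2'))
      (Prod.ext h3 (key _ _ _ b3.2 b3'.2 g3 g3')))

theorem hCS : StCS := by
  classical
  intro c β A B D hc hβ hA1 hAB hB hD
  have hB1 : 1 ≤ B := hA1.trans hAB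
  set G := SolG c β A B with hG
  -- the box of the sums
  let V : Finset (ℤ × ℤ) := (I (3 * A)) ×ˢ (I (3 * B))
  have hV : ∀ T ∈ G, sg T ∈ V := by
    intro T hT
    obtain ⟨⟨b1, b2, b3⟩, -⟩ := c45_Sol (c45_SolN (c45_SolG.mp hT).1).1
    have k1 := abs_add_three T.1.1 T.2.1.1 T.2.2.1
    have k2 := abs_add_three T.1.2 T.2.1.2 T.2.2.2
    rw [mem_product, mem_I, mem_I]
    unfold sg
    push_cast
    constructor
    · have := b1.1
      have := b2.1
      have := b3.1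
      show |T.1.1 + T.2.1.1 + T.2.2.1| ≤ 3 * (A : ℤ)
      omega
    · have := b1.2
      have := b2.2
      have := b3.2
      show |T.1.2 + T.2.1.2 + T.2.2.2| ≤ 3 * (B : ℤ)
      omega
  have hVc : (V.card : ℝ) ≤ 49 * A * B := by
    rw [card_product, card_I, card_I]
    push_cast
    have a1 : (1 : ℝ) ≤ A := by exact_mod_cast hA1
    have b1 : (1 : ℝ) ≤ B := by exact_mod_cast hB1
    nlinarith
  -- Cauchy-Schwarz
  let E : Finset (Tp × Tp) := (G ×ˢ G).filter fun q => sg q.1 = sg q.2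
  have hE : E.card = ∑ v ∈ V, ((G.filter fun T => sg T = v).card) ^ 2 := by
    rw [card_eq_sum_card_fiberwise (f := fun q : Tp × Tp => sg q.1) (s := E) (t := V)]
    · refine sum_congr rfl fun v _ => ?_
      rw [sq, ← card_product]
      congr 1
      ext q
      simp only [E, mem_filter, mem_product]
      constructor
      · rintro ⟨⟨⟨h1, h2⟩, h3⟩, h4⟩
        exact ⟨⟨h1, h4⟩, h2, by rw [← h3]; exact h4⟩
      · rintro ⟨⟨h1, h2⟩, h3, h4⟩
        exact ⟨⟨⟨h1, h3⟩, by rw [h2, h4]⟩, h2⟩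
    · intro q hq
      rw [mem_coe, mem_filter, mem_product] at hq
      exact hV _ hq.1.1
  have hGs : (G.card : ℝ) = ∑ v ∈ V, ((G.filter fun T => sg T = v).card : ℝ) := by
    have h := card_eq_sum_card_fiberwise (f := fun T : Tp => sg T) (s := G) (t := V)
      (fun T hT => hV T hT)
    exact_mod_cast h
  have hCSq : (G.card : ℝ) ^ 2 ≤ 49 * A * B * E.card := by
    have h := sq_sum_le_card_mul_sum_sq (s := V) (f := fun v => ((G.filter fun T => sg T = v).card : ℝ))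
    rw [← hGs] at h
    have e : ∑ v ∈ V, ((G.filter fun T => sg T = v).card : ℝ) ^ 2 = E.card := by
      rw [hE]
      push_cast
      rfl
    rw [e] at h
    exact h.trans (mul_le_mul_of_nonneg_right hVc (by positivity))
  -- splitting
  have hsplit : E.card = (E.filter fun q => px q.2 = px q.1).card + (Pr c β A B).card := by
    have h := Finset.card_filter_add_card_filter_not (s := E) (fun q => px q.2 = px q.1)
    rw [← h]
    congr 2
    ext q
    simp only [E, Pr, mem_filter]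
    constructor
    · rintro ⟨⟨h1, h2⟩, h3⟩
      exact ⟨h1, h2, fun h => h3 h.symm⟩
    · rintro ⟨h1, h2, h3⟩
      exact ⟨⟨h1, h2⟩, fun h => h3 h.symm⟩
  have hD0 : 0 ≤ D := by
    have h := hD 1 le_rfl (Nat.one_le_pow _ _ hA1)
    have h0 : 0 ≤ τ 1 := by unfold τ; positivity
    linarith
  have hfib : ((E.filter fun q => px q.2 = px q.1).card : ℝ) ≤ 4 * D ^ 2 * G.card := by
    have h1 : (E.filter fun q => px q.2 = px q.1).card ≤
        ∑ T ∈ G, ((mFac_idiv (px T)) ×ˢ (mFac_idiv (px T))).card := by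
      rw [← card_sigma]
      refine card_le_card_of_injOn
        (fun q => (⟨q.1, (q.2.1.1, q.2.2.1.1)⟩ : (_ : Tp) × (ℤ × ℤ))) ?_ ?_
      · intro q hq
        rw [mem_coe, mem_filter, mem_filter, mem_product] at hq
        obtain ⟨⟨⟨m1, m2⟩, m3⟩, m4⟩ := hq
        have hn := (CS_px hc hAB hB m1).2.1
        rw [mem_coe, mem_sigma]
        refine ⟨m1, mem_product.mpr ⟨mFac_mem hn ?_, mFac_mem hn ?_⟩⟩
        · show q.2.1.1 ∣ px q.1
          rw [← m4]
          exact ⟨q.2.2.1.1 * q.2.2.2.1, by unfold px; ring⟩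
        · show q.2.2.1.1 ∣ px q.1
          rw [← m4]
          exact ⟨q.2.1.1 * q.2.2.2.1, by unfold px; ring⟩
      · intro q hq q' hq' he
        rw [mem_coe, mem_filter, mem_filter, mem_product] at hq hq'
        obtain ⟨⟨⟨m1, m2⟩, m3⟩, m4⟩ := hq
        obtain ⟨⟨⟨m1', m2'⟩, m3'⟩, m4'⟩ := hq'
        simp only [Sigma.mk.injEq, heq_eq_eq, Prod.mk.injEq] at he
        obtain ⟨e1, e2, e3⟩ := he
        refine Prod.ext e1 (CS_inj hc hβ hAB hB m2 m2' ?_ ?_ e2 e3)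
        · rw [← m3, ← m3', e1]
        · rw [m4, m4', e1]
    calc ((E.filter fun q => px q.2 = px q.1).card : ℝ)
        ≤ ∑ T ∈ G, (((mFac_idiv (px T)) ×ˢ (mFac_idiv (px T))).card : ℝ) := by exact_mod_cast h1
      _ ≤ ∑ _T ∈ G, (4 * D ^ 2) := by
          refine sum_le_sum fun T hT => ?_
          obtain ⟨-, hn, hle⟩ := CS_px hc hAB hB hT
          have hd := hD (px T).natAbs (Nat.one_le_iff_ne_zero.mpr (Int.natAbs_ne_zero.mpr hn)) hle
          have hm := mFac_card (px T)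
          have hm' : ((mFac_idiv (px T)).card : ℝ) ≤ 2 * D := by linarith
          rw [card_product]
          push_cast
          calc ((mFac_idiv (px T)).card : ℝ) * (mFac_idiv (px T)).card ≤ (2 * D) * (2 * D) :=
                mul_le_mul hm' hm' (by positivity) (by positivity)
            _ = 4 * D ^ 2 := by ring
      _ = 4 * D ^ 2 * G.card := by rw [sum_const, nsmul_eq_mul]; ring
  have hEc : (E.card : ℝ) ≤ 4 * D ^ 2 * G.card + (Pr c β A B).card := by
    rw [hsplit]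
    push_cast
    linarith
  exact hCSq.trans (mul_le_mul_of_nonneg_left hEc (by positivity))

end Pool.Agent.Helper89.HX
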