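import Pool.Agent.Helper89.HX.St

set_option autoImplicit false

namespace Pool.Agent.Helper89.HX

open Finset Pool.Agent.Helper56.SW

/-- pairs of numbers at most `2 A` -/
private def Pos_D (A : ℕ) : Finset (ℕ × ℕ) := range (2 * A + 1) ×ˢ range (2 * A + 1)

/-- the difference -/
private def Pos_d (a : ℕ × ℕ) : ℤ := (a.1 : ℤ) - a.2

private lemma Pos_low (A : ℕ) (F : ℤ → ℕ) :
    (A + 1) * ∑ h ∈ I A, F h ≤ ∑ a ∈ Pos_D A, F (Pos_d a) := by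
  classical
  set φ : ℤ × ℕ → ℕ × ℕ := fun q => (q.2 + q.1.toNat, q.2 + (-q.1).toNat) with hφ
  have hd : ∀ q, Pos_d (φ q) = q.1 := by
    intro q
    simp only [hφ, Pos_d]
    push_cast
    omega
  have hinj : Set.InjOn φ (I A ×ˢ range (A + 1) : Finset (ℤ × ℕ)) := by
    intro q _ q' _ h
    have h1 : q.1 = q'.1 := by rw [← hd q, ← hd q', h]
    have h2 : q.2 = q'.2 := by
      have h3 := congrArg Prod.fst h
      simp only [hφ, h1] at h3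
      omega
    exact Prod.ext h1 h2
  calc (A + 1) * ∑ h ∈ I A, F h = ∑ q ∈ I A ×ˢ range (A + 1), F q.1 := by
        rw [sum_product]
        simp only [sum_const, card_range, smul_eq_mul]
        rw [mul_sum]
    _ = ∑ q ∈ I A ×ˢ range (A + 1), F (Pos_d (φ q)) := by
        refine sum_congr rfl fun q _ => ?_
        rw [hd]
    _ = ∑ a ∈ (I A ×ˢ range (A + 1)).image φ, F (Pos_d a) := by
        rw [sum_image hinj]
    _ ≤ ∑ a ∈ Pos_D A, F (Pos_d a) := by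
        refine sum_le_sum_of_subset ?_
        intro a ha
        rw [mem_image] at ha
        obtain ⟨q, hq, rfl⟩ := ha
        rw [mem_product, I, mem_Icc, mem_range] at hq
        unfold Pos_D
        rw [mem_product, mem_range, mem_range]
        simp only [hφ]
        omega

private lemma Pos_up (A : ℕ) (F : ℤ → ℕ) :
    ∑ a ∈ Pos_D A, F (Pos_d a) ≤ (2 * A + 1) * ∑ h ∈ I (2 * A), F h := by
  classical
  unfold Pos_D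
  rw [sum_product]
  calc ∑ x ∈ range (2 * A + 1), ∑ y ∈ range (2 * A + 1), F (Pos_d (x, y))
      ≤ ∑ _x ∈ range (2 * A + 1), ∑ h ∈ I (2 * A), F h := by
        refine sum_le_sum fun x hx => ?_
        rw [mem_range] at hx
        have hinj : Set.InjOn (fun y : ℕ => Pos_d (x, y)) (range (2 * A + 1)) := by
          intro y _ y' _ h
          simp only [Pos_d] at h
          omega
        rw [← sum_image (f := fun h => F h) (g := fun y : ℕ => Pos_d (x, y)) hinj]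
        refine sum_le_sum_of_subset ?_
        intro h hh
        rw [mem_image] at hh
        obtain ⟨y, hy, rfl⟩ := hh
        rw [mem_range] at hy
        rw [I, mem_Icc]
        simp only [Pos_d]
        push_cast
        omega
    _ = (2 * A + 1) * ∑ h ∈ I (2 * A), F h := by
        rw [sum_const, card_range, smul_eq_mul]

/-- pairs for a point of the box -/
private def Pos_P (A B : ℕ) : Finset ((ℕ × ℕ) × (ℕ × ℕ)) := Pos_D A ×ˢ Pos_D B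

private def Pos_e (a : (ℕ × ℕ) × (ℕ × ℕ)) : ℤ × ℤ := (Pos_d a.1, Pos_d a.2)

private lemma Pos_low2 (A B : ℕ) (F : ℤ × ℤ → ℕ) :
    (A + 1) * (B + 1) * ∑ T ∈ bo A B, F T ≤ ∑ a ∈ Pos_P A B, F (Pos_e a) := by
  unfold bo Pos_P
  rw [sum_product, sum_product]
  calc (A + 1) * (B + 1) * ∑ h ∈ I A, ∑ k ∈ I B, F (h, k)
      = (A + 1) * ∑ h ∈ I A, (B + 1) * ∑ k ∈ I B, F (h, k) := by
        rw [← mul_sum, mul_assoc]
    _ ≤ (A + 1) * ∑ h ∈ I A, ∑ b ∈ Pos_D B, F (h, Pos_d b) :=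
        Nat.mul_le_mul_left _ (sum_le_sum fun h _ => Pos_low B (fun k => F (h, k)))
    _ ≤ ∑ a ∈ Pos_D A, ∑ b ∈ Pos_D B, F (Pos_d a, Pos_d b) :=
        Pos_low A (fun h => ∑ b ∈ Pos_D B, F (h, Pos_d b))

private lemma Pos_up2 (A B : ℕ) (F : ℤ × ℤ → ℕ) :
    ∑ a ∈ Pos_P A B, F (Pos_e a) ≤
      (2 * A + 1) * (2 * B + 1) * ∑ T ∈ bo (2 * A) (2 * B), F T := by
  unfold bo Pos_P
  rw [sum_product, sum_product]
  calc ∑ a ∈ Pos_D A, ∑ b ∈ Pos_D B, F (Pos_d a, Pos_d b)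
      ≤ (2 * A + 1) * ∑ h ∈ I (2 * A), ∑ b ∈ Pos_D B, F (h, Pos_d b) :=
        Pos_up A (fun h => ∑ b ∈ Pos_D B, F (h, Pos_d b))
    _ ≤ (2 * A + 1) * ∑ h ∈ I (2 * A), (2 * B + 1) * ∑ k ∈ I (2 * B), F (h, k) :=
        Nat.mul_le_mul_left _ (sum_le_sum fun h _ => Pos_up B (fun k => F (h, k)))
    _ = (2 * A + 1) * (2 * B + 1) * ∑ h ∈ I (2 * A), ∑ k ∈ I (2 * B), F (h, k) := by
        rw [← mul_sum, mul_assoc]

private lemma Pos_low3 (A B : ℕ) (F : ℤ × ℤ → ℤ × ℤ → ℤ × ℤ → ℕ) :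
    ((A + 1) * (B + 1)) ^ 3 * ∑ T₁ ∈ bo A B, ∑ T₂ ∈ bo A B, ∑ T₃ ∈ bo A B, F T₁ T₂ T₃ ≤
      ∑ a₁ ∈ Pos_P A B, ∑ a₂ ∈ Pos_P A B, ∑ a₃ ∈ Pos_P A B,
        F (Pos_e a₁) (Pos_e a₂) (Pos_e a₃) := by
  set K := (A + 1) * (B + 1) with hK
  calc K ^ 3 * ∑ T₁ ∈ bo A B, ∑ T₂ ∈ bo A B, ∑ T₃ ∈ bo A B, F T₁ T₂ T₃
      = K * ∑ T₁ ∈ bo A B, K * ∑ T₂ ∈ bo A B, K * ∑ T₃ ∈ bo A B, F T₁ T₂ T₃ := by
        simp only [← mul_sum]
        ring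
    _ ≤ K * ∑ T₁ ∈ bo A B, K * ∑ T₂ ∈ bo A B, ∑ a₃ ∈ Pos_P A B, F T₁ T₂ (Pos_e a₃) :=
        Nat.mul_le_mul_left _ (sum_le_sum fun T₁ _ => Nat.mul_le_mul_left _
          (sum_le_sum fun T₂ _ => Pos_low2 A B (F T₁ T₂)))
    _ ≤ K * ∑ T₁ ∈ bo A B, ∑ a₂ ∈ Pos_P A B, ∑ a₃ ∈ Pos_P A B,
          F T₁ (Pos_e a₂) (Pos_e a₃) :=
        Nat.mul_le_mul_left _ (sum_le_sum fun T₁ _ =>
          Pos_low2 A B (fun T₂ => ∑ a₃ ∈ Pos_P A B, F T₁ T₂ (Pos_e a₃)))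
    _ ≤ _ := Pos_low2 A B
          (fun T₁ => ∑ a₂ ∈ Pos_P A B, ∑ a₃ ∈ Pos_P A B, F T₁ (Pos_e a₂) (Pos_e a₃))

private lemma Pos_up3 (A B : ℕ) (F : ℤ × ℤ → ℤ × ℤ → ℤ × ℤ → ℕ) :
    ∑ a₁ ∈ Pos_P A B, ∑ a₂ ∈ Pos_P A B, ∑ a₃ ∈ Pos_P A B,
        F (Pos_e a₁) (Pos_e a₂) (Pos_e a₃) ≤
      ((2 * A + 1) * (2 * B + 1)) ^ 3 * ∑ T₁ ∈ bo (2 * A) (2 * B), ∑ T₂ ∈ bo (2 * A) (2 * B),
        ∑ T₃ ∈ bo (2 * A) (2 * B), F T₁ T₂ T₃ := by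
  set K := (2 * A + 1) * (2 * B + 1) with hK
  calc ∑ a₁ ∈ Pos_P A B, ∑ a₂ ∈ Pos_P A B, ∑ a₃ ∈ Pos_P A B,
        F (Pos_e a₁) (Pos_e a₂) (Pos_e a₃)
      ≤ K * ∑ T₁ ∈ bo (2 * A) (2 * B), ∑ a₂ ∈ Pos_P A B, ∑ a₃ ∈ Pos_P A B,
          F T₁ (Pos_e a₂) (Pos_e a₃) := Pos_up2 A B
          (fun T₁ => ∑ a₂ ∈ Pos_P A B, ∑ a₃ ∈ Pos_P A B, F T₁ (Pos_e a₂) (Pos_e a₃))
    _ ≤ K * ∑ T₁ ∈ bo (2 * A) (2 * B), K * ∑ T₂ ∈ bo (2 * A) (2 * B),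
          ∑ a₃ ∈ Pos_P A B, F T₁ T₂ (Pos_e a₃) :=
        Nat.mul_le_mul_left _ (sum_le_sum fun T₁ _ =>
          Pos_up2 A B (fun T₂ => ∑ a₃ ∈ Pos_P A B, F T₁ T₂ (Pos_e a₃)))
    _ ≤ K * ∑ T₁ ∈ bo (2 * A) (2 * B), K * ∑ T₂ ∈ bo (2 * A) (2 * B),
          K * ∑ T₃ ∈ bo (2 * A) (2 * B), F T₁ T₂ T₃ :=
        Nat.mul_le_mul_left _ (sum_le_sum fun T₁ _ => Nat.mul_le_mul_left _
          (sum_le_sum fun T₂ _ => Pos_up2 A B (F T₁ T₂)))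
    _ = _ := by
        simp only [← mul_sum]
        ring

open Classical in
/-- Cauchy-Schwarz -/
private lemma Pos_cs {G τ' : Type} [Group G] (S : Finset τ') (f : τ' → G) (γ : G) :
    ((S ×ˢ S).filter fun q => f q.1 = γ * f q.2).card ≤
      ((S ×ˢ S).filter fun q => f q.1 = f q.2).card := by
  set ρ : G → ℕ := fun g => (S.filter fun t => f t = g).card with hρ
  have h1 : ∀ δ : G, ((S ×ˢ S).filter fun q => f q.1 = δ * f q.2).card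
      = ∑ g ∈ S.image f, ρ g * ρ (δ * g) := by
    intro δ
    have h2 : ((S ×ˢ S).filter fun q => f q.1 = δ * f q.2).card
        = ∑ t ∈ S, ρ (δ * f t) := by
      rw [card_filter, sum_product_right]
      refine sum_congr rfl fun t _ => ?_
      show _ = (S.filter fun t' => f t' = δ * f t).card
      rw [card_filter]
    rw [h2, sum_comp (fun g => ρ (δ * g)) f]
    refine sum_congr rfl fun g _ => ?_
    rw [smul_eq_mul]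
  have h3 : ((S ×ˢ S).filter fun q => f q.1 = f q.2).card = ∑ g ∈ S.image f, ρ g * ρ g := by
    have h4 := h1 1
    simp only [one_mul] at h4
    exact h4
  rw [h1 γ, h3]
  have h5 : ∑ g ∈ S.image f, ρ (γ * g) * ρ (γ * g) ≤ ∑ g ∈ S.image f, ρ g * ρ g := by
    have h6 : ∑ g ∈ S.image f, ρ (γ * g) * ρ (γ * g)
        = ∑ h ∈ (S.image f).image (fun g => γ * g), ρ h * ρ h := by
      symm
      exact sum_image (f := fun h => ρ h * ρ h) (fun g _ g' _ h => mul_left_cancel h)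
    rw [h6]
    refine sum_le_sum_of_ne_zero ?_
    intro h _ hne
    have hpos : ρ h ≠ 0 := fun h0 => hne (by rw [h0, mul_zero])
    rw [hρ] at hpos
    obtain ⟨t, ht⟩ := card_pos.1 (Nat.pos_of_ne_zero hpos)
    rw [mem_filter] at ht
    exact mem_image.2 ⟨t, ht.1, ht.2⟩
  have h7 : 2 * ∑ g ∈ S.image f, ρ g * ρ (γ * g) ≤
      ∑ g ∈ S.image f, ρ g * ρ g + ∑ g ∈ S.image f, ρ (γ * g) * ρ (γ * g) := by
    rw [mul_sum, ← sum_add_distrib]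
    refine sum_le_sum fun g _ => ?_
    have h8 : ∀ x y : ℕ, 2 * (x * y) ≤ x * x + y * y := by
      intro x y
      have h9 : (2 : ℤ) * (x * y) ≤ x * x + y * y := by nlinarith [sq_nonneg ((x : ℤ) - y)]
      exact_mod_cast h9
    exact h8 _ _
  omega

/-- moving a factor to the other end -/
private lemma Pos_grp {G : Type} [Group G] (a a' b b' c c' d d' e e' f f' g : G)
    (hg : ∀ x, g * x = x * g) :
    a * a'⁻¹ * (b * b'⁻¹) * (c * c'⁻¹ * (d * d'⁻¹)) * (e * e'⁻¹ * (f * f'⁻¹)) = g ↔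
      a'⁻¹ * b * b'⁻¹ * c * c'⁻¹ * d = g * (a⁻¹ * f' * f⁻¹ * e' * e⁻¹ * d') := by
  have hc : g * (a⁻¹ * f' * f⁻¹ * e' * e⁻¹ * d') = a⁻¹ * g * (f' * f⁻¹ * e' * e⁻¹ * d') := by
    rw [← hg a⁻¹]
    group
  rw [hc]
  constructor
  · intro h
    rw [← h]
    group
  · intro h
    calc a * a'⁻¹ * (b * b'⁻¹) * (c * c'⁻¹ * (d * d'⁻¹)) * (e * e'⁻¹ * (f * f'⁻¹))
        = a * (a'⁻¹ * b * b'⁻¹ * c * c'⁻¹ * d) * (d'⁻¹ * e * e'⁻¹ * f * f'⁻¹) := by group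
      _ = a * (a⁻¹ * g * (f' * f⁻¹ * e' * e⁻¹ * d')) * (d'⁻¹ * e * e'⁻¹ * f * f'⁻¹) := by rw [h]
      _ = g := by group

theorem hPos : StPos := by
  intro G _ u l γ A B hu hl hγ
  classical
  have hu0 : u 0 = 1 := by
    have := hu 0 0
    rw [add_zero] at this
    exact (mul_eq_left.1 this.symm)
  have hl0 : l 0 = 1 := by
    have := hl 0 0
    rw [add_zero] at this
    exact (mul_eq_left.1 this.symm)
  have huneg : ∀ x, u (-x) = (u x)⁻¹ := by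
    intro x
    have h1 := hu x (-x)
    rw [add_neg_cancel, hu0] at h1
    exact (inv_eq_of_mul_eq_one_right h1.symm).symm
  have hlneg : ∀ x, l (-x) = (l x)⁻¹ := by
    intro x
    have h1 := hl x (-x)
    rw [add_neg_cancel, hl0] at h1
    exact (inv_eq_of_mul_eq_one_right h1.symm).symm
  have husub : ∀ x y, u (x - y) = u x * (u y)⁻¹ := by
    intro x y
    rw [sub_eq_add_neg, hu, huneg]
  have hlsub : ∀ x y, l (x - y) = l x * (l y)⁻¹ := by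
    intro x y
    rw [sub_eq_add_neg, hl, hlneg]
  -- the word of three points
  set wd3 : ℤ × ℤ → ℤ × ℤ → ℤ × ℤ → G := fun T₁ T₂ T₃ =>
    u T₁.1 * l T₁.2 * (u T₂.1 * l T₂.2) * (u T₃.1 * l T₃.2) with hwd3
  have hW : ∀ (g : G) (A B : ℕ), W u l g A B
      = ∑ T₁ ∈ bo A B, ∑ T₂ ∈ bo A B, ∑ T₃ ∈ bo A B, if wd3 T₁ T₂ T₃ = g then 1 else 0 := by
    intro g A B
    unfold W
    rw [card_filter, sum_product]
    refine sum_congr rfl fun T₁ _ => ?_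
    rw [sum_product]
  -- the middle quantity
  set M : G → ℕ := fun g => ∑ a₁ ∈ Pos_P A B, ∑ a₂ ∈ Pos_P A B, ∑ a₃ ∈ Pos_P A B,
    if wd3 (Pos_e a₁) (Pos_e a₂) (Pos_e a₃) = g then 1 else 0 with hM
  have hM2 : ∀ g, M g = ((Pos_P A B ×ˢ Pos_P A B ×ˢ Pos_P A B).filter fun a =>
      wd3 (Pos_e a.1) (Pos_e a.2.1) (Pos_e a.2.2) = g).card := by
    intro g
    rw [card_filter, sum_product]
    refine sum_congr rfl fun a₁ _ => ?_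
    rw [sum_product]
  -- the tuples
  set R := range (2 * A + 1) with hR
  set Q := range (2 * B + 1) with hQ
  set S : Finset (ℕ × (ℕ × ℕ) × (ℕ × ℕ) × ℕ) := R ×ˢ (Q ×ˢ Q) ×ˢ (R ×ˢ R) ×ˢ Q with hS
  set f : ℕ × (ℕ × ℕ) × (ℕ × ℕ) × ℕ → G := fun t =>
    (u t.1)⁻¹ * l t.2.1.1 * (l t.2.1.2)⁻¹ * u t.2.2.1.1 * (u t.2.2.1.2)⁻¹ * l t.2.2.2 with hf
  have hbij : ∀ g : G, (∀ x, g * x = x * g) →
      ((Pos_P A B ×ˢ Pos_P A B ×ˢ Pos_P A B).filter fun a =>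
        wd3 (Pos_e a.1) (Pos_e a.2.1) (Pos_e a.2.2) = g).card =
      ((S ×ˢ S).filter fun q => f q.1 = g * f q.2).card := by
    intro g hg
    refine card_bij'
      (fun a _ => ((a.1.1.2, (a.1.2.1, a.1.2.2), (a.2.1.1.1, a.2.1.1.2), a.2.1.2.1),
        (a.1.1.1, (a.2.2.2.2, a.2.2.2.1), (a.2.2.1.2, a.2.2.1.1), a.2.1.2.2)))
      (fun q _ => (((q.2.1, q.1.1), (q.1.2.1.1, q.1.2.1.2)),
        (((q.1.2.2.1.1, q.1.2.2.1.2), (q.1.2.2.2, q.2.2.2.2)),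
          ((q.2.2.2.1.2, q.2.2.2.1.1), (q.2.2.1.2, q.2.2.1.1)))))
      ?_ ?_ ?_ ?_
    · rintro ⟨⟨⟨x1, x1'⟩, ⟨y1, y1'⟩⟩, ⟨⟨x2, x2'⟩, ⟨y2, y2'⟩⟩, ⟨⟨x3, x3'⟩, ⟨y3, y3'⟩⟩⟩ ha
      simp only [mem_filter, mem_product, Pos_P, Pos_D, hS, hR, hQ] at ha ⊢
      obtain ⟨h1, h2⟩ := ha
      refine ⟨by tauto, ?_⟩
      simp only [hwd3, Pos_e, Pos_d, husub, hlsub] at h2
      simp only [hf]
      exact (Pos_grp _ _ _ _ _ _ _ _ _ _ _ _ g hg).1 h2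
    · rintro ⟨⟨p, ⟨q, q'⟩, ⟨r, r'⟩, s⟩, ⟨p1, ⟨q1, q1'⟩, ⟨r1, r1'⟩, s1⟩⟩ ha
      simp only [mem_filter, mem_product, Pos_P, Pos_D, hS, hR, hQ] at ha ⊢
      obtain ⟨h1, h2⟩ := ha
      refine ⟨by tauto, ?_⟩
      simp only [hwd3, Pos_e, Pos_d, husub, hlsub]
      simp only [hf] at h2
      exact (Pos_grp _ _ _ _ _ _ _ _ _ _ _ _ g hg).2 h2
    · rintro ⟨⟨⟨x1, x1'⟩, ⟨y1, y1'⟩⟩, ⟨⟨x2, x2'⟩, ⟨y2, y2'⟩⟩, ⟨⟨x3, x3'⟩, ⟨y3, y3'⟩⟩⟩ _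
      rfl
    · rintro ⟨⟨p, ⟨q, q'⟩, ⟨r, r'⟩, s⟩, ⟨p1, ⟨q1, q1'⟩, ⟨r1, r1'⟩, s1⟩⟩ _
      rfl
  have hMle : M γ ≤ M 1 := by
    rw [hM2, hM2, hbij γ hγ, hbij 1 (fun x => by rw [one_mul, mul_one])]
    simp only [one_mul]
    exact Pos_cs S f γ
  calc (A + 1) ^ 3 * (B + 1) ^ 3 * W u l γ A B
      = ((A + 1) * (B + 1)) ^ 3 * W u l γ A B := by rw [mul_pow]
    _ ≤ M γ := by
        rw [hW]
        exact Pos_low3 A B (fun T₁ T₂ T₃ => if wd3 T₁ T₂ T₃ = γ then 1 else 0)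
    _ ≤ M 1 := hMle
    _ ≤ ((2 * A + 1) * (2 * B + 1)) ^ 3 * W u l 1 (2 * A) (2 * B) := by
        rw [hW]
        exact Pos_up3 A B (fun T₁ T₂ T₃ => if wd3 T₁ T₂ T₃ = 1 then 1 else 0)
    _ = _ := by rw [mul_pow]

end Pool.Agent.Helper89.HX
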