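import Pool.Agent.Helper89.HX.Defs

/-!
# HX: statements of the modules (MP_e188f1_nt)

A module `M_X.lean` proves `theorem hX (hY : StY) ... : StX` in the namespace
`Pool.Agent.Helper89.HX`.
-/

set_option autoImplicit false

namespace Pool.Agent.Helper89.HX

open Finset Pool.Agent.Helper56.SW

/-- **Pos** (no hypotheses). `G` a group, `u`, `l` homomorphisms from `ℤ`, `γ` central.

Proof.  For `|h| ≤ A` the number of `(x, x')` in `[0, 2A]²` with `x - x' = h` is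
`2A + 1 - |h| ≥ A + 1`; for `|h| ≤ 2A` it is at most `2A + 1`.  Let
`M_γ` be the number of `(x_i, x_i')` in `[0,2A]²`, `(y_i, y_i')` in `[0,2B]²`, `i = 1,2,3`, with
`u(x₁-x₁') l(y₁-y₁') u(x₂-x₂') l(y₂-y₂') u(x₃-x₃') l(y₃-y₃') = γ`.  So
`(A+1)³ (B+1)³ W_γ(A,B) ≤ M_γ` and `M_1 ≤ (2A+1)³ (2B+1)³ W_1(2A,2B)`.  As `γ` is central one can
move the factor `u(x₁)` to the right end, and the relation becomes
`Bw(x₁', y₁, y₁', x₂, x₂', y₂) = γ Bw(x₁, y₃', y₃, x₃', x₃, y₂')` with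
`Bw(p, q, q', r, r', s) = u(-p) l(q) l(-q') u(r) u(-r') l(s)`.  Both tuples run over the same box,
so with `ρ(g)` the number of tuples with `Bw = g`,
`M_γ = ∑_g ρ(γ g) ρ(g) ≤ ∑_g ρ(g)² = M_1` (`2 ρ(γ g) ρ(g) ≤ ρ(γ g)² + ρ(g)²`). -/
def StPos : Prop :=
  ∀ (G : Type) (_ : Group G) (u l : ℤ → G) (γ : G) (A B : ℕ),
    (∀ x y, u (x + y) = u x * u y) → (∀ x y, l (x + y) = l x * l y) → (∀ g, γ * g = g * γ) →
    (A + 1) ^ 3 * (B + 1) ^ 3 * W u l γ A B ≤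
      (2 * A + 1) ^ 3 * (2 * B + 1) ^ 3 * W u l 1 (2 * A) (2 * B)

/-- **Red** (from Pos). Reduction of the word count to the count of `Sol`.

Proof.  For each `γ ∈ Γ c` apply Pos in `G = SL₂(ℤ/c)` (or `GL₂`) with
`u(x) = [[1, a x], [0, 1]]`, `l(y) = [[1, 0], [b y, 1]]` and the scalar `γ`:
a list `[(h₃,k₃), (h₂,k₂), (h₁,k₁)]` of `bx (I A) (I B) 3` (head = LAST factor, see
`Pool.Agent.Helper56.SW.E`, and `M_Tr_rel_iff` in `Helper56/SW/M_Tr.lean`) with word `γ` is a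
member of the set counted by `W u l γ A B`, so `N c a b 3 A B ≤ #Γ · 64 · W u l 1 (2A) (2B)`
(`(2A+1)³(2B+1)³ ≤ 64 (A+1)³(B+1)³`).  For `γ = 1`: from
`U(a h₁) L(b k₁) U(a h₂) = L(-b k₃) U(-a h₃) L(-b k₂)` one gets, entry by entry (`a`, `b` units
mod `c`), `h₁ k₁ ≡ h₃ k₂`, `h₂ k₁ ≡ h₃ k₃`, `h₁+h₂+h₃ + a b h₁ h₂ k₁ ≡ 0`,
`k₁+k₂+k₃ + a b h₃ k₂ k₃ ≡ 0`, and from
`L(b k₁) U(a h₂) L(b k₂) = U(-a h₁) L(-b k₃) U(-a h₃)` also `h₂ k₂ ≡ h₁ k₃`.  So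
`((h₁,k₂), (h₂,k₃), (h₃,k₁)) ∈ Sol c (a b) (2A) (2B)`, an injective map. -/
def StRed : Prop :=
  ∀ (c : ℕ) (a b : ℤ) (A B : ℕ), 1 ≤ c → IsCoprime a c → IsCoprime b c →
    N c a b 3 A B ≤ 64 * (Γ c).card * (Sol c (a * b) (2 * A) (2 * B)).card

/-- **Tr2** (no hypotheses). `Helper56/SW/M_Tr.lean`, theorem `stTr`, with any prescribed
representatives; its proof works verbatim (it is done there for one choice of `a`, `b`). -/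
def StTr2 : Prop :=
  ∀ (r c : ℕ) (a₁ a₂ : (ZMod c)ˣ) (H₁ H₂ : ℝ) (a b : ℤ), 1 ≤ c → 1 ≤ H₁ → H₁ ≤ H₂ →
    (a : ZMod c) = a₁ → (b : ZMod c) = - (a₂ : ZMod c) →
      Nq (2 * r) c a₁ a₂ H₁ H₂ = N c a b r ⌊H₁⌋₊ ⌊H₂⌋₊

/-- **Z** (no hypotheses). Solutions with a zero letter.

Proof. All letters are `< c/4` in absolute value, so `c ∣ letter` iff the letter is `0`, and
`c ∣ product` iff some factor is `0` (`c` prime).  If `x₁ = 0`: `c ∣ wd P₁ P₂ = - z₁ x₂` and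
`c ∣ wd P₁ P₃ = - z₁ x₃`, so `z₁ = 0`, and then `x₂ = - x₃`, `z₂ = - z₃` (the `β` terms vanish), or
`x₂ = x₃ = 0`, and then `z₁+z₂+z₃ = 0`.  If `z₁ = 0`: `x₁ = 0`, and again `P₂ = - P₃`, or
`z₂ = z₃ = 0` and `x₁+x₂+x₃ = 0`.  The same for the index `2`; for the index `3`: `P₃ = 0` and
`P₁ = - P₂`, or all `x` zero and `z₁+z₂+z₃ = 0`, or all `z` zero and `x₁+x₂+x₃ = 0`.  Number:
at most `3 (2A+1)(2B+1) + (2B+1)² + (2A+1)² ≤ 5 (2B+1)² ≤ 45 B²`. -/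
def StZ : Prop :=
  ∀ (c : ℕ) (β : ℤ) (A B : ℕ), c.Prime → 1 ≤ A → A ≤ B → 4 * B < c →
    (SolZ c β A B).card ≤ 45 * B ^ 2

/-- **D** (no hypotheses; `τ`, `stFac`, `stAP` of `Helper56/SW` may help). The case
`c ∣ 1 + β x₂ z₁`.

Proof.  `x₁ z₃ ≡ x₃ z₁`, so `0 ≡ x₁+x₂+x₃+β x₁ x₂ z₃ ≡ x₁+x₂+x₃ (1 + β x₂ z₁) ≡ x₁ + x₂`, hence
`x₂ = - x₁` (`2 A < c`); `x₁ z₂ ≡ x₂ z₁ = - x₁ z₁`, hence `z₂ ≡ - z₁` and `z₂ = - z₁`.  Now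
`β x₁ z₁ ≡ 1`, and `z₃` is determined by `x₃` and `P₁`: `x₁ z₃ ≡ x₃ z₁`, `2 B < c`.  The integers
`j = x₁ z₁`, `|j| ≤ A B`, are nonzero and congruent to each other mod `c` (`c ∤ β`), at most
`2 A B / c + 1` of them, each with at most `2 D` factorisations, and `x₃` takes at most `2A+1`
values. -/
def StD : Prop :=
  ∀ (c : ℕ) (β : ℤ) (A B : ℕ) (D : ℝ), c.Prime → ¬ (c : ℤ) ∣ β → 1 ≤ A → A ≤ B → 4 * B < c →
    (∀ j : ℕ, 1 ≤ j → j ≤ A * B → τ j ≤ D) →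
    ((SolD c β A B).card : ℝ) ≤ 2 * D * (2 * A * B / c + 1) * (2 * A + 1)

/-- **P** (no hypotheses). `P₁`, `P₂` parallel over `ℤ`.

Proof.  The number of `(P₁, P₂)` with `x₁ z₂ = z₁ x₂ ≠ 0`: at most `4 A B` for `(x₁, z₂)`, then
`(z₁, x₂)` is a factorisation of the nonzero integer `x₁ z₂`, `≤ A B` in absolute value: `2 D`
choices.  Then `x₃ (1 + β x₂ z₁) ≡ - x₁ - x₂` (as in D) and `c ∤ 1 + β x₂ z₁` determine `x₃`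
(`2 A < c`), and `z₃ ≡ - z₁ - z₂ - β x₃ z₁ z₂`. -/
def StP : Prop :=
  ∀ (c : ℕ) (β : ℤ) (A B : ℕ) (D : ℝ), c.Prime → ¬ (c : ℤ) ∣ β → 1 ≤ A → A ≤ B → 4 * B < c →
    (∀ j : ℕ, 1 ≤ j → j ≤ A * B → τ j ≤ D) →
    ((SolP c β A B).card : ℝ) ≤ 8 * D * A * B

/-- **Bas** (no hypotheses). A lattice with two independent vectors in the box has a reduced basis.

Proof.  `Λ = {(x,y) : c ∣ y - lam x}`; the wedge of two of its vectors is a multiple of `c`.  Put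
`‖(x,y)‖ = max (B |x|) (A |y|)` (a natural number; `≤ A B` iff the vector is in the box).  Let `e` be
a nonzero vector of `Λ` of least norm `n₁`, and `f ∈ Λ` with `wd e f ≠ 0` of least norm `n₂`, and
among those with least `|wd e f|`.  So `n₁ ≤ n₂ ≤ A B` (both in the box).

(1) `e, f` generate `Λ`: for `P ∈ Λ` write `P = s e + t f` with `s, t` rational and subtract the
nearest integers, `P' = s' e + t' f ∈ Λ`, `|s'|, |t'| ≤ 1/2`; then `‖P'‖ ≤ (n₁+n₂)/2 ≤ n₂`; if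
`t' ≠ 0` then `wd e P' = t' wd e f ≠ 0` is smaller than `|wd e f|` in absolute value and
`‖P'‖ ≤ n₂`, contradiction; so `t' = 0`, `‖P'‖ = |s'| n₁ < n₁`, so `P' = 0`.
(2) `|wd e f| = c`: a multiple of `c`, and `(1, lam), (0, c) ∈ Λ` have wedge `c`, which by (1) is a
multiple of `wd e f`.
(3) `n₁ n₂ ≤ 6 c A B` (in fact `≤ c A B`): let `p = B u, q = A u', r = B v, s = A v'`
(`e = (u,u')`, `f = (v,v')`), so `|p s - q r| = c A B`, `n₁ = max |p| |q|`, `n₂ = max |r| |s|`, and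
`‖f ± e‖ ≥ n₂` (`f ± e` is not parallel to `e`).  Claim `|p s - q r| ≥ n₁ n₂`.  Say `|p| ≥ |q|` (the
other case is symmetric).  (i) `|s| > |r|`: if `(p s)(q r) ≤ 0` then `|ps - qr| ≥ |ps| = n₁ n₂`; else
all are nonzero, `σ = sgn(pr) = sgn(qs)`, and both coordinates of `f - σ e` are smaller than
`|s| = n₂` in absolute value, a contradiction.  (ii) `|r| ≥ |s|`: with `σ = sgn(pr)`,
`|r - σp| = |r| - |p| < |r|`, so `|s - σq| ≥ |r|`; if `s`, `σq` have opposite signs then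
`|ps - qr| = |p||s| + |q||r| ≥ |p| (|s| + |q|) ≥ |p||r|`; if they have the same sign, one of them is
`0` and the other `|r|`, and again `|ps - qr| ≥ |p||r|`.
(4) Let `c 2^k ≤ 2 n₂ < c 2^(k+1)` (`c = |wd e f| ≤ 2 n₁ n₂ / (A B) ≤ 2 n₂` by
`A B |wd e f| = |ps-qr| ≤ 2 n₁ n₂` and `n₁ ≤ A B`).  Then
`B |u| c 2^k ≤ n₁ 2 n₂ ≤ 12 c A B`, so `|u| 2^k ≤ 12 A`; same for `u'`;
`|v| B ≤ n₂ < c 2^k`; same for `v'`; `c 2^k ≤ 2 n₂ ≤ 2 A B`.  For `P = m e + n f` in the box: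
`|m| c = |wd P f| ≤ A |v'| + B |v| ≤ 2 n₂ < c 2^(k+1)`, `|n| c = |wd e P| ≤ 2 n₁ ≤ 2 n₂`, and
`|n| c (c 2^k) ≤ 2 n₁ 2 n₂ ≤ 24 c A B`. -/
def StBas : Prop :=
  ∀ (c : ℕ) (lam : ℤ) (A B : ℕ), 1 ≤ c → 1 ≤ A → 1 ≤ B → Two c lam A B →
    ∃ (k : ℕ) (e f : ℤ × ℤ), Bs c A B k lam e f

/-- **Cnt** (from Bas). Proof: the coordinates `(m, n)` of `Bs.comb`: at most
`2 · 2^(k+1) + 1 ≤ 5 · 2^k` values of `m` and `2 · 24 A B / (c 2^k) + 1 ≤ 72 A B / (c 2^k)` values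
of `n` (`c 2^k ≤ 24 A B`, `Bs.le`). -/
def StCnt : Prop :=
  ∀ (c : ℕ) (lam : ℤ) (A B : ℕ), 1 ≤ c → 1 ≤ A → 1 ≤ B → Two c lam A B →
    ((La c lam A B).card : ℝ) ≤ 360 * A * B / c

/-- **Nu** (no hypotheses). Pairs `e = (u, u')`, `f = (v, v')` of wedge `±c` in given ranges with
`v ≡ ν u`, `v' ≡ ν u'`.

Proof.  Put `ρ = B / A ≥ 1`, `p = (u, v)`, `p' = (u', v')`; all lie in `Λ = {(x,y) : c ∣ y - ν x}`, in
which wedges are multiples of `c`; `|u| ≤ U`, `|v| ≤ V`, `|u'| ≤ ρ U`, `|v'| ≤ ρ V` with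
`U = 12 A / 2^k`, `V = 2^k c / B`, `U V = 12 c / ρ`.  As `wd p p' = ± c` (`wd e f` is the same
determinant), `p` is primitive in `Λ`: a vector of `Λ` parallel to `p` is an integer multiple
of `p` (if `q ∈ Λ` is parallel to `p`, then `wd q p' = j c = ± j wd p p'`, so `q ∓ j p` is parallel
to both `p` and `p'`, so it is `0`).
Case 1: all first members `p` (over `S`) are parallel.  Then they are `± p₀`.  For given `p` the `p'`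
lie in two classes `wd p p' = c`, `wd p p' = - c`, and in each class they differ by `t p`, `t ∈ ℤ`.
As `c = |wd p p'| ≤ |u| ρ V + |v| ρ U`, either `|u| ≥ c/(2 ρ V)` and
`|t| ≤ 2 ρ U / |u| ≤ 4 ρ² U V / c = 48 ρ`, or `|v| ≥ c / (2 ρ U)` and again `|t| ≤ 48 ρ`.  So at most
`2 · 2 · (48 ρ + 1) ≤ 196 ρ` pairs.
Case 2: there are two nonparallel `p₁, p₂`, so `c ≤ |wd p₁ p₂| ≤ 2 U V = 24 c / ρ`, so `ρ ≤ 24`.
For any `p`: `wd p₁ p = j c`, `|j| ≤ 24 / ρ ≤ 24`, 49 values, and for given `j` the `p` differ by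
`t p₁`; from `c ≤ |u₁| V + |v₁| U` (`p₂`), `|t| ≤ 4 U V / c = 48/ρ`: 49 values.  For any `p'`:
`wd p₁ p' = j c`, `|j| ≤ 2 ρ U V / c = 24`, 49 values, and for given `j`, `p'` differ by `t p₁`,
`|t| ≤ 4 ρ U V / c = 48`: 49 values.  Total `49^4 ≤ 49^4 ρ`. -/
def StNu : Prop :=
  ∀ (c : ℕ) (ν : ℤ) (A B k : ℕ) (S : Finset ((ℤ × ℤ) × (ℤ × ℤ))), 1 ≤ c → 1 ≤ A → A ≤ B →
    (∀ q ∈ S, |wd q.1 q.2| = c ∧ (c : ℤ) ∣ q.2.1 - ν * q.1.1 ∧ (c : ℤ) ∣ q.2.2 - ν * q.1.2 ∧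
      |q.1.1| * 2 ^ k ≤ 12 * A ∧ |q.1.2| * 2 ^ k ≤ 12 * B ∧
      |q.2.1| * B ≤ 2 ^ k * c ∧ |q.2.2| * A ≤ 2 ^ k * c) →
    (S.card : ℝ) ≤ 49 ^ 4 * B / A

/-- **Root** (no hypotheses). A cubic which is not zero modulo a prime has at most three roots. -/
def StRoot : Prop :=
  ∀ (c : ℕ) (d₀ d₁ d₂ d₃ : ℤ), c.Prime →
    ¬ ((c : ℤ) ∣ d₀ ∧ (c : ℤ) ∣ d₁ ∧ (c : ℤ) ∣ d₂ ∧ (c : ℤ) ∣ d₃) →
    ((range c).filter fun ν : ℕ => (c : ℤ) ∣ d₀ + d₁ * ν + d₂ * ν ^ 2 + d₃ * ν ^ 3).card ≤ 3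

/-- **Lam** (from Nu, Root). For given coordinates, the number of `lam`.

Proof.  `∏ (m_i T + n_i U) - ∏ (m_i' T + n_i' U) = d₀ T³ + d₁ T² U + d₂ T U² + d₃ U³` with
`|d_j| ≤ 2 · 3 · (2^(k+1))³ = 48 · 8^k < c`, not all `d_j` zero (the two products differ at some
`(t, w)`), so not all divisible by `c`.  For `lam ∈ S` with `e = (u,u')`, `f = (v,v')`: `c ∤ u`
(`|u| ≤ A < c`, and `u = 0` gives `c ∣ u'`, `|u'| ≤ B < c`, so `u' = 0` and `wd e f = 0`); let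
`ν ∈ [0, c)`, `v ≡ ν u`; then `v' ≡ lam v ≡ ν lam u ≡ ν u'`, and
`c ∣ u³ (d₀ + d₁ ν + d₂ ν² + d₃ ν³)`, so `ν` is one of at most three roots (Root).  For each `ν` at
most `49^4 B/A` values of `(e, f)` (Nu), and `lam ∈ [0,c)` is determined by `e`. -/
def StLam : Prop :=
  ∀ (c A B k : ℕ) (m n m' n' : Fin 3 → ℤ) (S : Finset ℕ), c.Prime → 1 ≤ A → A ≤ B → B < c →
    48 * 8 ^ k < c →
    (∀ i, |m i| ≤ 2 ^ (k + 1) ∧ |n i| ≤ 2 ^ (k + 1) ∧ |m' i| ≤ 2 ^ (k + 1) ∧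
      |n' i| ≤ 2 ^ (k + 1)) →
    (∃ t w : ℤ, (m 0 * t + n 0 * w) * (m 1 * t + n 1 * w) * (m 2 * t + n 2 * w) ≠
      (m' 0 * t + n' 0 * w) * (m' 1 * t + n' 1 * w) * (m' 2 * t + n' 2 * w)) →
    (∀ lam ∈ S, lam < c ∧ ∃ e f : ℤ × ℤ, Bs c A B k lam e f ∧
      (c : ℤ) ∣ (m 0 * e.1 + n 0 * f.1) * (m 1 * e.1 + n 1 * f.1) * (m 2 * e.1 + n 2 * f.1) -
        (m' 0 * e.1 + n' 0 * f.1) * (m' 1 * e.1 + n' 1 * f.1) * (m' 2 * e.1 + n' 2 * f.1)) →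
    (S.card : ℝ) ≤ 3 * 49 ^ 4 * B / A

/-- **Sc** (no hypotheses). The number of `lam` of large scale.

Proof.  `(2^k)³ ≥ c / 48 ≥ t³ / 64`, so `2^k ≥ t / 4`, `|u| ≤ 48 A / t`, `|u'| ≤ 48 B / t`
(`e = (u,u')`); `u ≠ 0` (as in Lam), and `lam ∈ [0, c)` is determined by `e`.  If `S` is nonempty then
`48 A / t ≥ 1`; so at most `(2 · 48 A / t) (2 · 48 B / t + 1) ≤ 96 · 144 · A B / t²`. -/
def StSc : Prop :=
  ∀ (c A B : ℕ) (t : ℝ) (S : Finset ℕ), c.Prime → 1 ≤ A → A ≤ B → B < c → 0 < t → t ^ 3 = c →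
    (∀ lam ∈ S, lam < c ∧ ∃ (k : ℕ) (e f : ℤ × ℤ), Bs c A B k lam e f ∧ c ≤ 48 * 8 ^ k) →
    (S.card : ℝ) ≤ 20000 * A * B / t ^ 2

/-- **Sk** (from Bas, Cnt, Sc). The members of `SolN` not in `SolG`.

Proof.  Let `T ∈ SolN`, `T ∉ SolG`.  `x₁` is invertible mod `c`; let `lam ∈ [0,c)`,
`z₁ ≡ lam x₁`; the wedges give `z_i ≡ lam x_i`, so `P₁, P₂, P₃ ∈ La c lam A B` and
`Two c lam A B` (`wd P₁ P₂ ≠ 0`); by Bas there is a `Bs c A B k lam e f`, and `c ≤ 48 · 8^k` as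
otherwise `Gd c A B T`.  By Sc there are at most `20000 A B / t²` such `lam`; for each at most
`(360 A B / c)²` pairs `(P₁, P₂)` (Cnt), which determine `P₃` (see the proof of P). -/
def StSk : Prop :=
  ∀ (c : ℕ) (β : ℤ) (A B : ℕ) (t : ℝ), c.Prime → ¬ (c : ℤ) ∣ β → 1 ≤ A → A ≤ B → 4 * B < c →
    0 < t → t ^ 3 = c →
    ((SolN c β A B).card : ℝ) ≤ (SolG c β A B).card +
      20000 * A * B / t ^ 2 * (360 * A * B / c) ^ 2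

/-- **Pr** (from Lam). Pairs with equal sums and different products.

Proof.  Let `(T, T') ∈ Pr`, `T` in a lattice `lam` and `T'` in a lattice `lam'` (`Gd`), both
reduced to `[0, c)` (`Bs` depends only on `lam` mod `c`).  With `s = x₁+x₂+x₃` the relation and
`z₃ ≡ lam x₃` give `s ≡ - β lam x₁ x₂ x₃ ≢ 0` (`c ∤ β`, all letters are units; `lam` is a unit as
`z₁` is), and `z₁+z₂+z₃ ≡ lam s`.  The sums being equal, `lam s ≡ lam' s`, so `lam = lam'`, and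
`x₁x₂x₃ ≡ x₁'x₂'x₃' (mod c)`.
For each `lam ∈ [0,c)` having some `Bs c A B k lam e f` with `48 · 8^k < c` choose one.  The
coordinates (`Bs.comb`) of `P₁, P₂, P₃, P₁', P₂'` are five pairs `(m, n)`, each taking at most
`5 · 2^k · 72 A B/(c 2^k) = 360 A B / c` values for given `k` (see Cnt); those of `P₃'` are
`(m₁+m₂+m₃-m₁'-m₂', ...)` since the sums agree and `e, f` are independent.  `k` takes at most
`log₂ c + 1` values (`2^k ≤ 8^k < c`).  For given `k` and coordinates Lam applies to the set of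
`lam` (with `(t, w) = (e.1, f.1)` for the inequality: the products are different integers), so
there are at most `3 · 49^4 B / A` values of `lam`, and `lam` (with its chosen basis) and the
coordinates determine `(T, T')`. -/
def StPr : Prop :=
  ∀ (c : ℕ) (β : ℤ) (A B : ℕ), c.Prime → ¬ (c : ℤ) ∣ β → 1 ≤ A → A ≤ B → 4 * B < c →
    ((Pr c β A B).card : ℝ) ≤
      (Nat.log 2 c + 1) * (360 * A * B / c) ^ 5 * (3 * 49 ^ 4 * B / A)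

/-- **CS** (no hypotheses). Cauchy-Schwarz.

Proof.  `sg` maps `SolG` to the box `|s| ≤ 3 A`, `|s'| ≤ 3 B`, with at most
`(6A+1)(6B+1) ≤ 49 A B` elements, so `#SolG² ≤ 49 A B #{(T,T') : sg T = sg T'}`.  The pairs
with `px T ≠ px T'` are those of `Pr`.  For given `T` the pairs with `px T' = px T`:
`x₁' x₂' x₃' = n`, a given integer, `1 ≤ |n| ≤ A³`: `x₁'` is a divisor of `n` (`≤ 2 D` choices) and
`x₂'` a divisor of `n / x₁'` (or of `n`: `≤ 2 D` choices), `x₃'` is then determined; and as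
`s ≢ 0`, `z₁+z₂+z₃ ≡ lam' s` determines `lam'` mod `c` (see Pr: `z_i' ≡ lam' x_i'`,
`s ≡ - β lam' x₁'x₂'x₃' ≢ 0`), then `z_i' ≡ lam' x_i'` and `2 B < c` determine `z_i'`.  So at most
`4 D²` values of `T'`. -/
def StCS : Prop :=
  ∀ (c : ℕ) (β : ℤ) (A B : ℕ) (D : ℝ), c.Prime → ¬ (c : ℤ) ∣ β → 1 ≤ A → A ≤ B → 4 * B < c →
    (∀ j : ℕ, 1 ≤ j → j ≤ A ^ 3 → τ j ≤ D) →
    ((SolG c β A B).card : ℝ) ^ 2 ≤
      49 * A * B * (4 * D ^ 2 * (SolG c β A B).card + (Pr c β A B).card)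

/-- **Sol** (from Z, D, P, Sk, Pr, CS). The bound for `Sol`.

Proof. `Sol = SolZ ∪ SolD ∪ SolP ∪ SolN`.  With `X` the bound of Pr and `n = #SolG`:
`n² ≤ 196 A B D² n + 49 A B X`, so `n ≤ 392 A B D² + √(98 A B X)`,
`√(98 A B X) ≤ 2·10^11 L (AB)³/c^(5/2) √(B/A)`, `L = log₂ c + 1`.  For Sk take `t = c^(1/3)`:
`20000 · 360² (AB)³ / (t² c²)` and `t² √... ` : `t⁴ ≥ c` so `t² ≥ √c`.  All constants are at
most `10^12`, `2 D (2AB/c + 1)(2A+1) ≤ 9 D B²` and `D ≥ 1`. -/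
def StSol : Prop :=
  ∀ (c : ℕ) (β : ℤ) (A B : ℕ) (D : ℝ), c.Prime → ¬ (c : ℤ) ∣ β → 1 ≤ A → A ≤ B → 4 * B < c →
    (∀ j : ℕ, 1 ≤ j → j ≤ c ^ 3 → τ j ≤ D) →
    ((Sol c β A B).card : ℝ) ≤ 10 ^ 12 * (Nat.log 2 c + 1) * D ^ 2 *
      ((B : ℝ) ^ 2 + √((B : ℝ) / A) * ((A * B : ℝ) ^ 3 / (c ^ 2 * √(c : ℝ))))

/-- **FinA** (from Sol, Red). The final statement for six letters.

Proof.  Use `fn_Q1` (r = 3, `Helper56/SW/Final.lean`) for `η c ≤ H₂`, `η = 1/32`.  Otherwise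
`stTr`, `A = ⌊H₁⌋₊`, `B = ⌊H₂⌋₊`, Red, `#Γ ≤ 2 τ(c) = 4` (`stSqrt`; `c` prime), Sol at `2A, 2B`
(`8 B < c`), the divisor bound `fn_div`, and `log₂ c + 1 ≤ C c^(ε/4)`; note
`√(2B/2A) ≤ √(2 H₂/H₁)` since `A ≥ H₁/2`. -/
def StFinA : Prop :=
  ∀ (K ε : ℝ), 1 ≤ K → 0 < ε → ∃ C : ℝ, 0 < C ∧
    ∀ (c : ℕ) (a₁ a₂ : (ZMod c)ˣ) (H₁ H₂ : ℝ), c.Prime → 1 ≤ H₁ → H₁ ≤ H₂ → H₂ ≤ K * c →
      (Nq 6 c a₁ a₂ H₁ H₂ : ℝ) ≤ C * (c : ℝ) ^ ε *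
        (H₂ ^ 2 + √(H₂ / H₁) * (√(c : ℝ) * ((H₁ * H₂) ^ 3 / (c : ℝ) ^ 3)))

/-- **Avg** (from Cnt). The average over `β` of the solutions without zero letter.

Proof.  Count `(β, T)`.  `T` has no zero letter and pairwise wedges divisible by `c`, and for
given `T` there is at most one `β ∈ [1, c)`: `β x₁ x₂ z₃ ≡ -(x₁+x₂+x₃)`, `x₁ x₂ z₃` a unit.
Triples with `wd P₁ P₂ = 0`: at most `8 D A B` pairs `(P₁, P₂)` (see P), at most `2 A` values of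
`x₃`, and `z₃` is determined by `x₁ z₃ ≡ x₃ z₁`: at most `16 D A² B`.  Triples with
`wd P₁ P₂ ≠ 0`: as in Sk there is `lam ∈ [0, c)` with `P₁, P₂, P₃ ∈ La c lam A B`, `Two c lam A B`, so
at most `c (360 A B / c)³`. -/
def StAvg : Prop :=
  ∀ (c : ℕ) (A B : ℕ) (D : ℝ), c.Prime → 1 ≤ A → A ≤ B → 4 * B < c →
    (∀ j : ℕ, 1 ≤ j → j ≤ A * B → τ j ≤ D) →
    (∑ β ∈ Ico 1 c, (((SolP c β A B).card : ℝ) + (SolN c β A B).card)) ≤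
      16 * D * A ^ 2 * B + c * (360 * A * B / c) ^ 3

/-- **Exc** (from Avg, Z, D). The exceptional `β`.

Proof.  Let `X = B² + (AB)³/c³`.  `#Sol ≤ 45 B² + 9 D B² + #SolP + #SolN` (`StD` with
`2 (2AB/c + 1)(2A+1) ≤ 9 B²`), so for exceptional `β` (`Y ≥ 108 D`)
`#SolP + #SolN ≥ Y X / 2`; by Avg the number of such `β` is at most
`2 (16 D A² B + 360³ (AB)³/c²) / (Y X) ≤ 2 c (16 D + 360³) / Y` (`A² B ≤ c B²`), and
`D ≥ τ 1 = 1`. -/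
def StExc : Prop :=
  ∀ (c : ℕ) (A B : ℕ) (D Y : ℝ), c.Prime → 1 ≤ A → A ≤ B → 4 * B < c →
    (∀ j : ℕ, 1 ≤ j → j ≤ A * B → τ j ≤ D) → 108 * D ≤ Y →
    (((Ico 1 c).filter fun β : ℕ => Y * ((B : ℝ) ^ 2 + (A * B : ℝ) ^ 3 / (c : ℝ) ^ 3) <
      ((Sol c β A B).card : ℝ)).card : ℝ) ≤ 10 ^ 8 * D * c / Y

/-- **FinB** (from Exc, Red, Tr2). The final statement for almost all units.

Proof.  Let `C₀` be the constant of `fn_Q1` (r = 3, η = 1/32), `C ≥ C₀`.  If `b` is exceptional with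
`(a₁, a₂, H₁, H₂)`, then `H₂ < c/32`.  Let `A = ⌊H₁⌋₊`, `B = ⌊H₂⌋₊`, `A' = 2^i`, `B' = 2^j` the least
powers of two `≥ 2A`, `2B`; `2A ≤ A' ≤ 4A`, `2B ≤ B' ≤ 4B`, `A' ≤ B'`, `4 B' < c`, `i, j ≤ log₂ c`.
By Tr2 and Red (with `a ≡ a₁`, `b' ≡ - a₂`; `Sol c β` depends only on `β` mod `c` and is monotone in
the box) `Nq ≤ 64 · 4 · #Sol c β₀ A' B'`, `β₀ ∈ [1,c)`, `β₀ ≡ - a₁ a₂ = - b`.  So
`#Sol c β₀ A' B' > (C c^ε/256) (H₂² + (H₁H₂)³/c³) ≥ (C c^ε/256) 4^{-6} (B'² + (A'B')³/c³)`, i.e. `β₀`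
is in the set of Exc for `(A', B')`, `Y = C c^ε / 2^20`, `D = C₁ c^(ε/8)` (`fn_div`).  Sum over
`(i, j)`: at most `(log₂ c + 1)² 10^8 · 2^20 C₁ c^(ε/8) c / (C c^ε) ≤ c^(1-ε/2)` when `C` is large
(`(log₂ c + 1)² ≤ C₂ c^(ε/8)`).  The map `b ↦ β₀` is injective. -/
def StFinB : Prop :=
  ∀ (K ε : ℝ), 1 ≤ K → 0 < ε → ∃ C : ℝ, 0 < C ∧ ∀ c : ℕ, c.Prime →
    (Nat.card {b : (ZMod c)ˣ // ∃ (a₁ a₂ : (ZMod c)ˣ) (H₁ H₂ : ℝ), a₁ * a₂ = b ∧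
      1 ≤ H₁ ∧ H₁ ≤ H₂ ∧ H₂ ≤ K * c ∧
      C * (c : ℝ) ^ ε * (H₂ ^ 2 + (H₁ * H₂) ^ 3 / (c : ℝ) ^ 3) <
        (Nq 6 c a₁ a₂ H₁ H₂ : ℝ)} : ℝ) ≤ (c : ℝ) ^ (1 - ε / 2)

end Pool.Agent.Helper89.HX
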